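import Mathlib

/-!
# Subgroups of a finitely generated abelian section

Part of `MP_c61994_al`. `N' ≤ N''` with `N'' = N' ⟨ts⟩`, `ts` finite, all commutators of `N''` in `N'`. Then for every
subgroup `D` the group `D ⊓ N''` is generated by `D ⊓ N'` and a finite list of elements.

PROOF. `N'` is normal in `N''` (`x y x⁻¹ = (x y x⁻¹ y⁻¹) y`), the quotient `A = N'' ⧸ N'.subgroupOf N''` is commutative and
generated by the images of `ts`, so `Additive A` (with the `CommGroup` structure) is a finitely generated `ℤ`-module, hence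
Noetherian; so the image of `(D ⊓ N'').subgroupOf N''` in `A` is finitely generated (a subgroup of an abelian
group is a `ℤ`-submodule: `AddSubgroup.toIntSubmodule`, or `Submodule.FG`); choose preimages `ds` in `D ⊓ N''` of the
generators. For `x ∈ D ⊓ N''` there is `y ∈ closure ds` with the same image, so `x * y⁻¹ ∈ N'`, and it is in `D`.
-/

set_option autoImplicit false

namespace Pool.Agent.H26.TG

variable {G : Type*} [Group G]

/-- the quotient is generated by the images of `ts` -/
private theorem abel_top {N' N'' : Subgroup G} (hle : N' ≤ N'') (ts : List G)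
    (hts : N'' = N' ⊔ Subgroup.closure {t | t ∈ ts}) :
    N'.subgroupOf N'' ⊔ Subgroup.closure {t : N'' | (t : G) ∈ ts} = ⊤ := by
  apply Subgroup.map_injective N''.subtype_injective
  rw [Subgroup.map_sup, Subgroup.map_subgroupOf_eq_of_le hle, MonoidHom.map_closure]
  have h1 : N''.subtype '' {t : N'' | (t : G) ∈ ts} = {t | t ∈ ts} := by
    ext t
    constructor
    · rintro ⟨t', ht', rfl⟩
      exact ht'
    · intro ht
      have ht2 : t ∈ N'' := by
        rw [hts]
        exact Subgroup.mem_sup_right (Subgroup.subset_closure ht)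
      exact ⟨⟨t, ht2⟩, ht, rfl⟩
  rw [h1, ← hts, ← MonoidHom.range_eq_map, Subgroup.range_subtype]

theorem exists_gens {N' N'' : Subgroup G} (hle : N' ≤ N'') (ts : List G)
    (hts : N'' = N' ⊔ Subgroup.closure {t | t ∈ ts})
    (hab : ∀ x ∈ N'', ∀ y ∈ N'', x * y * x⁻¹ * y⁻¹ ∈ N') (D : Subgroup G) :
    ∃ ds : List G, (∀ d ∈ ds, d ∈ D ⊓ N'') ∧ D ⊓ N'' = (D ⊓ N') ⊔ Subgroup.closure {d | d ∈ ds} := by
  classical
  let Q : Subgroup N'' := N'.subgroupOf N''
  have hmem : ∀ x : N'', x ∈ Q ↔ (x : G) ∈ N' := fun x => Subgroup.mem_subgroupOf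
  have hn : Q.Normal := by
    constructor
    intro y hy x
    rw [hmem] at hy ⊢
    have h1 := N'.mul_mem (hab x x.2 y (hle hy)) hy
    have h2 : (x : G) * y * (x : G)⁻¹ * (y : G)⁻¹ * y = x * y * (x : G)⁻¹ := by group
    rw [h2] at h1
    exact h1
  let A := N'' ⧸ Q
  let π : N'' →* A := QuotientGroup.mk' Q
  have hπs : Function.Surjective π := QuotientGroup.mk'_surjective Q
  have hπ : ∀ x y : N'', π x = π y ↔ (x : G) * (y : G)⁻¹ ∈ N' := by
    intro x y
    have h1 : π x = π y ↔ x * y⁻¹ ∈ Q := by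
      rw [← mul_inv_eq_one, ← map_inv, ← map_mul]
      exact QuotientGroup.eq_one_iff (N := Q) (x * y⁻¹)
    rw [h1, hmem]
    rfl
  let _ : CommGroup A :=
    { (inferInstance : Group A) with
      mul_comm := by
        intro a b
        obtain ⟨x, rfl⟩ := hπs a
        obtain ⟨y, rfl⟩ := hπs b
        rw [← map_mul, ← map_mul, hπ]
        have h1 := hab x x.2 y y.2
        have h2 : ((x * y : N'') : G) * ((y * x : N'') : G)⁻¹ = x * y * (x : G)⁻¹ * (y : G)⁻¹ := by
          push_cast
          group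
        rw [h2]
        exact h1 }
  have hfg : Group.FG A := by
    refine Group.fg_iff.2 ⟨π '' {t : N'' | (t : G) ∈ ts}, ?_, ?_⟩
    · rw [← MonoidHom.map_closure]
      have h1 := congrArg (Subgroup.map π) (abel_top hle ts hts)
      rw [Subgroup.map_sup] at h1
      have h2 : Subgroup.map π (N'.subgroupOf N'') = ⊥ := by
        rw [Subgroup.map_eq_bot_iff]
        intro x hx
        exact (QuotientGroup.eq_one_iff (N := Q) x).2 hx
      rw [h2, bot_sup_eq] at h1
      rw [h1, Subgroup.map_top_of_surjective π hπs]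
    · refine Set.Finite.image _ ?_
      exact Set.Finite.preimage Subtype.coe_injective.injOn (List.finite_toSet ts)
  let H : Subgroup A := (D.subgroupOf N'').map π
  have hH : H.FG := by
    have hA : AddGroup.FG (Additive A) := by
      rw [← GroupFG.iff_add_fg]
      exact hfg
    have hM : Module.Finite ℤ (Additive A) := Module.Finite.iff_addGroup_fg.2 hA
    have h1 : (AddSubgroup.toIntSubmodule (Subgroup.toAddSubgroup H)).FG :=
      IsNoetherian.noetherian _
    rw [Submodule.fg_iff_addSubgroup_fg] at h1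
    rw [Subgroup.fg_iff_add_fg]
    exact h1
  obtain ⟨S, hS⟩ := hH
  have hch : ∀ a : A, ∃ d : N'', a ∈ S → ((d : G) ∈ D ∧ π d = a) := by
    intro a
    by_cases ha : a ∈ S
    · have h1 : a ∈ H := by
        rw [← hS]
        exact Subgroup.subset_closure ha
      obtain ⟨d, hd, rfl⟩ := h1
      exact ⟨d, fun _ => ⟨hd, rfl⟩⟩
    · exact ⟨1, fun h => absurd h ha⟩
  choose f hf using hch
  let ds : List G := S.toList.map fun a => ((f a : N'') : G)
  have hds : ∀ d ∈ ds, ∃ a ∈ S, ((f a : N'') : G) = d := by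
    intro d hd
    obtain ⟨a, ha, rfl⟩ := List.mem_map.1 hd
    exact ⟨a, Finset.mem_toList.1 ha, rfl⟩
  have hds2 : ∀ d ∈ ds, d ∈ D ⊓ N'' := by
    intro d hd
    obtain ⟨a, ha, rfl⟩ := hds d hd
    exact ⟨(hf a ha).1, (f a).2⟩
  refine ⟨ds, hds2, le_antisymm ?_ ?_⟩
  · intro x hx
    have h1 : π ⟨x, hx.2⟩ ∈ H := ⟨⟨x, hx.2⟩, hx.1, rfl⟩
    have h2 : H = (Subgroup.closure (f '' (S : Set A))).map π := by
      rw [MonoidHom.map_closure, ← hS]
      congr 1
      ext a
      constructor
      · intro ha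
        exact ⟨f a, ⟨a, ha, rfl⟩, (hf a ha).2⟩
      · rintro ⟨_, ⟨b, hb, rfl⟩, rfl⟩
        rw [(hf b hb).2]
        exact hb
    rw [h2] at h1
    obtain ⟨y, hy, hyx⟩ := h1
    have h3 : x * (y : G)⁻¹ ∈ N' := (hπ ⟨x, hx.2⟩ y).1 hyx.symm
    have h4 : (y : G) ∈ Subgroup.closure {d | d ∈ ds} := by
      have h5 : (y : G) ∈ (Subgroup.closure (f '' (S : Set A))).map N''.subtype := ⟨y, hy, rfl⟩
      rw [MonoidHom.map_closure] at h5
      refine Subgroup.closure_mono ?_ h5
      rintro _ ⟨_, ⟨a, ha, rfl⟩, rfl⟩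
      exact List.mem_map.2 ⟨a, Finset.mem_toList.2 ha, rfl⟩
    have h6 : (y : G) ∈ D := by
      have h7 : Subgroup.closure {d | d ∈ ds} ≤ D := by
        rw [Subgroup.closure_le]
        intro d hd
        exact (hds2 d hd).1
      exact h7 h4
    have h8 : x = x * (y : G)⁻¹ * y := by group
    rw [h8]
    exact Subgroup.mul_mem _ (Subgroup.mem_sup_left ⟨D.mul_mem hx.1 (D.inv_mem h6), h3⟩)
      (Subgroup.mem_sup_right h4)
  · refine sup_le (inf_le_inf_left D hle) ?_
    rw [Subgroup.closure_le]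
    intro d hd
    exact hds2 d hd

end Pool.Agent.H26.TG
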