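import Pool.Agent.H26.TG.RelP

/-!
# Dehn twists as automorphisms of the surface group

Part of `MP_c61994_al`. Both by `exists_aut`. The relator goes to `1` because with the new images every factor is unchanged:
`relator_lift`, `sg_rel`, `List.map_congr_left`.

* `exists_twistB`: `a_i ↦ a_i b_i`, inverse `a_i ↦ a_i b_i⁻¹`. Factor: `(a b) b (a b)⁻¹ b⁻¹ = a b a⁻¹ b⁻¹`.
* `exists_twistA`: `b_i ↦ b_i a_i`, inverse `b_i ↦ b_i a_i⁻¹`. Factor: `a (b a) a⁻¹ (b a)⁻¹ = a b a⁻¹ b⁻¹`.
-/

set_option autoImplicit false

namespace Pool.Agent.H26.TG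

variable {g : ℕ}

private theorem twist_aux (x y : Gen g) (hxy : y ≠ x)
    (hrel : ∀ (k : Fin g) (z : SG g), z = PresentedGroup.of y ∨ z = (PresentedGroup.of y)⁻¹ →
      (if (Sum.inl k : Gen g) = x then PresentedGroup.of x * z else PresentedGroup.of (Sum.inl k)) *
      (if (Sum.inr k : Gen g) = x then PresentedGroup.of x * z else PresentedGroup.of (Sum.inr k)) *
      (if (Sum.inl k : Gen g) = x then PresentedGroup.of x * z
        else PresentedGroup.of (Sum.inl k))⁻¹ *
      (if (Sum.inr k : Gen g) = x then PresentedGroup.of x * z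
        else PresentedGroup.of (Sum.inr k))⁻¹ =
      (PresentedGroup.of (Sum.inl k) : SG g) * PresentedGroup.of (Sum.inr k) *
      (PresentedGroup.of (Sum.inl k))⁻¹ * (PresentedGroup.of (Sum.inr k))⁻¹) :
    ∃ φ : MulAut (SG g),
      φ (PresentedGroup.of x) = PresentedGroup.of x * PresentedGroup.of y ∧
      ∀ p : Gen g, p ≠ x → φ (PresentedGroup.of p) = PresentedGroup.of p := by
  have hl : ∀ z : SG g, z = PresentedGroup.of y ∨ z = (PresentedGroup.of y)⁻¹ →
      FreeGroup.lift (fun p : Gen g => if p = x then PresentedGroup.of x * z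
        else PresentedGroup.of p) (relator g) = 1 := by
    intro z hz
    rw [relator_lift]
    refine Eq.trans ?_ (sg_rel g)
    exact congrArg List.prod (List.map_congr_left (fun k _ => hrel k z hz))
  obtain ⟨φ, hφ⟩ := exists_aut
    (fun p : Gen g => if p = x then PresentedGroup.of x * PresentedGroup.of y
      else PresentedGroup.of p)
    (fun p : Gen g => if p = x then PresentedGroup.of x * (PresentedGroup.of y)⁻¹
      else PresentedGroup.of p) (hl _ (Or.inl rfl)) (hl _ (Or.inr rfl))
    (by
      intro F hF p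
      by_cases hp : p = x
      · simp only [hp, if_true]
        rw [map_mul, map_inv, hF, hF]
        simp only [if_true, if_neg hxy]
        exact mul_inv_cancel_right _ _
      · simp only [if_neg hp]
        rw [hF]
        exact if_neg hp)
    (by
      intro F hF p
      by_cases hp : p = x
      · simp only [hp, if_true]
        rw [map_mul, hF, hF]
        simp only [if_true, if_neg hxy]
        exact inv_mul_cancel_right _ _
      · simp only [if_neg hp]
        rw [hF]
        exact if_neg hp)
  refine ⟨φ, ?_, ?_⟩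
  · rw [hφ]
    exact if_pos rfl
  · intro p hp
    rw [hφ]
    exact if_neg hp

theorem exists_twistB (i : Fin g) : ∃ φ : MulAut (SG g),
    φ (PresentedGroup.of (Sum.inl i)) = PresentedGroup.of (Sum.inl i) * PresentedGroup.of (Sum.inr i) ∧
    ∀ p : Gen g, p ≠ Sum.inl i → φ (PresentedGroup.of p) = PresentedGroup.of p := by
  refine twist_aux (Sum.inl i) (Sum.inr i) (by simp) ?_
  intro k z hz
  rw [if_neg (show (Sum.inr k : Gen g) ≠ Sum.inl i by simp)]
  by_cases hk : k = i
  · subst hk
    rw [if_pos rfl]
    rcases hz with rfl | rfl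
    · group
    · group
  · rw [if_neg (show (Sum.inl k : Gen g) ≠ Sum.inl i from fun h => hk (Sum.inl.inj h))]

theorem exists_twistA (i : Fin g) : ∃ φ : MulAut (SG g),
    φ (PresentedGroup.of (Sum.inr i)) = PresentedGroup.of (Sum.inr i) * PresentedGroup.of (Sum.inl i) ∧
    ∀ p : Gen g, p ≠ Sum.inr i → φ (PresentedGroup.of p) = PresentedGroup.of p := by
  refine twist_aux (Sum.inr i) (Sum.inl i) (by simp) ?_
  intro k z hz
  rw [if_neg (show (Sum.inl k : Gen g) ≠ Sum.inr i by simp)]
  by_cases hk : k = i
  · subst hk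
    rw [if_pos rfl]
    rcases hz with rfl | rfl
    · group
    · group
  · rw [if_neg (show (Sum.inr k : Gen g) ≠ Sum.inr i from fun h => hk (Sum.inr.inj h))]

end Pool.Agent.H26.TG
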