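import Pool.Agent.H26.TG.KerFng

/-!
# The relations of `N` are generated by translates of finitely many

Part of `MP_c61994_al`. `P` is finitely presented, `N` embeds as a normal subgroup with `P = N ⟨τ⟩`, `τ` of
infinite order modulo `N`, `α` is the conjugation by `τ` on `N`, `p : F → N` is surjective, `F` finitely generated, and
the automorphism `T` of `F` lifts `α`. Then the kernel of `p` is the union of the normal closures
`Kn T R n` of `{T^i r : |i| ≤ n, r ∈ R}` for a finite set `R` of elements of the kernel.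

PROOF. `E = F ⋊[φ] Multiplicative ℤ`, `φ = zpowersHom (MulAut F) T`. It is generated by `inl` of a finite generating
set of `F` and `inr (ofAdd 1)`. `f : E →* P` is `SemidirectProduct.lift (ι.comp p) (zpowersHom P τ)` (the compatibility
`ι (p (T^i x)) = τ^i ι (p x) τ^(-i)` follows from `hT`, `hα`: `lift_zpow`); it is surjective (`hgen`). If `f (x, i) = 1` then
`ι (p x) τ^i = 1`, so `i = 0` (`hinf`) and `p x = 1` (`hι`). By `ker_fng` the kernel is the normal closure of a finite set of
elements `inl r`, `r ∈ R ⊆ ker p`, `R` finite. Let `W = ⋃ n, Kn T R n` (increasing union, so a subgroup), normal in `F` and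
stable under `T` and `T⁻¹` (`T (Kn T R n) ≤ Kn T R (n + 1)`). So `W.map inl` is a normal subgroup of `E` (it is normalised by
`inl` and `inr`; every element of `E` is `inl x * inr i`), it contains the `inl r`, so it contains `ker f`, and
for `x ∈ ker p` we get `inl x ∈ W.map inl`, `x ∈ W` (`SemidirectProduct.inl_injective`).
-/

set_option autoImplicit false

namespace Pool.Agent.H26.TG

/-- normal closure of the `T^i r`, `|i| ≤ n` -/
def Kn {F : Type*} [Group F] (T : MulAut F) (R : Set F) (n : ℕ) : Subgroup F :=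
  Subgroup.normalClosure {x | ∃ i : ℤ, |i| ≤ n ∧ ∃ r ∈ R, x = (T ^ i) r}

section
variable {F : Type*} [Group F] {T : MulAut F} {R : Set F}

lemma Kn_mono {m n : ℕ} (h : m ≤ n) : Kn T R m ≤ Kn T R n := by
  apply Subgroup.normalClosure_mono
  rintro x ⟨i, hi, r, hr, rfl⟩
  exact ⟨i, hi.trans (by exact_mod_cast h), r, hr, rfl⟩

lemma Kn_map (n : ℕ) {x : F} (hx : x ∈ Kn T R n) : T x ∈ Kn T R (n + 1) ∧ T⁻¹ x ∈ Kn T R (n + 1) := by
  have key : ∀ ε : ℤ, |ε| ≤ 1 → ∀ y ∈ Kn T R n, (T ^ ε) y ∈ Kn T R (n + 1) := by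
    intro ε hε
    have hN : ((Kn T R (n + 1)).comap (T ^ ε : MulAut F).toMonoidHom).Normal :=
      Subgroup.Normal.comap Subgroup.normalClosure_normal _
    have hle : Kn T R n ≤ (Kn T R (n + 1)).comap (T ^ ε : MulAut F).toMonoidHom := by
      refine Subgroup.normalClosure_le_normal ?_
      rintro y ⟨i, hi, r, hr, rfl⟩
      refine Subgroup.subset_normalClosure ⟨ε + i, ?_, r, hr, ?_⟩
      · refine (abs_add_le ε i).trans ?_
        push_cast
        linarith
      · rw [zpow_add]
        rfl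
    intro y hy
    exact hle hy
  refine ⟨?_, ?_⟩
  · have := key 1 (by norm_num) x hx
    rwa [zpow_one] at this
  · have := key (-1) (by norm_num) x hx
    rwa [zpow_neg_one] at this

end

lemma lift_zpow {F N : Type*} [Group F] [Group N] {p : F →* N} {α : MulAut N} {T : MulAut F}
    (hT : ∀ x, p (T x) = α (p x)) (i : ℤ) (x : F) : p ((T ^ i) x) = (α ^ i) (p x) := by
  induction i generalizing x with
  | zero => simp
  | succ i ih =>
    rw [zpow_add_one, zpow_add_one, MulAut.mul_apply, MulAut.mul_apply, ih, hT]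
  | pred i ih =>
    have hinv : p (T⁻¹ x) = α⁻¹ (p x) := by
      have h1 := hT (T⁻¹ x)
      rw [MulAut.apply_inv_self] at h1
      rw [h1, MulAut.inv_apply_self]
    rw [zpow_sub_one, zpow_sub_one, MulAut.mul_apply, MulAut.mul_apply, ih, hinv]

theorem ker_union {N P F : Type*} [Group N] [Group P] [Group F] [Group.IsFinitelyPresented P]
    [Group.FG F] (ι : N →* P) (hι : Function.Injective ι) (τ : P)
    (hgen : ∀ y : P, ∃ (x : N) (i : ℤ), y = ι x * τ ^ i)
    (hinf : ∀ (x : N) (i : ℤ), ι x * τ ^ i = 1 → i = 0) (α : MulAut N)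
    (hα : ∀ x, ι (α x) = τ * ι x * τ⁻¹) (p : F →* N) (hp : Function.Surjective p) (T : MulAut F)
    (hT : ∀ x, p (T x) = α (p x)) :
    ∃ R : Set F, R.Finite ∧ (∀ r ∈ R, p r = 1) ∧ ∀ x, p x = 1 → ∃ n : ℕ, x ∈ Kn T R n := by
  set φ : Multiplicative ℤ →* MulAut F := zpowersHom (MulAut F) T with hφ
  have hφi : ∀ i : Multiplicative ℤ, φ i = T ^ (Multiplicative.toAdd i) := fun i => by
    rw [hφ, zpowersHom_apply]
  have hι1 : ∀ (i : ℤ) (y : N), ι ((α ^ i) y) = τ ^ i * ι y * (τ ^ i)⁻¹ := by
    intro i y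
    have h1 := lift_zpow (F := N) (N := P) (p := ι) (α := MulAut.conj τ) (T := α)
      (fun x => by rw [hα, MulAut.conj_apply]) i y
    rw [h1, ← map_zpow, MulAut.conj_apply]
  -- the semidirect product and its map onto `P`
  have hcomp : ∀ g, (ι.comp p).comp (φ g).toMonoidHom =
      (MulAut.conj ((zpowersHom P τ) g)).toMonoidHom.comp (ι.comp p) := by
    intro g
    ext x
    simp only [MonoidHom.comp_apply, MulEquiv.coe_toMonoidHom, MulAut.conj_apply, zpowersHom_apply]
    rw [hφi, lift_zpow hT, hι1]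
  let f : F ⋊[φ] Multiplicative ℤ →* P := SemidirectProduct.lift (ι.comp p) (zpowersHom P τ) hcomp
  have hf : ∀ e : F ⋊[φ] Multiplicative ℤ,
      f e = ι (p e.left) * τ ^ (Multiplicative.toAdd e.right) := by
    intro e
    conv_lhs => rw [← SemidirectProduct.inl_left_mul_inr_right e]
    rw [map_mul]
    simp only [f, SemidirectProduct.lift_inl, SemidirectProduct.lift_inr, MonoidHom.comp_apply,
      zpowersHom_apply]
  have hfs : Function.Surjective f := by
    intro y
    obtain ⟨x, i, rfl⟩ := hgen y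
    obtain ⟨z, rfl⟩ := hp x
    exact ⟨⟨z, Multiplicative.ofAdd i⟩, by rw [hf]; simp⟩
  have hFG : Group.FG (F ⋊[φ] Multiplicative ℤ) := by
    obtain ⟨S, hS, hSf⟩ := Group.fg_iff.mp (inferInstance : Group.FG F)
    refine Group.fg_iff.mpr ⟨(SemidirectProduct.inl '' S) ∪
      {SemidirectProduct.inr (Multiplicative.ofAdd 1)}, ?_,
      (hSf.image _).union (Set.finite_singleton _)⟩
    rw [eq_top_iff]
    intro e _
    rw [← SemidirectProduct.inl_left_mul_inr_right e]
    refine mul_mem ?_ ?_
    · have h1 : (SemidirectProduct.inl e.left : F ⋊[φ] Multiplicative ℤ) ∈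
          (Subgroup.closure S).map SemidirectProduct.inl :=
        ⟨e.left, by rw [hS]; trivial, rfl⟩
      rw [MonoidHom.map_closure] at h1
      exact Subgroup.closure_mono Set.subset_union_left h1
    · have h2 : (SemidirectProduct.inr e.right : F ⋊[φ] Multiplicative ℤ) =
          (SemidirectProduct.inr (Multiplicative.ofAdd 1)) ^ (Multiplicative.toAdd e.right) := by
        rw [← map_zpow, ← ofAdd_zsmul]
        simp
      rw [h2]
      refine Subgroup.zpow_mem _ (Subgroup.subset_closure ?_) _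
      exact Set.mem_union_right _ (Set.mem_singleton _)
  obtain ⟨S, hSf, hS⟩ := ker_fng f hfs
  have hker : ∀ e : F ⋊[φ] Multiplicative ℤ, f e = 1 → p e.left = 1 ∧
      e = SemidirectProduct.inl e.left := by
    intro e he
    rw [hf] at he
    have h0 := hinf _ _ he
    rw [h0, zpow_zero, mul_one] at he
    refine ⟨hι (by rw [he, map_one]), ?_⟩
    have h1 : e.right = 1 := by
      rw [← ofAdd_toAdd e.right, h0, ofAdd_zero]
    conv_lhs => rw [← SemidirectProduct.inl_left_mul_inr_right e, h1, map_one, mul_one]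
  have hSk : ∀ e ∈ S, f e = 1 := by
    intro e he
    have : e ∈ f.ker := hS ▸ Subgroup.subset_normalClosure he
    exact this
  refine ⟨(fun e : F ⋊[φ] Multiplicative ℤ => e.left) '' S, hSf.image _, ?_, ?_⟩
  · rintro _ ⟨e, he, rfl⟩
    exact (hker e (hSk e he)).1
  set R : Set F := (fun e : F ⋊[φ] Multiplicative ℤ => e.left) '' S with hR
  -- the union as a subgroup
  let W : Subgroup F :=
    { carrier := {x | ∃ n : ℕ, x ∈ Kn T R n}
      mul_mem' := by
        rintro a b ⟨m, hm⟩ ⟨n, hn⟩
        exact ⟨max m n, mul_mem (Kn_mono (le_max_left _ _) hm) (Kn_mono (le_max_right _ _) hn)⟩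
      one_mem' := ⟨0, one_mem _⟩
      inv_mem' := by
        rintro a ⟨m, hm⟩
        exact ⟨m, inv_mem hm⟩ }
  have hWT : ∀ (i : ℤ) (x : F), x ∈ W → (T ^ i) x ∈ W := by
    intro i
    induction i with
    | zero => intro x hx; simpa using hx
    | succ i ih =>
      rintro x ⟨n, hn⟩
      rw [zpow_add_one, MulAut.mul_apply]
      exact ih _ ⟨n + 1, (Kn_map n hn).1⟩
    | pred i ih =>
      rintro x ⟨n, hn⟩
      rw [zpow_sub_one, MulAut.mul_apply]
      exact ih _ ⟨n + 1, (Kn_map n hn).2⟩
  have hWn : ∀ (g x : F), x ∈ W → g * x * g⁻¹ ∈ W := by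
    rintro g x ⟨n, hn⟩
    exact ⟨n, Subgroup.normalClosure_normal.conj_mem x hn g⟩
  have hMn : (W.map (SemidirectProduct.inl : F →* F ⋊[φ] Multiplicative ℤ)).Normal := by
    constructor
    rintro _ ⟨x, hx, rfl⟩ e
    refine ⟨e.left * (T ^ (Multiplicative.toAdd e.right)) x * e.left⁻¹,
      hWn _ _ (hWT _ _ hx), ?_⟩
    conv_rhs => rw [← SemidirectProduct.inl_left_mul_inr_right e]
    rw [map_mul, map_mul, ← hφi, SemidirectProduct.inl_aut, mul_inv_rev]
    simp only [mul_assoc, map_inv]
  have hle : f.ker ≤ W.map (SemidirectProduct.inl : F →* F ⋊[φ] Multiplicative ℤ) := by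
    rw [← hS]
    refine Subgroup.normalClosure_le_normal ?_
    intro e he
    refine ⟨e.left, ⟨0, Subgroup.subset_normalClosure ⟨0, by simp, e.left, ⟨e, he, rfl⟩, by simp⟩⟩, ?_⟩
    exact ((hker e (hSk e he)).2).symm
  intro x hx
  have hxk : (SemidirectProduct.inl x : F ⋊[φ] Multiplicative ℤ) ∈ f.ker := by
    rw [MonoidHom.mem_ker, hf]
    simp [hx]
  obtain ⟨y, hy, hyx⟩ := hle hxk
  rw [SemidirectProduct.inl_injective hyx] at hy
  exact hy

end Pool.Agent.H26.TG
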