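import Pool.Agent.H26.TG.Seg
import Pool.Agent.H26.TG.Union

/-!
# The semilattice of normal subgroups with the action of automorphisms

Part of `MP_c61994_al`. `NS F` is the type of normal subgroups of `F`; join and bottom from
`Subtype.semilatticeSup` (`Subgroup.sup_normal`) and `Subtype.orderBot`.

* `actN_act`: `Subgroup.map_id`, `Subgroup.map_map`, `Subgroup.map_mono`.
* `seg_Kn`: both are the smallest normal subgroup containing all `T^i r`, `|i| ≤ n`: the image of a normal closure under
  the surjective `T^i` is the normal closure of the image (`Subgroup.map_normalClosure`); the value of a finite join in `NS F`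
  (`seg_le`, `le_seg` give both inclusions without computing the join).
* `ncl_le`: a normal subgroup containing `R` contains the normal closure.
-/

set_option autoImplicit false

namespace Pool.Agent.H26.TG

/-- normal subgroups -/
def NS (F : Type*) [Group F] : Type _ := {Z : Subgroup F // Z.Normal}

variable {F : Type*} [Group F]

noncomputable instance : SemilatticeSup (NS F) :=
  Subtype.semilatticeSup fun x y hx hy => by
    have := hx
    have := hy
    exact Subgroup.sup_normal x y

noncomputable instance : OrderBot (NS F) := Subtype.orderBot (Subgroup.normal_bot)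

/-- the action of automorphisms on normal subgroups -/
def actN (Φ : MulAut F) (Z : NS F) : NS F :=
  ⟨Z.1.map Φ.toMonoidHom, Subgroup.Normal.map Z.2 _ (MulEquiv.surjective Φ)⟩

/-- normal closure as an element of `NS F` -/
def ncl (R : Set F) : NS F := ⟨Subgroup.normalClosure R, Subgroup.normalClosure_normal⟩

lemma NS.le_iff {Z W : NS F} : Z ≤ W ↔ Z.1 ≤ W.1 := Iff.rfl

lemma NS.coe_sup (Z W : NS F) : (Z ⊔ W).1 = Z.1 ⊔ W.1 := rfl

lemma actN_act : Act (actN : MulAut F → NS F → NS F) where
  one x := Subtype.ext (Subgroup.map_id x.1)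
  mul g h x := by
    refine Subtype.ext ?_
    change x.1.map (g * h).toMonoidHom = (x.1.map h.toMonoidHom).map g.toMonoidHom
    rw [Subgroup.map_map]
    rfl
  mono g _ _ h := Subgroup.map_mono h

lemma seg_Kn (T : MulAut F) (R : Set F) (n : ℕ) : (seg actN T (ncl R) (-n) n).1 = Kn T R n := by
  apply le_antisymm
  · have hn : (Kn T R n).Normal := Subgroup.normalClosure_normal
    have h : seg actN T (ncl R) (-(n : ℤ)) n ≤ (⟨Kn T R n, hn⟩ : NS F) := by
      refine seg_le fun i h1 h2 => ?_
      change (Subgroup.normalClosure R).map (T ^ i).toMonoidHom ≤ Kn T R n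
      rw [Subgroup.map_le_iff_le_comap]
      refine Subgroup.normalClosure_le_normal fun r hr => ?_
      change (T ^ i) r ∈ Kn T R n
      exact Subgroup.subset_normalClosure ⟨i, abs_le.2 ⟨h1, h2⟩, r, hr, rfl⟩
    exact h
  · have hn : (seg actN T (ncl R) (-(n : ℤ)) n).1.Normal := (seg actN T (ncl R) (-(n : ℤ)) n).2
    refine Subgroup.normalClosure_le_normal ?_
    rintro x ⟨i, hi, r, hr, rfl⟩
    have h1 := abs_le.1 hi
    have h : actN (T ^ i) (ncl R) ≤ seg actN T (ncl R) (-(n : ℤ)) n := le_seg h1.1 h1.2
    exact h ⟨r, Subgroup.subset_normalClosure hr, rfl⟩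

end Pool.Agent.H26.TG
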