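import Pool.Agent.H26.TG.Filt
import Pool.Agent.H26.TG.NSub

/-!
# The relation module stops growing

Part of `MP_c61994_al`. `p : F → N` surjective, `F` finitely generated, `T, U, C` automorphisms of `F` which lift
automorphisms `α, β, γ` of `N`; modulo inner automorphisms `α` commutes with `β` and `γ` and `[γ, β] = α ^ q`, `q ≠ 0`. If the kernel
of `p` is the union of the `Kn T R n` for a finite set `R`, it is the normal closure of a finite set.

`LG p`: the group of all pairs `(Φ, α)` with `p ∘ Φ = α ∘ p`.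
`lift_close`: two pairs with `α = conj (x) * α'`: choose `f` with `p f = x`. For each element `s` of a finite generating set of `F` the
element `(Φ s) (f Φ'(s) f⁻¹)⁻¹` is in the kernel of `p`, so in some `Kn T R n` (maximum over `s`). Hence
`Φ y ≡ f Φ'(y) f⁻¹` modulo the normal subgroup `Kn T R n` for all `y` (two homomorphisms to the quotient which agree on
generators). So `Φ Z ≤ Φ' Z ⊔ Kn T R n` for normal `Z`.
`translate`: `Φ (normalClosure R)` is the normal closure of `Φ '' R`, a finite set of elements of the kernel.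
`core`: `filt` with `Γ = LG p`, `Q = MulAut N ⧸ inner`, `L = NS F`, `act g = actN g.1.1`, `B = ncl R`, and
`T = (T, α)`, `U = (U, β)`, `C = (C, γ)`; `seg_Kn` translates (note `seg` for the action of `LG p` is `seg` for the
action of `MulAut F`, by definition: powers in the subgroup of the product). Result: `Kn T R n ≤ Kn T R n₀` for all `n`,
so `p.ker = Kn T R n₀`, the normal closure of a finite set (`|i| ≤ n₀`, `r ∈ R`).
-/

set_option autoImplicit false

namespace Pool.Agent.H26.TG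

instance inn_normal (N : Type*) [Group N] : (MulAut.conj : N →* MulAut N).range.Normal := by
  refine ⟨?_⟩
  rintro _ ⟨x, rfl⟩ α
  refine ⟨α x, ?_⟩
  ext y
  simp

variable {F N : Type*} [Group F] [Group N]

/-- the pairs `(Φ, α)` with `p ∘ Φ = α ∘ p` -/
def LG (p : F →* N) : Subgroup (MulAut F × MulAut N) where
  carrier := {g | ∀ x, p (g.1 x) = g.2 (p x)}
  one_mem' := fun _ => rfl
  mul_mem' := by
    intro g h hg hh x
    change p (g.1 (h.1 x)) = g.2 (h.2 (p x))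
    rw [hg, hh]
  inv_mem' := by
    intro g hg x
    change p (g.1⁻¹ x) = g.2⁻¹ (p x)
    apply g.2.injective
    rw [← hg]
    change p ((g.1 * g.1⁻¹) x) = (g.2 * g.2⁻¹) (p x)
    rw [mul_inv_cancel, mul_inv_cancel]
    rfl

lemma lift_close [Group.FG F] {p : F →* N} (hp : Function.Surjective p) {T : MulAut F} {R : Set F}
    (hun : ∀ x, p x = 1 → ∃ n : ℕ, x ∈ Kn T R n) {Φ Φ' : MulAut F} {α α' : MulAut N}
    (h : ∀ x, p (Φ x) = α (p x)) (h' : ∀ x, p (Φ' x) = α' (p x)) {x : N}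
    (hx : α = MulAut.conj x * α') :
    ∃ n : ℕ, ∀ Z : NS F, (actN Φ Z).1 ≤ (actN Φ' Z).1 ⊔ Kn T R n := by
  obtain ⟨f, hf⟩ := hp x
  have h1 : ∀ y, p (Φ y * (f * Φ' y * f⁻¹)⁻¹) = 1 := by
    intro y
    rw [map_mul, map_inv, map_mul, map_mul, map_inv, h, h', hf, hx]
    simp
  choose ν hν using fun y => hun _ (h1 y)
  obtain ⟨S, hS, hSf⟩ := Group.fg_iff.1 (inferInstance : Group.FG F)
  obtain ⟨n, hn⟩ := (hSf.image ν).bddAbove
  refine ⟨n, fun Z => ?_⟩
  have hK : (Kn T R n).Normal := Subgroup.normalClosure_normal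
  have h2 : (QuotientGroup.mk' (Kn T R n)).comp Φ.toMonoidHom =
      (QuotientGroup.mk' (Kn T R n)).comp (MulAut.conj f * Φ').toMonoidHom := by
    refine MonoidHom.eq_of_eqOn_dense hS fun s hs => ?_
    change QuotientGroup.mk' (Kn T R n) (Φ s) = QuotientGroup.mk' (Kn T R n) (f * Φ' s * f⁻¹)
    have h3 : Φ s * (f * Φ' s * f⁻¹)⁻¹ ∈ Kn T R n :=
      Kn_mono (hn ⟨s, hs, rfl⟩) (hν s)
    have h4 : QuotientGroup.mk' (Kn T R n) (Φ s * (f * Φ' s * f⁻¹)⁻¹) = 1 :=
      (QuotientGroup.eq_one_iff _).2 h3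
    rw [map_mul, map_inv, mul_inv_eq_one] at h4
    exact h4
  rintro _ ⟨z, hz, rfl⟩
  have h5 : QuotientGroup.mk' (Kn T R n) (Φ z) = QuotientGroup.mk' (Kn T R n) (f * Φ' z * f⁻¹) :=
    DFunLike.congr_fun h2 z
  have h6 : (f * Φ' z * f⁻¹)⁻¹ * Φ z ∈ Kn T R n := QuotientGroup.eq.1 h5.symm
  have h7 : f * Φ' z * f⁻¹ ∈ (actN Φ' Z).1 := (actN Φ' Z).2.conj_mem _ ⟨z, hz, rfl⟩ f
  have h8 : Φ z = (f * Φ' z * f⁻¹) * ((f * Φ' z * f⁻¹)⁻¹ * Φ z) := (mul_inv_cancel_left _ _).symm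
  change Φ z ∈ (actN Φ' Z).1 ⊔ Kn T R n
  rw [h8]
  exact Subgroup.mul_mem_sup h7 h6

lemma translate {p : F →* N} {T : MulAut F} {R : Set F} (hR : R.Finite) (hRK : ∀ r ∈ R, p r = 1)
    (hun : ∀ x, p x = 1 → ∃ n : ℕ, x ∈ Kn T R n) {Φ : MulAut F} {α : MulAut N}
    (h : ∀ x, p (Φ x) = α (p x)) : ∃ n : ℕ, (actN Φ (ncl R)).1 ≤ Kn T R n := by
  have h1 : ∀ r : F, r ∈ R → ∃ n : ℕ, Φ r ∈ Kn T R n := by
    intro r hr
    apply hun
    rw [h, hRK r hr, map_one]
  classical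
  have h2 : ∀ r : F, ∃ n : ℕ, r ∈ R → Φ r ∈ Kn T R n := by
    intro r
    by_cases hr : r ∈ R
    · obtain ⟨n, hn⟩ := h1 r hr
      exact ⟨n, fun _ => hn⟩
    · exact ⟨0, fun h => absurd h hr⟩
  choose ν hν using h2
  obtain ⟨n, hn⟩ := (hR.image ν).bddAbove
  refine ⟨n, ?_⟩
  have hK : (Kn T R n).Normal := Subgroup.normalClosure_normal
  change (Subgroup.normalClosure R).map Φ.toMonoidHom ≤ Kn T R n
  rw [Subgroup.map_le_iff_le_comap]
  refine Subgroup.normalClosure_le_normal fun r hr => ?_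
  change Φ r ∈ Kn T R n
  exact Kn_mono (hn ⟨r, hr, rfl⟩) (hν r hr)

private lemma core_mk {N : Type*} [Group N] {a b : MulAut N} {x : N} (h : a = MulAut.conj x * b) :
    QuotientGroup.mk' (MulAut.conj : N →* MulAut N).range a =
      QuotientGroup.mk' (MulAut.conj : N →* MulAut N).range b := by
  have h1 : QuotientGroup.mk' (MulAut.conj : N →* MulAut N).range (MulAut.conj x) = 1 :=
    (QuotientGroup.eq_one_iff _).2 ⟨x, rfl⟩
  rw [h, map_mul, h1, one_mul]

private lemma core_mk' {N : Type*} [Group N] {a b : MulAut N}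
    (h : QuotientGroup.mk' (MulAut.conj : N →* MulAut N).range a =
      QuotientGroup.mk' (MulAut.conj : N →* MulAut N).range b) : ∃ x : N, a = MulAut.conj x * b := by
  have h1 : QuotientGroup.mk' (MulAut.conj : N →* MulAut N).range (a * b⁻¹) = 1 := by
    rw [map_mul, map_inv, h, mul_inv_cancel]
  obtain ⟨x, hx⟩ := (QuotientGroup.eq_one_iff _).1 h1
  exact ⟨x, by rw [hx, inv_mul_cancel_right]⟩

theorem core [Group.FG F] {p : F →* N} (hp : Function.Surjective p) {T U C : MulAut F}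
    {α β γ : MulAut N} (hT : ∀ x, p (T x) = α (p x)) (hU : ∀ x, p (U x) = β (p x))
    (hC : ∀ x, p (C x) = γ (p x)) {q : ℤ} (hq : q ≠ 0)
    (h1 : ∃ x : N, α * β = MulAut.conj x * (β * α)) (h2 : ∃ x : N, α * γ = MulAut.conj x * (γ * α))
    (h3 : ∃ x : N, γ * β * γ⁻¹ * β⁻¹ = MulAut.conj x * α ^ q) {R : Set F} (hR : R.Finite)
    (hRK : ∀ r ∈ R, p r = 1) (hun : ∀ x, p x = 1 → ∃ n : ℕ, x ∈ Kn T R n) :
    p.ker.IsFinitelyNormallyGenerated := by
  let act : LG p → NS F → NS F := fun g => actN g.1.1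
  have hact : Act act := by
    refine ⟨fun x => ?_, fun g h x => ?_, fun g x y h => ?_⟩
    · exact actN_act.one x
    · exact actN_act.mul g.1.1 h.1.1 x
    · exact actN_act.mono g.1.1 x y h
  let π : LG p →* MulAut N ⧸ (MulAut.conj : N →* MulAut N).range :=
    (QuotientGroup.mk' _).comp ((MonoidHom.snd _ _).comp (LG p).subtype)
  let T' : LG p := ⟨(T, α), hT⟩
  let U' : LG p := ⟨(U, β), hU⟩
  let C' : LG p := ⟨(C, γ), hC⟩
  have hseg : ∀ a b : ℤ, seg act T' (ncl R) a b = seg actN T (ncl R) a b := by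
    intro a b
    unfold seg
    refine Finset.sup_congr rfl fun i _ => ?_
    have h : (T' ^ i).1.1 = T ^ i := by
      rw [SubgroupClass.coe_zpow]
      rfl
    change actN (T' ^ i).1.1 (ncl R) = _
    rw [h]
  have hsegK : ∀ n : ℕ, (seg act T' (ncl R) (-n) n).1 = Kn T R n := by
    intro n
    rw [hseg, seg_Kn]
  obtain ⟨n₀, hn₀⟩ := filt (act := act) (T := T') (B := ncl R) hact π (U := U') (C := C') hq
    (by
      intro g
      obtain ⟨n, hn⟩ := translate hR hRK hun g.2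
      refine ⟨n, ?_⟩
      rw [NS.le_iff, hsegK]
      exact hn)
    (by
      intro g g' hgg
      obtain ⟨x, hx⟩ := core_mk' hgg
      obtain ⟨n, hn⟩ := lift_close hp hun g.2 g'.2 hx
      refine ⟨n, fun Z => ?_⟩
      rw [NS.le_iff, NS.coe_sup, hsegK]
      exact hn Z)
    (by
      obtain ⟨x, hx⟩ := h1
      rw [← map_mul, ← map_mul]
      exact core_mk hx)
    (by
      obtain ⟨x, hx⟩ := h2
      rw [← map_mul, ← map_mul]
      exact core_mk hx)
    (by
      obtain ⟨x, hx⟩ := h3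
      rw [← map_mul, ← map_inv, ← map_mul, ← map_inv, ← map_mul, ← map_zpow]
      refine core_mk (x := x) ?_
      change γ * β * γ⁻¹ * β⁻¹ = MulAut.conj x * (T' ^ q).1.2
      rw [hx, SubgroupClass.coe_zpow]
      rfl)
  have hle : ∀ n : ℕ, Kn T R n ≤ Kn T R n₀ := by
    intro n
    have h := hn₀ n
    rw [NS.le_iff, hsegK, hsegK] at h
    exact h
  refine ⟨{x | ∃ i : ℤ, |i| ≤ n₀ ∧ ∃ r ∈ R, x = (T ^ i) r}, ?_, ?_⟩
  · have h : {x | ∃ i : ℤ, |i| ≤ n₀ ∧ ∃ r ∈ R, x = (T ^ i) r} =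
        Set.image2 (fun (i : ℤ) (r : F) => (T ^ i) r) (Set.Icc (-(n₀ : ℤ)) n₀) R := by
      ext x
      constructor
      · rintro ⟨i, hi, r, hr, rfl⟩
        exact ⟨i, Set.mem_Icc.2 (abs_le.1 hi), r, hr, rfl⟩
      · rintro ⟨i, hi, r, hr, rfl⟩
        exact ⟨i, abs_le.2 (Set.mem_Icc.1 hi), r, hr, rfl⟩
    rw [h]
    exact (Set.finite_Icc _ _).image2 _ hR
  · change Kn T R n₀ = p.ker
    apply le_antisymm
    · refine Subgroup.normalClosure_le_normal ?_
      rintro _ ⟨i, _, r, hr, rfl⟩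
      change p ((T ^ i) r) = 1
      rw [lift_zpow hT, hRK r hr, map_one]
    · intro x hx
      obtain ⟨n, hn⟩ := hun x hx
      exact hle n hn

end Pool.Agent.H26.TG
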