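import Mathlib

/-!
# Automorphisms lift to automorphisms of a free group of twice the rank (Nielsen, Rapaport)

Part of `MP_c61994_al`. `big p : F(n ⊔ n) → N` is `p` on the first half of the generators and trivial on the second.
PROOF of `exists_lift`: choose words `w i`, `w' i` in `FreeGroup (Fin n)` with `p (w i) = α (p (of i))` and
`p (w' i) = α⁻¹ (p (of i))`. Write `x i = of (inl i)`, `y i = of (inr i)`, `w i (x)` for the image of `w i` under
`FreeGroup.map Sum.inl` and `w' i (y)` for the image of `w' i` under `FreeGroup.map Sum.inr`. Automorphisms (the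
inverse is given by the inverse element; `FreeGroup.lift`, check on the generators):
`Φ₁ : x i ↦ x i, y i ↦ y i * w i (x)`;  `Φ₂ : x i ↦ x i * (w' i (y))⁻¹, y i ↦ y i`;  `Φ₃ : x i ↔ y i`.
`big p ∘ Φ₁`: `x i ↦ p i, y i ↦ α (p i)`. `big p ∘ Φ₁ ∘ Φ₂`: `y i ↦ α (p i)`, and `w' i (y) ↦ α (p (w' i)) = p i`, so
`x i ↦ 1`. `big p ∘ Φ₁ ∘ Φ₂ ∘ Φ₃`: `x i ↦ α (p i)`, `y i ↦ 1`, which is `α ∘ big p`. So `Φ = Φ₁ ∘ Φ₂ ∘ Φ₃`.
-/

set_option autoImplicit false

namespace Pool.Agent.H26.TG

/-- `p` on the first half of the generators, trivial on the second half -/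
def big {N : Type*} [Group N] {n : ℕ} (p : FreeGroup (Fin n) →* N) :
    FreeGroup (Fin n ⊕ Fin n) →* N :=
  FreeGroup.lift (Sum.elim (fun i => p (FreeGroup.of i)) fun _ => 1)

lemma big_surjective {N : Type*} [Group N] {n : ℕ} {p : FreeGroup (Fin n) →* N}
    (hp : Function.Surjective p) : Function.Surjective (big p) := by
  have h : (big p).comp (FreeGroup.map Sum.inl) = p := by
    ext i
    simp [big]
  intro y
  obtain ⟨x, hx⟩ := hp y
  exact ⟨FreeGroup.map Sum.inl x, (DFunLike.congr_fun h x).trans hx⟩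

/-- transvection: `y i ↦ y i * w i (x)` -/
private def tvR {n : ℕ} (w : Fin n → FreeGroup (Fin n)) :
    FreeGroup (Fin n ⊕ Fin n) →* FreeGroup (Fin n ⊕ Fin n) :=
  FreeGroup.lift (Sum.elim (fun i => FreeGroup.of (Sum.inl i))
    fun i => FreeGroup.of (Sum.inr i) * FreeGroup.map Sum.inl (w i))

/-- transvection: `x i ↦ x i * w i (y)` -/
private def tvL {n : ℕ} (w : Fin n → FreeGroup (Fin n)) :
    FreeGroup (Fin n ⊕ Fin n) →* FreeGroup (Fin n ⊕ Fin n) :=
  FreeGroup.lift (Sum.elim (fun i => FreeGroup.of (Sum.inl i) * FreeGroup.map Sum.inr (w i))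
    fun i => FreeGroup.of (Sum.inr i))

private lemma tvR_map {n : ℕ} (w : Fin n → FreeGroup (Fin n)) (x : FreeGroup (Fin n)) :
    tvR w (FreeGroup.map Sum.inl x) = FreeGroup.map Sum.inl x := by
  have h : (tvR w).comp (FreeGroup.map Sum.inl) = FreeGroup.map Sum.inl := by
    ext i
    simp [tvR]
  exact DFunLike.congr_fun h x

private lemma tvL_map {n : ℕ} (w : Fin n → FreeGroup (Fin n)) (x : FreeGroup (Fin n)) :
    tvL w (FreeGroup.map Sum.inr x) = FreeGroup.map Sum.inr x := by
  have h : (tvL w).comp (FreeGroup.map Sum.inr) = FreeGroup.map Sum.inr := by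
    ext i
    simp [tvL]
  exact DFunLike.congr_fun h x

private lemma tvR_comp {n : ℕ} (w v : Fin n → FreeGroup (Fin n)) (h : ∀ i, v i * w i = 1) :
    (tvR v).comp (tvR w) = MonoidHom.id _ := by
  refine FreeGroup.ext_hom _ _ ?_
  rintro (i | i)
  · simp [tvR]
  · have h1 : tvR w (FreeGroup.of (Sum.inr i)) =
        FreeGroup.of (Sum.inr i) * FreeGroup.map Sum.inl (w i) := by simp [tvR]
    have h2 : tvR v (FreeGroup.of (Sum.inr i)) =
        FreeGroup.of (Sum.inr i) * FreeGroup.map Sum.inl (v i) := by simp [tvR]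
    rw [MonoidHom.comp_apply, h1, map_mul, h2, tvR_map, mul_assoc, ← map_mul, h i, map_one,
      mul_one, MonoidHom.id_apply]

private lemma tvL_comp {n : ℕ} (w v : Fin n → FreeGroup (Fin n)) (h : ∀ i, v i * w i = 1) :
    (tvL v).comp (tvL w) = MonoidHom.id _ := by
  refine FreeGroup.ext_hom _ _ ?_
  rintro (i | i)
  · have h1 : tvL w (FreeGroup.of (Sum.inl i)) =
        FreeGroup.of (Sum.inl i) * FreeGroup.map Sum.inr (w i) := by simp [tvL]
    have h2 : tvL v (FreeGroup.of (Sum.inl i)) =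
        FreeGroup.of (Sum.inl i) * FreeGroup.map Sum.inr (v i) := by simp [tvL]
    rw [MonoidHom.comp_apply, h1, map_mul, h2, tvL_map, mul_assoc, ← map_mul, h i, map_one,
      mul_one, MonoidHom.id_apply]
  · simp [tvL]

/-- the transvection as an automorphism -/
private def tR {n : ℕ} (w : Fin n → FreeGroup (Fin n)) : MulAut (FreeGroup (Fin n ⊕ Fin n)) :=
  MonoidHom.toMulEquiv (tvR w) (tvR fun i => (w i)⁻¹)
    (tvR_comp w _ fun i => inv_mul_cancel (w i)) (tvR_comp _ w fun i => mul_inv_cancel (w i))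

/-- the transvection as an automorphism -/
private def tL {n : ℕ} (w : Fin n → FreeGroup (Fin n)) : MulAut (FreeGroup (Fin n ⊕ Fin n)) :=
  MonoidHom.toMulEquiv (tvL w) (tvL fun i => (w i)⁻¹)
    (tvL_comp w _ fun i => inv_mul_cancel (w i)) (tvL_comp _ w fun i => mul_inv_cancel (w i))

theorem exists_lift {N : Type*} [Group N] {n : ℕ} {p : FreeGroup (Fin n) →* N}
    (hp : Function.Surjective p) (α : MulAut N) :
    ∃ Φ : MulAut (FreeGroup (Fin n ⊕ Fin n)), ∀ x, big p (Φ x) = α (big p x) := by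
  choose w hw using fun i : Fin n => hp (α (p (FreeGroup.of i)))
  choose w' hw' using fun i : Fin n => hp (α⁻¹ (p (FreeGroup.of i)))
  -- `big p` on the two halves
  have b1 : ∀ x : FreeGroup (Fin n), big p (FreeGroup.map Sum.inl x) = p x := by
    intro x
    have h : (big p).comp (FreeGroup.map Sum.inl) = p := by
      ext i
      simp [big]
    exact DFunLike.congr_fun h x
  have b2 : ∀ i : Fin n, big p (FreeGroup.of (Sum.inr i)) = 1 := by
    intro i
    simp [big]
  have b3 : ∀ i : Fin n, big p (FreeGroup.of (Sum.inl i)) = p (FreeGroup.of i) := by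
    intro i
    simp [big]
  -- the composite with the first transvection
  have c1 : ∀ i : Fin n, big p (tvR w (FreeGroup.of (Sum.inl i))) = p (FreeGroup.of i) := by
    intro i
    have h1 : tvR w (FreeGroup.of (Sum.inl i)) = FreeGroup.of (Sum.inl i) := by simp [tvR]
    rw [h1, b3]
  have c2 : ∀ i : Fin n, big p (tvR w (FreeGroup.of (Sum.inr i))) = α (p (FreeGroup.of i)) := by
    intro i
    have h1 : tvR w (FreeGroup.of (Sum.inr i)) =
        FreeGroup.of (Sum.inr i) * FreeGroup.map Sum.inl (w i) := by simp [tvR]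
    rw [h1, map_mul, b1, b2, one_mul, hw]
  have c3 : ∀ x : FreeGroup (Fin n), big p (tvR w (FreeGroup.map Sum.inr x)) = α (p x) := by
    intro x
    have h : ((big p).comp (tvR w)).comp (FreeGroup.map Sum.inr) = α.toMonoidHom.comp p := by
      refine FreeGroup.ext_hom _ _ fun i => ?_
      rw [MonoidHom.comp_apply, MonoidHom.comp_apply, FreeGroup.map.of, c2]
      rfl
    exact DFunLike.congr_fun h x
  -- the composite with both transvections
  have d1 : ∀ i : Fin n, big p (tvR w (tvL (fun i => (w' i)⁻¹) (FreeGroup.of (Sum.inl i)))) = 1 := by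
    intro i
    have h1 : tvL (fun i => (w' i)⁻¹) (FreeGroup.of (Sum.inl i)) =
        FreeGroup.of (Sum.inl i) * FreeGroup.map Sum.inr (w' i)⁻¹ := by simp [tvL]
    rw [h1, map_mul, map_mul, c1, c3, map_inv, hw', map_inv, MulAut.apply_inv_self,
      mul_inv_cancel]
  have d2 : ∀ i : Fin n, big p (tvR w (tvL (fun i => (w' i)⁻¹) (FreeGroup.of (Sum.inr i)))) =
      α (p (FreeGroup.of i)) := by
    intro i
    have h1 : tvL (fun i => (w' i)⁻¹) (FreeGroup.of (Sum.inr i)) =
        FreeGroup.of (Sum.inr i) := by simp [tvL]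
    rw [h1, c2]
  refine ⟨tR w * tL (fun i => (w' i)⁻¹) * FreeGroup.freeGroupCongr (Equiv.sumComm _ _), fun x => ?_⟩
  have h : (big p).comp (tR w * tL (fun i => (w' i)⁻¹) *
      FreeGroup.freeGroupCongr (Equiv.sumComm _ _) : MulAut _).toMonoidHom =
      α.toMonoidHom.comp (big p) := by
    refine FreeGroup.ext_hom _ _ ?_
    rintro (i | i)
    · change big p (tvR w (tvL (fun i => (w' i)⁻¹)
        (FreeGroup.freeGroupCongr (Equiv.sumComm _ _) (FreeGroup.of (Sum.inl i))))) =
          α (big p (FreeGroup.of (Sum.inl i)))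
      rw [FreeGroup.freeGroupCongr_apply, FreeGroup.map.of, Equiv.sumComm_apply, Sum.swap_inl,
        d2, b3]
    · change big p (tvR w (tvL (fun i => (w' i)⁻¹)
        (FreeGroup.freeGroupCongr (Equiv.sumComm _ _) (FreeGroup.of (Sum.inr i))))) =
          α (big p (FreeGroup.of (Sum.inr i)))
      rw [FreeGroup.freeGroupCongr_apply, FreeGroup.map.of, Equiv.sumComm_apply, Sum.swap_inr,
        d1, b2, map_one]
  exact DFunLike.congr_fun h x

end Pool.Agent.H26.TG
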