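import Pool.Agent.H26.TG.FGStep
import Pool.Agent.H26.TG.Core
import Pool.Agent.H26.TG.Lift
import Pool.Agent.H67.CConj.FP

/-!
# The Heisenberg step for finite presentability

Part of `MP_c61994_al`. `N` is normalised by `t, u, v`; modulo `N` the element `t` commutes with `u` and `v`, and
`[v, u] = t ^ q` with `q ≠ 0`. If `N ⊔ ⟨t⟩` is finitely presented, then so is `N`.

PROOF of `fp_step` (`N` normal, `t` of infinite order modulo `N`): `N ⊔ ⟨t⟩` is finitely generated, so `N` is (`fg_step`);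
`p₀ : FreeGroup (Fin n) →* N` surjective, `p = big p₀`, `α, β, γ = MulAut.conjNormal t, u, v` and lifts `T, U, C`
(`exists_lift`). `ker_union` with `ι = Subgroup.inclusion`, `τ = t` (every element of `N ⊔ ⟨t⟩` is `x * t ^ i`) gives `R`; the relations
`h1 h2 h3` of `core` are `htu htv hvu` (for example `t u = (t u t⁻¹ u⁻¹) u t`). `core` and `of_surjective`
(`FreeGroup (Fin n ⊕ Fin n)` is finitely presented) give the claim.
`heisN`: if `t ^ m ∈ N` for some `m ≠ 0`, then `N` has finite index in `N ⊔ ⟨t⟩` (the cosets `t ^ i N`, `0 ≤ i < |m|`), use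
`Pool.Agent.H67.CConj.isFinitelyPresented_of_finiteIndex` for `N.subgroupOf (N ⊔ ⟨t⟩)` and `Subgroup.subgroupOfEquivOfLe`.
`heis`: pass to the group `N.normalizer` (`N.subgroupOf N.normalizer` is normal there; the elements `⟨t, _⟩` ...); the image of
`N.subgroupOf _ ⊔ zpowers ⟨t, _⟩` under the (injective) `subtype` is `N ⊔ zpowers t` (`Subgroup.map_sup`, `MonoidHom.map_zpowers`),
so these groups are isomorphic (`Subgroup.equivMapOfInjective`).
-/

set_option autoImplicit false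

namespace Pool.Agent.H26.TG

variable {G : Type*} [Group G]

theorem fp_step (N : Subgroup G) [N.Normal] {t u v : G} {q : ℤ} (hq : q ≠ 0)
    (htu : t * u * t⁻¹ * u⁻¹ ∈ N) (htv : t * v * t⁻¹ * v⁻¹ ∈ N)
    (hvu : v * u * v⁻¹ * u⁻¹ * (t ^ q)⁻¹ ∈ N) (hinf : ∀ i : ℤ, t ^ i ∈ N → i = 0)
    (hfp : Group.IsFinitelyPresented ↥(N ⊔ Subgroup.zpowers t)) :
    Group.IsFinitelyPresented ↥N := by
  have hfgP : Group.FG ↥(N ⊔ Subgroup.zpowers t) := by
    obtain ⟨n, φ, hφ, -⟩ := hfp.out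
    exact Group.fg_of_surjective hφ
  have hfg : N.FG :=
    fg_step N hq htu htv hvu hinf ((Group.fg_iff_subgroup_fg _).1 hfgP)
  have hfgN : Group.FG ↥N := (Group.fg_iff_subgroup_fg _).2 hfg
  obtain ⟨n, p₀, hp₀⟩ : ∃ (n : ℕ) (p₀ : FreeGroup (Fin n) →* N), Function.Surjective p₀ := by
    obtain ⟨α, hα, φ, hφ⟩ := Group.fg_iff_exists_freeGroup_hom_surjective_finite.1 hfgN
    obtain ⟨n, ⟨e⟩⟩ := Finite.exists_equiv_fin α
    exact ⟨n, φ.comp (FreeGroup.freeGroupCongr e).symm.toMonoidHom,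
      hφ.comp (FreeGroup.freeGroupCongr e).symm.surjective⟩
  have hp : Function.Surjective (big p₀) := big_surjective hp₀
  obtain ⟨T, hT⟩ := exists_lift hp₀ (MulAut.conjNormal t)
  obtain ⟨U, hU⟩ := exists_lift hp₀ (MulAut.conjNormal u)
  obtain ⟨C, hC⟩ := exists_lift hp₀ (MulAut.conjNormal v)
  have hle : N ≤ N ⊔ Subgroup.zpowers t := le_sup_left
  have htm : t ∈ N ⊔ Subgroup.zpowers t :=
    (le_sup_right : Subgroup.zpowers t ≤ N ⊔ Subgroup.zpowers t) (Subgroup.mem_zpowers t)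
  obtain ⟨R, hR, hRK, hun⟩ := ker_union (P := ↥(N ⊔ Subgroup.zpowers t))
    (Subgroup.inclusion hle) (Subgroup.inclusion_injective hle) ⟨t, htm⟩
    (by
      rintro ⟨y, hy⟩
      obtain ⟨a, ha, z, hz, rfl⟩ := Subgroup.mem_sup_of_normal_left.1 hy
      obtain ⟨i, rfl⟩ := Subgroup.mem_zpowers_iff.1 hz
      refine ⟨⟨a, ha⟩, i, ?_⟩
      apply Subtype.ext
      simp)
    (by
      intro x i hx
      apply hinf
      have h1 := congrArg Subtype.val hx
      simp only [Subgroup.coe_mul, Subgroup.coe_zpow, Subgroup.coe_one,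
        Subgroup.coe_inclusion] at h1
      have h2 : t ^ i = (x : G)⁻¹ := (inv_eq_of_mul_eq_one_right h1).symm
      rw [h2]
      exact N.inv_mem x.2)
    (MulAut.conjNormal t)
    (by
      intro x
      apply Subtype.ext
      simp [MulAut.conjNormal_apply])
    (big p₀) hp T hT
  have hval : ∀ x : N, MulAut.conj x = MulAut.conjNormal (H := N) (x : G) := fun x =>
    MulAut.conjNormal_val.symm
  have hker : (big p₀).ker.IsFinitelyNormallyGenerated := by
    refine core hp hT hU hC hq ⟨⟨_, htu⟩, ?_⟩ ⟨⟨_, htv⟩, ?_⟩ ⟨⟨_, hvu⟩, ?_⟩ hR hRK hun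
    · rw [hval, ← map_mul, ← map_mul, ← map_mul]
      congr 1
      group
    · rw [hval, ← map_mul, ← map_mul, ← map_mul]
      congr 1
      group
    · rw [hval, ← map_mul, ← map_inv, ← map_mul, ← map_inv, ← map_mul, ← map_zpow, ← map_mul]
      congr 1
      group
  exact Group.IsFinitelyPresented.of_surjective (big p₀) hp hker

theorem heisN (N : Subgroup G) [N.Normal] {t u v : G} {q : ℤ} (hq : q ≠ 0)
    (htu : t * u * t⁻¹ * u⁻¹ ∈ N) (htv : t * v * t⁻¹ * v⁻¹ ∈ N)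
    (hvu : v * u * v⁻¹ * u⁻¹ * (t ^ q)⁻¹ ∈ N)
    (hfp : Group.IsFinitelyPresented ↥(N ⊔ Subgroup.zpowers t)) :
    Group.IsFinitelyPresented ↥N := by
  by_cases hinf : ∀ i : ℤ, t ^ i ∈ N → i = 0
  · exact fp_step N hq htu htv hvu hinf hfp
  push Not at hinf
  obtain ⟨m, hm, hm0⟩ := hinf
  have hidx : N.relIndex (N ⊔ Subgroup.zpowers t) ≠ 0 := by
    rw [Subgroup.relIndex_sup_left]
    have h1 : N.relIndex (Subgroup.zpowers t) =
        (QuotientGroup.mk' N).ker.relIndex (Subgroup.zpowers t) := by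
      rw [QuotientGroup.ker_mk']
    rw [h1, Subgroup.relIndex_ker, MonoidHom.map_zpowers, Nat.card_zpowers, orderOf_ne_zero_iff,
      isOfFinOrder_iff_zpow_eq_one]
    refine ⟨m, hm0, ?_⟩
    rw [← map_zpow]
    exact (QuotientGroup.eq_one_iff _).2 hm
  have hfi : (N.subgroupOf (N ⊔ Subgroup.zpowers t)).FiniteIndex := ⟨hidx⟩
  have h2 : Group.IsFinitelyPresented ↥(N.subgroupOf (N ⊔ Subgroup.zpowers t)) :=
    Pool.Agent.H67.CConj.isFinitelyPresented_of_finiteIndex (hG := hfp) _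
  exact Group.IsFinitelyPresented.equiv
    (Subgroup.subgroupOfEquivOfLe (le_sup_left : N ≤ N ⊔ Subgroup.zpowers t))

theorem heis (N : Subgroup G) {t u v : G} (ht : t ∈ Subgroup.normalizer (N : Set G))
    (hu : u ∈ Subgroup.normalizer (N : Set G)) (hv : v ∈ Subgroup.normalizer (N : Set G))
    {q : ℤ} (hq : q ≠ 0)
    (htu : t * u * t⁻¹ * u⁻¹ ∈ N) (htv : t * v * t⁻¹ * v⁻¹ ∈ N)
    (hvu : v * u * v⁻¹ * u⁻¹ * (t ^ q)⁻¹ ∈ N)
    (hfp : Group.IsFinitelyPresented ↥(N ⊔ Subgroup.zpowers t)) :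
    Group.IsFinitelyPresented ↥N := by
  set M : Subgroup G := Subgroup.normalizer (N : Set G) with hM
  have hNM : N ≤ M := Subgroup.le_normalizer
  have hn : (N.subgroupOf M).Normal := Subgroup.normal_in_normalizer
  have hmap : (N.subgroupOf M ⊔ Subgroup.zpowers (⟨t, ht⟩ : M)).map M.subtype
      = N ⊔ Subgroup.zpowers t := by
    rw [Subgroup.map_sup, MonoidHom.map_zpowers, Subgroup.map_subgroupOf_eq_of_le hNM]
    rfl
  have e1 := Subgroup.equivMapOfInjective (N.subgroupOf M ⊔ Subgroup.zpowers (⟨t, ht⟩ : M))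
    M.subtype M.subtype_injective
  have hfp' : Group.IsFinitelyPresented
      ↥(N.subgroupOf M ⊔ Subgroup.zpowers (⟨t, ht⟩ : M)) :=
    Group.IsFinitelyPresented.equiv (((e1.trans (MulEquiv.subgroupCongr hmap))).symm)
  have h1 : Group.IsFinitelyPresented ↥(N.subgroupOf M) := by
    refine heisN (N.subgroupOf M) (t := ⟨t, ht⟩) (u := ⟨u, hu⟩) (v := ⟨v, hv⟩) hq ?_ ?_ ?_ hfp'
    · rw [Subgroup.mem_subgroupOf]; exact htu
    · rw [Subgroup.mem_subgroupOf]; exact htv
    · rw [Subgroup.mem_subgroupOf]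
      simpa using hvu
  exact Group.IsFinitelyPresented.equiv (Subgroup.subgroupOfEquivOfLe hNM)

end Pool.Agent.H26.TG
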