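import Pool.Agent.H26.TG.Ext
import Pool.Agent.H26.TG.Heis

/-!
# Adding and removing a list of central elements

Part of `MP_c61994_al`. All groups are subgroups of `K`; the elements of the list commute with `K` modulo `N'`.

* `add_list`: induction on the list, `fp_ext` for `E ⊔ closure ts'` and the next element `t`; it is normalised by `t`:
  for `x` in it `t x t⁻¹ = (t x t⁻¹ x⁻¹) x` with the bracket in `N' ≤ E`; for the other direction
  `t⁻¹ x t = (t⁻¹ ((t x t⁻¹ x⁻¹)⁻¹) t) x` with `(t x t⁻¹ x⁻¹)⁻¹ ∈ N'`, conjugated by `t⁻¹ ∈ K` (`hN`).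
* `remove_list`: induction on the list: `N' ⊔ closure (t :: ts') = (N' ⊔ closure ts') ⊔ zpowers t`; `heis` for
  `N = N' ⊔ closure ts'`, which is normalised by every element of `K` (`x y x⁻¹ = (x y x⁻¹ y⁻¹) y` for `y ∈ ts'`; closure
  induction) .
-/

set_option autoImplicit false

namespace Pool.Agent.H26.TG

variable {G : Type*} [Group G]

private theorem ch_nil (E : Subgroup G) :
    E ⊔ Subgroup.closure {t | t ∈ ([] : List G)} = E := by
  have h : {t : G | t ∈ ([] : List G)} = ∅ := by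
    ext t
    simp
  rw [h, Subgroup.closure_empty, sup_bot_eq]

private theorem ch_cons (E : Subgroup G) (s : G) (ts : List G) :
    E ⊔ Subgroup.closure {t | t ∈ s :: ts} =
      (E ⊔ Subgroup.closure {t | t ∈ ts}) ⊔ Subgroup.zpowers s := by
  have h : {t : G | t ∈ s :: ts} = {t | t ∈ ts} ∪ {s} := by
    ext t
    simp only [List.mem_cons, Set.mem_union, Set.mem_singleton_iff]
    exact or_comm
  rw [h, Subgroup.closure_union, ← Subgroup.zpowers_eq_closure, sup_assoc]

theorem add_list {K N' E : Subgroup G} (hN : ∀ x ∈ K, ∀ y ∈ N', x * y * x⁻¹ ∈ N') (hNE : N' ≤ E)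
    (hEK : E ≤ K) (ts : List G) (hts : ∀ t ∈ ts, t ∈ K ∧ ∀ x ∈ K, t * x * t⁻¹ * x⁻¹ ∈ N')
    (hfp : Group.IsFinitelyPresented ↥E) :
    Group.IsFinitelyPresented ↥(E ⊔ Subgroup.closure {t | t ∈ ts}) := by
  induction ts with
  | nil =>
    rw [ch_nil]
    exact hfp
  | cons s ts ih =>
    have h1 := ih fun t ht => hts t (List.mem_cons_of_mem _ ht)
    rw [ch_cons]
    have hNN : N' ≤ E ⊔ Subgroup.closure {t | t ∈ ts} := hNE.trans le_sup_left
    have hK : E ⊔ Subgroup.closure {t | t ∈ ts} ≤ K := by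
      refine sup_le hEK ?_
      rw [Subgroup.closure_le]
      intro t ht
      exact (hts t (List.mem_cons_of_mem _ ht)).1
    obtain ⟨hsK, hs⟩ := hts s List.mem_cons_self
    refine fp_ext _ ?_ ?_ h1
    · intro x hx
      have h2 : s * x * s⁻¹ = (s * x * s⁻¹ * x⁻¹) * x := by group
      rw [h2]
      exact mul_mem (hNN (hs x (hK hx))) hx
    · intro x hx
      have h2 : s⁻¹ * x * s = (s⁻¹ * (s * x * s⁻¹ * x⁻¹)⁻¹ * s⁻¹⁻¹) * x := by group
      rw [h2]
      exact mul_mem (hNN (hN _ (inv_mem hsK) _ (inv_mem (hs x (hK hx))))) hx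

theorem remove_list {K N' : Subgroup G} (hNK : N' ≤ K) (hN : ∀ x ∈ K, ∀ y ∈ N', x * y * x⁻¹ ∈ N')
    (ts : List G) (hts : ∀ t ∈ ts, t ∈ K ∧ (∀ x ∈ K, t * x * t⁻¹ * x⁻¹ ∈ N') ∧
      ∃ u ∈ K, ∃ v ∈ K, ∃ q : ℤ, q ≠ 0 ∧ v * u * v⁻¹ * u⁻¹ * (t ^ q)⁻¹ ∈ N')
    (hfp : Group.IsFinitelyPresented ↥(N' ⊔ Subgroup.closure {t | t ∈ ts})) :
    Group.IsFinitelyPresented ↥N' := by
  induction ts with
  | nil =>
    rw [ch_nil] at hfp
    exact hfp
  | cons s ts ih =>
    refine ih (fun t ht => hts t (List.mem_cons_of_mem _ ht)) ?_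
    rw [ch_cons] at hfp
    set N : Subgroup G := N' ⊔ Subgroup.closure {t | t ∈ ts} with hNdef
    have hNN : N' ≤ N := le_sup_left
    have hconj : ∀ x ∈ K, ∀ y ∈ N, x * y * x⁻¹ ∈ N := by
      intro x hx
      have h1 : N ≤ N.comap (MulAut.conj x).toMonoidHom := by
        rw [hNdef]
        refine sup_le ?_ ?_
        · intro y hy
          exact hNN (hN x hx y hy)
        · rw [Subgroup.closure_le]
          intro y hy
          have h2 := (hts y (List.mem_cons_of_mem _ hy)).2.1 x hx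
          have h3 : x * y * x⁻¹ = (y * x * y⁻¹ * x⁻¹)⁻¹ * y := by group
          have h4 : y ∈ N := (le_sup_right : Subgroup.closure {t | t ∈ ts} ≤ N)
            (Subgroup.subset_closure hy)
          have h5 : x * y * x⁻¹ ∈ N := by
            rw [h3]
            exact mul_mem (inv_mem (hNN h2)) h4
          exact h5
      intro y hy
      exact h1 hy
    have hnorm : ∀ x ∈ K, x ∈ Subgroup.normalizer (N : Set G) := by
      intro x hx
      rw [Subgroup.mem_normalizer_iff]
      intro y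
      constructor
      · exact fun hy => hconj x hx y hy
      · intro hy
        have h2 := hconj x⁻¹ (inv_mem hx) _ hy
        have h3 : x⁻¹ * (x * y * x⁻¹) * x⁻¹⁻¹ = y := by group
        rwa [h3] at h2
    obtain ⟨hsK, hs, u, huK, v, hvK, q, hq, hvu⟩ := hts s List.mem_cons_self
    exact heis N (hnorm s hsK) (hnorm u huK) (hnorm v hvK) hq (hNN (hs u huK))
      (hNN (hs v hvK)) (hNN hvu) hfp

end Pool.Agent.H26.TG
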