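import Pool.Agent.H26.TG.RelP

/-!
# Coordinates on the homology of the surface group

Part of `MP_c61994_al`. `chi p` is the homomorphism to `ℤ` which is `1` on the generator `p` and `0` on the others.

* `chi_of`: `PresentedGroup.toGroup.of`.
* `of_eq`: for every `z`, `of z = ∏ p, (of (gen p)) ^ (chi p z)` in the abelianisation: both sides are homomorphisms in `z`
  (`∏ p, (zpowersHom _ _).comp (chi p)`), which agree on the generators (`PresentedGroup.ext`); so `of z` is determined by the
  `chi p z`.
* `chi_eq_of`: `chi p` factors through `Abelianization` (`Abelianization.lift`).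
* `chi_prod`: `f` any homomorphism `SG g →* Multiplicative ℤ` is the product of powers of the `chi q` (agree on generators).
-/

set_option autoImplicit false

namespace Pool.Agent.H26.TG

variable {g : ℕ}

/-- the coordinate homomorphisms -/
def chi (p : Gen g) : SG g →* Multiplicative ℤ :=
  PresentedGroup.toGroup (f := fun q : Gen g => Multiplicative.ofAdd (if q = p then (1 : ℤ) else 0))
    (by
      intro r hr
      rw [Set.mem_singleton_iff.1 hr]
      exact relator_comm _)

/-- the coordinates as integers -/
def co (p : Gen g) (x : SG g) : ℤ := Multiplicative.toAdd (chi p x)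

lemma co_of (p q : Gen g) : co p (PresentedGroup.of q) = if q = p then 1 else 0 := by
  unfold co chi
  rw [PresentedGroup.toGroup.of]
  rfl

lemma co_mul (p : Gen g) (x y : SG g) : co p (x * y) = co p x + co p y := by
  unfold co
  rw [map_mul, toAdd_mul]

lemma co_inv (p : Gen g) (x : SG g) : co p x⁻¹ = -co p x := by
  unfold co
  rw [map_inv, toAdd_inv]

lemma co_one (p : Gen g) : co p (1 : SG g) = 0 := by
  unfold co
  rw [map_one, toAdd_one]

lemma of_eq {x y : SG g} (h : ∀ p, co p x = co p y) : Abelianization.of x = Abelianization.of y := by
  have key : ∀ z : SG g, Abelianization.of z =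
      ∏ p : Gen g, (Abelianization.of (PresentedGroup.of p : SG g)) ^ (co p z) := by
    intro z
    let F : SG g →* Abelianization (SG g) :=
      { toFun := fun z => ∏ p : Gen g, (Abelianization.of (PresentedGroup.of p : SG g)) ^ (co p z)
        map_one' := by
          apply Finset.prod_eq_one
          intro p _
          rw [co_one, zpow_zero]
        map_mul' := by
          intro a b
          rw [← Finset.prod_mul_distrib]
          apply Finset.prod_congr rfl
          intro p _
          rw [co_mul, zpow_add] }
    have hF : (Abelianization.of : SG g →* Abelianization (SG g)) = F := by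
      apply PresentedGroup.ext
      intro q
      change _ = ∏ p : Gen g, (Abelianization.of (PresentedGroup.of p : SG g)) ^
        (co p (PresentedGroup.of q))
      rw [Finset.prod_eq_single q]
      · rw [co_of, if_pos rfl, zpow_one]
      · intro p _ hp
        rw [co_of, if_neg (Ne.symm hp), zpow_zero]
      · intro hq
        exact absurd (Finset.mem_univ q) hq
    exact DFunLike.congr_fun hF z
  rw [key x, key y]
  apply Finset.prod_congr rfl
  intro p _
  rw [h p]

lemma co_eq_of {x y : SG g} (h : Abelianization.of x = Abelianization.of y) (p : Gen g) :
    co p x = co p y := by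
  have h1 := congrArg (Abelianization.lift (chi p)) h
  rw [Abelianization.lift_apply_of, Abelianization.lift_apply_of] at h1
  unfold co
  rw [h1]

/-- every additive function on the group is a combination of the coordinates -/
lemma fun_co (f : SG g → ℤ) (hf : ∀ x y, f (x * y) = f x + f y) (x : SG g) :
    f x = ∑ q : Gen g, f (PresentedGroup.of q) * co q x := by
  have hf1 : f 1 = 0 := by
    have h := hf 1 1
    rw [mul_one] at h
    omega
  let F : SG g →* Multiplicative ℤ :=
    { toFun := fun z => Multiplicative.ofAdd (f z)
      map_one' := by
        rw [hf1, ofAdd_zero]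
      map_mul' := by
        intro a b
        rw [hf, ofAdd_add] }
  let G : SG g →* Multiplicative ℤ :=
    { toFun := fun z => Multiplicative.ofAdd (∑ q : Gen g, f (PresentedGroup.of q) * co q z)
      map_one' := by
        have h : ∑ q : Gen g, f (PresentedGroup.of q) * co q (1 : SG g) = 0 := by
          apply Finset.sum_eq_zero
          intro q _
          rw [co_one, mul_zero]
        rw [h, ofAdd_zero]
      map_mul' := by
        intro a b
        rw [← ofAdd_add, ← Finset.sum_add_distrib]
        apply congrArg
        apply Finset.sum_congr rfl
        intro q _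
        rw [co_mul, mul_add] }
  have hFG : F = G := by
    apply PresentedGroup.ext
    intro q
    change Multiplicative.ofAdd (f (PresentedGroup.of q)) =
      Multiplicative.ofAdd (∑ p : Gen g, f (PresentedGroup.of p) * co p (PresentedGroup.of q))
    apply congrArg
    rw [Finset.sum_eq_single q]
    · rw [co_of, if_pos rfl, mul_one]
    · intro p _ hp
      rw [co_of, if_neg (Ne.symm hp), mul_zero]
    · intro hq
      exact absurd (Finset.mem_univ q) hq
  have h := DFunLike.congr_fun hFG x
  exact Multiplicative.ofAdd.injective h

/-- the elements of the flag subgroup have zero coordinates at the later positions -/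
lemma co_flag {k : ℕ} {x : SG g} (hx : Abelianization.of x ∈ flag g k) {j : Fin (2 * g)}
    (hj : k ≤ (j : ℕ)) : co (gi j) x = 0 := by
  have hle : flag g k ≤ (Abelianization.lift (chi (gi j))).ker := by
    unfold flag
    rw [Subgroup.closure_le]
    rintro z ⟨i, hi, rfl⟩
    rw [SetLike.mem_coe, MonoidHom.mem_ker, Abelianization.lift_apply_of]
    have h := co_of (gi j) (gi i)
    have hne : gi i ≠ gi j := by
      intro he
      have h2 : i = j := by
        rw [← pos_gi i, ← pos_gi j, he]
      rw [h2] at hi
      omega
    rw [if_neg hne] at h
    exact Multiplicative.toAdd.injective h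
  have h := hle hx
  rw [MonoidHom.mem_ker, Abelianization.lift_apply_of] at h
  unfold co
  rw [h, toAdd_one]

end Pool.Agent.H26.TG
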