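import Mathlib

/-!
# Extensions of finitely presented groups by cyclic groups

Part of `MP_c61994_al`. If `N` is finitely presented and normalised by `t`, then `N ⊔ ⟨t⟩` is finitely presented.

PROOF. Let `α : MulAut N` be the conjugation by `t`, `S` a finite generating set of `N`, `m : ℤ` with
`t ^ i ∈ N ↔ m ∣ i` (`{i | t ^ i ∈ N}` is a subgroup of `ℤ`, use `Int.subgroup_cyclic` or `AddSubgroup.zmultiples`; `m = 0` is
allowed). `E = Monoid.Coprod N (Multiplicative ℤ)` is finitely presented (instance), `f : E →* N ⊔ ⟨t⟩` the map given by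
the inclusion and `t` (`Monoid.Coprod.lift`, `zpowersHom`), surjective. `R` = the finite set of the
`τ * inl s * τ⁻¹ * (inl (α s))⁻¹`, `s ∈ S`, and `τ ^ m * (inl (t ^ m))⁻¹`, `τ = inr (ofAdd 1)`; `R ⊆ ker f`. Let `K₀` be the normal closure
of `R`. The two homomorphisms `N → E ⧸ K₀`, `x ↦ τ (inl x) τ⁻¹` and `x ↦ inl (α x)`, agree on `S`, so on `N`; replacing `x` by
`α⁻¹ x` also `τ⁻¹ (inl x) τ = inl (α⁻¹ x)`. So the set of the classes `inl x * τ ^ i` is stable under left multiplication by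
`inl y` and `τ`, `τ⁻¹`, and is everything (`Monoid.Coprod.induction_on'` or: the subgroup generated by the ranges of `inl` and `inr` is `⊤`).
If `f e = 1` and `e = inl x * τ ^ i * k`, `k ∈ K₀`, then `x * t ^ i = 1`, so `i = m * j`, `τ ^ i ≡ inl ((t ^ m) ^ j)`,
`e ≡ inl (x * t ^ i) = 1`. Hence `ker f = K₀`; use `Group.IsFinitelyPresented.of_surjective`.
-/

set_option autoImplicit false

namespace Pool.Agent.H26.TG

private theorem ext_ker {N E H : Type*} [Group N] [Group E] [Group H] (ι : N →* E) (τ : E)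
    (hgen : ∀ P : Subgroup E, ι.range ≤ P → τ ∈ P → P = ⊤) (f : E →* H)
    (hinj : ∀ x : N, f (ι x) = 1 → x = 1) (α : MulAut N)
    (hα : ∀ x, f τ * f (ι x) * (f τ)⁻¹ = f (ι (α x))) (S : Set N) (hS : Subgroup.closure S = ⊤)
    (m : ℤ) (n0 : N) (hm : f τ ^ m = f (ι n0))
    (hmin : ∀ i : ℤ, (∃ x : N, f τ ^ i = f (ι x)) → m ∣ i) :
    Subgroup.normalClosure ((fun s => τ * ι s * τ⁻¹ * (ι (α s))⁻¹) '' S ∪ {τ ^ m * (ι n0)⁻¹}) =
      f.ker := by
  set R : Set E := (fun s => τ * ι s * τ⁻¹ * (ι (α s))⁻¹) '' S ∪ {τ ^ m * (ι n0)⁻¹} with hR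
  have hRk : Subgroup.normalClosure R ≤ f.ker := by
    refine Subgroup.normalClosure_le_normal ?_
    rintro e (⟨s, -, rfl⟩ | he)
    · change f (τ * ι s * τ⁻¹ * (ι (α s))⁻¹) = 1
      rw [map_mul, map_mul, map_mul, map_inv, map_inv, hα, mul_inv_cancel]
    · rw [Set.mem_singleton_iff] at he
      subst he
      change f (τ ^ m * (ι n0)⁻¹) = 1
      rw [map_mul, map_zpow, hm, map_inv, mul_inv_cancel]
  refine le_antisymm hRk ?_
  let π : E →* E ⧸ Subgroup.normalClosure R := QuotientGroup.mk' _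
  have hπ : ∀ e : E, π e = 1 ↔ e ∈ Subgroup.normalClosure R := fun e =>
    QuotientGroup.eq_one_iff e
  have hrel1 : ∀ s ∈ S, π τ * π (ι s) * (π τ)⁻¹ = π (ι (α s)) := by
    intro s hs
    have h3 : τ * ι s * τ⁻¹ * (ι (α s))⁻¹ ∈ Subgroup.normalClosure R :=
      Subgroup.subset_normalClosure (Or.inl ⟨s, hs, rfl⟩)
    have h4 := (hπ _).mpr h3
    rw [map_mul, map_mul, map_mul, map_inv, map_inv] at h4
    exact mul_inv_eq_one.mp h4
  have hrel2 : π τ ^ m = π (ι n0) := by
    have h3 : τ ^ m * (ι n0)⁻¹ ∈ Subgroup.normalClosure R :=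
      Subgroup.subset_normalClosure (Or.inr rfl)
    have h4 := (hπ _).mpr h3
    rw [map_mul, map_zpow, map_inv] at h4
    exact mul_inv_eq_one.mp h4
  have hrel : ∀ x : N, π τ * π (ι x) * (π τ)⁻¹ = π (ι (α x)) := by
    have h3 : (MulAut.conj (π τ)).toMonoidHom.comp (π.comp ι) =
        (π.comp ι).comp α.toMonoidHom := by
      refine MonoidHom.eq_of_eqOn_dense hS ?_
      intro s hs
      exact hrel1 s hs
    intro x
    exact DFunLike.congr_fun h3 x
  -- the elements which normalise the image of `ι`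
  let T : Subgroup (E ⧸ Subgroup.normalClosure R) :=
    { carrier := {u | ∃ β : MulAut N, ∀ y, u * π (ι y) * u⁻¹ = π (ι (β y))}
      one_mem' := ⟨1, fun y => by simp⟩
      mul_mem' := by
        rintro u v ⟨β, hβ⟩ ⟨γ, hγ⟩
        refine ⟨β * γ, fun y => ?_⟩
        rw [MulAut.mul_apply, ← hβ, ← hγ]
        group
      inv_mem' := by
        rintro u ⟨β, hβ⟩
        refine ⟨β⁻¹, fun y => ?_⟩
        have h3 := hβ (β⁻¹ y)
        rw [MulAut.apply_inv_self] at h3
        rw [← h3]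
        group }
  have hτT : π τ ∈ T := ⟨α, hrel⟩
  have hT : ∀ i : ℤ, ∃ β : MulAut N, ∀ y, π τ ^ i * π (ι y) * (π τ ^ i)⁻¹ = π (ι (β y)) :=
    fun i => zpow_mem hτT i
  let P : Subgroup (E ⧸ Subgroup.normalClosure R) :=
    { carrier := {u | ∃ (x : N) (i : ℤ), u = π (ι x) * π τ ^ i}
      one_mem' := ⟨1, 0, by simp⟩
      mul_mem' := by
        rintro u v ⟨x, i, rfl⟩ ⟨y, j, rfl⟩
        obtain ⟨β, hβ⟩ := hT i
        refine ⟨x * β y, i + j, ?_⟩
        rw [map_mul, map_mul, ← hβ, zpow_add]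
        group
      inv_mem' := by
        rintro u ⟨x, i, rfl⟩
        obtain ⟨β, hβ⟩ := hT (-i)
        refine ⟨β x⁻¹, -i, ?_⟩
        rw [← hβ, map_inv, map_inv]
        group }
  have hP : P.comap π = ⊤ := by
    refine hgen _ ?_ ?_
    · rintro _ ⟨x, rfl⟩
      exact ⟨x, 0, by simp⟩
    · exact ⟨1, 1, by simp⟩
  intro e he
  have he' : f e = 1 := he
  have h3 : e ∈ P.comap π := by
    rw [hP]
    exact Subgroup.mem_top e
  obtain ⟨x, i, hxi⟩ : ∃ (x : N) (i : ℤ), π e = π (ι x) * π τ ^ i := h3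
  have h4 : π (e * (ι x * τ ^ i)⁻¹) = 1 := by
    rw [map_mul, map_inv, map_mul, map_zpow, ← hxi, mul_inv_cancel]
  have h5 : f (e * (ι x * τ ^ i)⁻¹) = 1 := hRk ((hπ _).mp h4)
  rw [map_mul, map_inv, he', one_mul, inv_eq_one, map_mul, map_zpow] at h5
  have h6 : f τ ^ i = f (ι x⁻¹) := by
    rw [map_inv, map_inv]
    exact eq_inv_of_mul_eq_one_right h5
  obtain ⟨j, rfl⟩ := hmin i ⟨_, h6⟩
  have h7 : x * n0 ^ j = 1 := by
    apply hinj
    rw [map_mul, map_mul, map_zpow, map_zpow, ← hm, ← zpow_mul]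
    exact h5
  rw [← hπ, hxi, zpow_mul, hrel2, ← map_zpow, ← map_zpow, ← map_mul, ← map_mul, h7, map_one,
    map_one]

theorem fp_ext {G : Type*} [Group G] (N : Subgroup G) {t : G} (h1 : ∀ x ∈ N, t * x * t⁻¹ ∈ N)
    (h2 : ∀ x ∈ N, t⁻¹ * x * t ∈ N) (hfp : Group.IsFinitelyPresented ↥N) :
    Group.IsFinitelyPresented ↥(N ⊔ Subgroup.zpowers t) := by
  set H : Subgroup G := N ⊔ Subgroup.zpowers t with hH
  have hNH : N ≤ H := le_sup_left
  have htH : t ∈ H := (le_sup_right : Subgroup.zpowers t ≤ H) (Subgroup.mem_zpowers t)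
  let α : MulAut N :=
    { toFun := fun x => ⟨t * x * t⁻¹, h1 x x.2⟩
      invFun := fun x => ⟨t⁻¹ * x * t, h2 x x.2⟩
      left_inv := fun x => Subtype.ext (by
        change t⁻¹ * (t * (x : G) * t⁻¹) * t = x
        group)
      right_inv := fun x => Subtype.ext (by
        change t * (t⁻¹ * (x : G) * t) * t⁻¹ = x
        group)
      map_mul' := fun x y => Subtype.ext (by
        change t * ((x : G) * y) * t⁻¹ = t * x * t⁻¹ * (t * y * t⁻¹)
        group) }
  obtain ⟨n, φ, hφ, -⟩ := hfp.out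
  have hS : Subgroup.closure (Set.range fun k => φ (FreeGroup.of k)) = ⊤ := by
    have h3 : (Set.range fun k => φ (FreeGroup.of k)) = φ '' Set.range FreeGroup.of := by
      rw [← Set.range_comp]
      rfl
    rw [h3, ← MonoidHom.map_closure, FreeGroup.closure_range_of, ← MonoidHom.range_eq_map]
    exact MonoidHom.range_eq_top.mpr hφ
  let A : AddSubgroup ℤ :=
    { carrier := {i | t ^ i ∈ N}
      zero_mem' := by simp
      add_mem' := by
        intro i j hi hj
        change t ^ (i + j) ∈ N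
        rw [zpow_add]
        exact mul_mem hi hj
      neg_mem' := by
        intro i hi
        change t ^ (-i) ∈ N
        rw [zpow_neg]
        exact inv_mem hi }
  obtain ⟨m, hA⟩ := Int.subgroup_cyclic A
  have hmA : ∀ i : ℤ, t ^ i ∈ N ↔ m ∣ i := by
    intro i
    have h3 : t ^ i ∈ N ↔ i ∈ A := Iff.rfl
    rw [h3, hA, AddSubgroup.mem_closure_singleton]
    constructor
    · rintro ⟨k, rfl⟩
      exact ⟨k, by rw [smul_eq_mul, mul_comm]⟩
    · rintro ⟨k, rfl⟩
      exact ⟨k, by rw [smul_eq_mul, mul_comm]⟩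
  have hmN : t ^ m ∈ N := (hmA m).mpr dvd_rfl
  let f : Monoid.Coprod N (Multiplicative ℤ) →* H :=
    Monoid.Coprod.lift (Subgroup.inclusion hNH) (zpowersHom H ⟨t, htH⟩)
  have fι : ∀ x : N, f (Monoid.Coprod.inl x) = ⟨(x : G), hNH x.2⟩ := fun x =>
    Monoid.Coprod.lift_apply_inl _ _ x
  have fτ : f (Monoid.Coprod.inr (Multiplicative.ofAdd (1 : ℤ))) = ⟨t, htH⟩ := by
    have h3 : f (Monoid.Coprod.inr (Multiplicative.ofAdd (1 : ℤ))) =
        zpowersHom H ⟨t, htH⟩ (Multiplicative.ofAdd (1 : ℤ)) :=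
      Monoid.Coprod.lift_apply_inr _ _ _
    rw [h3, zpowersHom_apply]
    simp
  have fτi : ∀ i : ℤ, ((f (Monoid.Coprod.inr (Multiplicative.ofAdd (1 : ℤ))) ^ i : H) : G) =
      t ^ i := by
    intro i
    rw [fτ]
    rfl
  have hker := ext_ker (Monoid.Coprod.inl : N →* Monoid.Coprod N (Multiplicative ℤ))
    (Monoid.Coprod.inr (Multiplicative.ofAdd (1 : ℤ))) (by
      intro P hP1 hP2
      rw [eq_top_iff]
      intro e _
      induction e using Monoid.Coprod.induction_on with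
      | inl x => exact hP1 ⟨x, rfl⟩
      | inr k =>
        have h3 : k = (Multiplicative.ofAdd (1 : ℤ)) ^ (Multiplicative.toAdd k) := by
          rw [← ofAdd_zsmul, smul_eq_mul, mul_one]
          rfl
        rw [h3, map_zpow]
        exact zpow_mem hP2 _
      | mul x y hx hy => exact mul_mem (hx trivial) (hy trivial)) f (by
      intro x hx
      rw [fι] at hx
      have h3 : (x : G) = 1 := congrArg (fun z : H => (z : G)) hx
      exact Subtype.ext h3) α (by
      intro x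
      rw [fι, fι, fτ]
      rfl) _ hS m ⟨t ^ m, hmN⟩ (by
      apply Subtype.ext
      rw [fτi, fι]) (by
      rintro i ⟨x, hx⟩
      rw [← hmA]
      have h3 := congrArg Subtype.val hx
      rw [fτi, fι] at h3
      rw [h3]
      exact x.2)
  have hsurj : Function.Surjective f := by
    have h3 : N ⊔ Subgroup.zpowers t ≤ f.range.map H.subtype := by
      refine sup_le ?_ ?_
      · intro x hx
        exact ⟨f (Monoid.Coprod.inl ⟨x, hx⟩), ⟨_, rfl⟩, by rw [fι]; rfl⟩
      · rw [Subgroup.zpowers_le]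
        exact ⟨f (Monoid.Coprod.inr (Multiplicative.ofAdd (1 : ℤ))), ⟨_, rfl⟩, by rw [fτ]; rfl⟩
    rintro ⟨x, hx⟩
    obtain ⟨y, ⟨e, rfl⟩, hy⟩ := h3 hx
    exact ⟨e, Subtype.ext hy⟩
  refine Group.IsFinitelyPresented.of_surjective f hsurj ⟨_, ?_, hker⟩
  exact ((Set.finite_range _).image _).union (Set.finite_singleton _)

end Pool.Agent.H26.TG
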