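import Pool.Agent.H26.TG.Filt

/-!
# The Heisenberg step for finite generation

Part of `MP_c61994_al`. `N` normal in `G`; modulo `N` the element `t` has infinite order, commutes with `u`, `v`,
and `[v, u] = t ^ q`, `q ≠ 0`. If `N ⊔ ⟨t⟩` is finitely generated, so is `N`.

PROOF. `exists_fin`: a finite generating set of `N ⊔ ⟨t⟩`; every element of `N ⊔ ⟨t⟩` is `x * t ^ i` with `x ∈ N`
(`Subgroup.mem_sup_of_normal_left` or `Subgroup.mem_sup`, `N` normal); `S` the set of these `x`.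
Let `cS S n = closure {t^i s t^(-i) : |i| ≤ n, s ∈ S}`. `mem_cS`: for `x ∈ N` there is `n` with `x ∈ cS S n`: the union
`W` of the increasing sequence `cS S n` is a subgroup normalised by `t` and `t⁻¹` which contains `S`, so
`W * ⟨t⟩` is a subgroup containing `N ⊔ ⟨t⟩` (all its elements are `y * t ^ i`, `y ∈ W`); if `y * t ^ i = x ∈ N`, then
`t ^ i ∈ N` (`W ≤ N`), so `i = 0`.
`fg_step`: apply `filt` with `Γ = G`, `L = Subgroup G`, `act g Z = Z.map (MulAut.conj g).toMonoidHom`,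
`π = QuotientGroup.mk' N`, `B = closure S`, `C = v`, `U = u`. Here
`seg act t B (-n) n = cS S n` (`seg_eq`: `Subgroup.map` of a closure is the closure of the image; both inclusions are
easy). `hB`: `act g B = closure (g S g⁻¹)`, the finite set `g S g⁻¹ ⊆ N` lies in some `cS S n` (`mem_cS`, maximum).
`hE`: `π g = π g'` gives `g = x * g'` with `x ∈ N` (`N` normal), `act g Z = x (act g' Z) x⁻¹ ≤ act g' Z ⊔ cS S n` if
`x ∈ cS S n`. Result: `cS S n ≤ cS S n₀` for all `n`, so `N = cS S n₀`, which is finitely generated.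
-/

set_option autoImplicit false

namespace Pool.Agent.H26.TG

variable {G : Type*} [Group G]

/-- the subgroup generated by the `t^i s t^(-i)`, `|i| ≤ n` -/
def cS (t : G) (S : Set G) (n : ℕ) : Subgroup G :=
  Subgroup.closure {x | ∃ i : ℤ, |i| ≤ n ∧ ∃ s ∈ S, x = t ^ i * s * (t ^ i)⁻¹}

private lemma cS_mono (t : G) (S : Set G) {m n : ℕ} (h : m ≤ n) : cS t S m ≤ cS t S n := by
  apply Subgroup.closure_mono
  rintro x ⟨i, hi, s, hs, rfl⟩
  exact ⟨i, hi.trans (by exact_mod_cast h), s, hs, rfl⟩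

private lemma cS_le (t : G) {S : Set G} {N : Subgroup G} [N.Normal] (hS : S ⊆ N) (n : ℕ) :
    cS t S n ≤ N := by
  rw [cS, Subgroup.closure_le]
  rintro x ⟨i, _, s, hs, rfl⟩
  exact Subgroup.Normal.conj_mem inferInstance s (hS hs) (t ^ i)

private lemma cS_conj (t : G) (S : Set G) (j : ℤ) {x : G} {n : ℕ} (hx : x ∈ cS t S n) :
    t ^ j * x * (t ^ j)⁻¹ ∈ cS t S (n + j.natAbs) := by
  have h1 : cS t S n ≤ (cS t S (n + j.natAbs)).comap (MulAut.conj (t ^ j)).toMonoidHom := by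
    rw [cS, Subgroup.closure_le]
    rintro y ⟨i, hi, s, hs, rfl⟩
    show t ^ j * (t ^ i * s * (t ^ i)⁻¹) * (t ^ j)⁻¹ ∈ cS t S (n + j.natAbs)
    apply Subgroup.subset_closure
    refine ⟨j + i, ?_, s, hs, ?_⟩
    · have := abs_add_le j i
      rw [← Int.natCast_natAbs j] at this
      push_cast
      rw [← Int.natCast_natAbs j]
      linarith
    · rw [zpow_add]
      group
  exact h1 hx

lemma exists_fin (N : Subgroup G) [N.Normal] (t : G) (hfg : (N ⊔ Subgroup.zpowers t).FG) :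
    ∃ S : Set G, S.Finite ∧ S ⊆ N ∧ N ⊔ Subgroup.zpowers t ≤ Subgroup.closure (S ∪ {t}) := by
  classical
  obtain ⟨F, hF, hFf⟩ := (Subgroup.fg_iff _).mp hfg
  have h1 : ∀ y ∈ F, ∃ x ∈ N, ∃ i : ℤ, x * t ^ i = y := by
    intro y hy
    have h2 : y ∈ N ⊔ Subgroup.zpowers t := by
      rw [← hF]
      exact Subgroup.subset_closure hy
    rw [Subgroup.mem_sup_of_normal_left] at h2
    obtain ⟨x, hx, z, ⟨i, hi⟩, hxz⟩ := h2
    exact ⟨x, hx, i, by simpa [hi] using hxz⟩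
  choose! x hx i hi using h1
  refine ⟨x '' F, hFf.image _, ?_, ?_⟩
  · rintro _ ⟨y, hy, rfl⟩
    exact hx y hy
  · rw [← hF, Subgroup.closure_le]
    intro y hy
    rw [← hi y hy]
    refine mul_mem (Subgroup.subset_closure (Or.inl ⟨y, hy, rfl⟩)) (zpow_mem ?_ _)
    exact Subgroup.subset_closure (Or.inr rfl)

lemma mem_cS (N : Subgroup G) [N.Normal] (t : G) (hinf : ∀ i : ℤ, t ^ i ∈ N → i = 0) {S : Set G}
    (hS : S ⊆ N) (hgen : N ⊔ Subgroup.zpowers t ≤ Subgroup.closure (S ∪ {t})) {x : G}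
    (hx : x ∈ N) : ∃ n : ℕ, x ∈ cS t S n := by
  have key : ∀ z ∈ Subgroup.closure (S ∪ {t}), ∃ (n : ℕ) (y : G) (i : ℤ), y ∈ cS t S n ∧
      z = y * t ^ i := by
    intro z hz
    induction hz using Subgroup.closure_induction with
    | mem z hz =>
      rcases hz with hz | hz
      · refine ⟨0, z, 0, Subgroup.subset_closure ⟨0, by simp, z, hz, by simp⟩, by simp⟩
      · rw [Set.mem_singleton_iff] at hz
        exact ⟨0, 1, 1, one_mem _, by rw [hz]; simp⟩
    | one => exact ⟨0, 1, 0, one_mem _, by simp⟩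
    | mul a b _ _ iha ihb =>
      obtain ⟨n, y, i, hy, rfl⟩ := iha
      obtain ⟨m, w, j, hw, rfl⟩ := ihb
      refine ⟨n + (m + i.natAbs), y * (t ^ i * w * (t ^ i)⁻¹), i + j, ?_, ?_⟩
      · exact mul_mem (cS_mono t S (by omega) hy) (cS_mono t S (by omega) (cS_conj t S i hw))
      · rw [zpow_add]
        group
    | inv a _ iha =>
      obtain ⟨n, y, i, hy, rfl⟩ := iha
      refine ⟨n + (-i).natAbs, t ^ (-i) * y⁻¹ * (t ^ (-i))⁻¹, -i, ?_, ?_⟩
      · exact cS_conj t S (-i) (inv_mem hy)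
      · group
  obtain ⟨n, y, i, hy, hxy⟩ := key x (hgen (Subgroup.mem_sup_left hx))
  have hyN : y ∈ N := cS_le t hS n hy
  have hti : t ^ i ∈ N := by
    have : t ^ i = y⁻¹ * x := by rw [hxy]; group
    rw [this]
    exact mul_mem (inv_mem hyN) hx
  have hi0 := hinf i hti
  rw [hi0, zpow_zero, mul_one] at hxy
  exact ⟨n, hxy ▸ hy⟩

/-- the action by conjugation on subgroups -/
def actC (g : G) (Z : Subgroup G) : Subgroup G := Z.map (MulAut.conj g).toMonoidHom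

private lemma mem_actC {g : G} {Z : Subgroup G} {x : G} : x ∈ actC g Z ↔ ∃ z ∈ Z, g * z * g⁻¹ = x := by
  rw [actC, Subgroup.mem_map]
  rfl

lemma actC_act : Act (actC : G → Subgroup G → Subgroup G) := by
  refine ⟨?_, ?_, ?_⟩
  · intro Z
    ext x
    rw [mem_actC]
    constructor
    · rintro ⟨z, hz, rfl⟩
      simpa using hz
    · intro hx
      exact ⟨x, hx, by simp⟩
  · intro g h Z
    ext x
    rw [mem_actC, mem_actC]
    constructor
    · rintro ⟨z, hz, rfl⟩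
      exact ⟨h * z * h⁻¹, mem_actC.mpr ⟨z, hz, rfl⟩, by group⟩
    · rintro ⟨y, hy, rfl⟩
      obtain ⟨z, hz, rfl⟩ := mem_actC.mp hy
      exact ⟨z, hz, by group⟩
  · intro g Z Z' h
    exact Subgroup.map_mono h

private lemma actC_closure (g : G) (S : Set G) :
    actC g (Subgroup.closure S) = Subgroup.closure {x | ∃ s ∈ S, x = g * s * g⁻¹} := by
  rw [actC, MonoidHom.map_closure]
  congr 1
  ext x
  constructor
  · rintro ⟨s, hs, rfl⟩
    exact ⟨s, hs, rfl⟩
  · rintro ⟨s, hs, rfl⟩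
    exact ⟨s, hs, rfl⟩

lemma seg_eq (t : G) (S : Set G) (n : ℕ) :
    seg actC t (Subgroup.closure S) (-n) n = cS t S n := by
  apply le_antisymm
  · apply seg_le
    intro i hi hi'
    rw [actC_closure, Subgroup.closure_le]
    rintro x ⟨s, hs, rfl⟩
    exact Subgroup.subset_closure ⟨i, abs_le.mpr ⟨hi, hi'⟩, s, hs, rfl⟩
  · rw [cS, Subgroup.closure_le]
    rintro x ⟨i, hi, s, hs, rfl⟩
    rw [abs_le] at hi
    have h1 : actC (t ^ i) (Subgroup.closure S) ≤ seg actC t (Subgroup.closure S) (-n) n :=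
      le_seg hi.1 hi.2
    apply h1
    rw [actC_closure]
    exact Subgroup.subset_closure ⟨s, hs, rfl⟩

theorem fg_step (N : Subgroup G) [N.Normal] {t u v : G} {q : ℤ} (hq : q ≠ 0)
    (htu : t * u * t⁻¹ * u⁻¹ ∈ N) (htv : t * v * t⁻¹ * v⁻¹ ∈ N)
    (hvu : v * u * v⁻¹ * u⁻¹ * (t ^ q)⁻¹ ∈ N) (hinf : ∀ i : ℤ, t ^ i ∈ N → i = 0)
    (hfg : (N ⊔ Subgroup.zpowers t).FG) : N.FG := by
  classical
  obtain ⟨S, hSf, hSN, hgen⟩ := exists_fin N t hfg
  have hmem : ∀ x ∈ N, ∃ n : ℕ, x ∈ cS t S n := fun x hx => mem_cS N t hinf hSN hgen hx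
  -- finite subsets of `N` lie in one `cS t S n`
  have hfin : ∀ F : Set G, F.Finite → F ⊆ N → ∃ n : ℕ, ∀ x ∈ F, x ∈ cS t S n := by
    intro F hF
    induction F, hF using Set.Finite.induction_on with
    | empty => exact fun _ => ⟨0, by simp⟩
    | @insert a F _ _ ih =>
      intro hN
      obtain ⟨n, hn⟩ := ih fun x hx => hN (Set.mem_insert_of_mem _ hx)
      obtain ⟨m, hm⟩ := hmem a (hN (Set.mem_insert _ _))
      refine ⟨max n m, ?_⟩
      rintro x (rfl | hx)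
      · exact cS_mono t S (le_max_right _ _) hm
      · exact cS_mono t S (le_max_left _ _) (hn x hx)
  have hB : ∀ g : G, ∃ n : ℕ, actC g (Subgroup.closure S) ≤
      seg actC t (Subgroup.closure S) (-n) n := by
    intro g
    obtain ⟨n, hn⟩ := hfin ((fun s => g * s * g⁻¹) '' S) (hSf.image _) (by
      rintro _ ⟨s, hs, rfl⟩
      exact Subgroup.Normal.conj_mem inferInstance s (hSN hs) g)
    refine ⟨n, ?_⟩
    rw [seg_eq, actC_closure, Subgroup.closure_le]
    rintro x ⟨s, hs, rfl⟩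
    exact hn _ ⟨s, hs, rfl⟩
  have hE : ∀ g g' : G, QuotientGroup.mk' N g = QuotientGroup.mk' N g' → ∃ n : ℕ,
      ∀ Z : Subgroup G, actC g Z ≤ actC g' Z ⊔ seg actC t (Subgroup.closure S) (-n) n := by
    intro g g' hgg
    have h1 : g'⁻¹ * g ∈ N := by
      have h2 : (QuotientGroup.mk g' : G ⧸ N) = QuotientGroup.mk g := hgg.symm
      exact QuotientGroup.eq.mp h2
    have h3 : g * g'⁻¹ ∈ N := by
      have := Subgroup.Normal.conj_mem (inferInstance : N.Normal) _ h1 g'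
      have e : g' * (g'⁻¹ * g) * g'⁻¹ = g * g'⁻¹ := by group
      rwa [e] at this
    obtain ⟨n, hn⟩ := hmem _ h3
    refine ⟨n, fun Z => ?_⟩
    rw [seg_eq]
    intro x hx
    obtain ⟨z, hz, rfl⟩ := mem_actC.mp hx
    have e : g * z * g⁻¹ = (g * g'⁻¹) * (g' * z * g'⁻¹) * (g * g'⁻¹)⁻¹ := by group
    rw [e]
    have a1 : g * g'⁻¹ ∈ actC g' Z ⊔ cS t S n := Subgroup.mem_sup_right hn
    have a2 : g' * z * g'⁻¹ ∈ actC g' Z ⊔ cS t S n :=
      Subgroup.mem_sup_left (mem_actC.mpr ⟨z, hz, rfl⟩)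
    exact mul_mem (mul_mem a1 a2) (inv_mem a1)
  have hone : ∀ x ∈ N, QuotientGroup.mk' N x = 1 := fun x hx =>
    (QuotientGroup.eq_one_iff x).mpr hx
  have hcomm : ∀ a b : G, a * b * a⁻¹ * b⁻¹ ∈ N →
      QuotientGroup.mk' N a * QuotientGroup.mk' N b = QuotientGroup.mk' N b * QuotientGroup.mk' N a := by
    intro a b h
    have h1 := hone _ h
    simp only [map_mul, map_inv] at h1
    rw [mul_inv_eq_one, mul_inv_eq_iff_eq_mul] at h1
    exact h1
  have hCU : QuotientGroup.mk' N v * QuotientGroup.mk' N u * (QuotientGroup.mk' N v)⁻¹ *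
      (QuotientGroup.mk' N u)⁻¹ = QuotientGroup.mk' N t ^ q := by
    have h1 := hone _ hvu
    simp only [map_mul, map_inv, map_zpow] at h1
    rw [mul_inv_eq_one] at h1
    exact h1
  obtain ⟨n₀, hn₀⟩ := filt actC_act (QuotientGroup.mk' N) hq hB hE (hcomm t u htu) (hcomm t v htv) hCU
  have hNeq : N = cS t S n₀ := by
    apply le_antisymm
    · intro x hx
      obtain ⟨n, hn⟩ := hmem x hx
      have := hn₀ n
      rw [seg_eq, seg_eq] at this
      exact this hn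
    · exact cS_le t hSN n₀
  rw [hNeq]
  refine (Subgroup.fg_iff _).mpr ⟨{x | ∃ i : ℤ, |i| ≤ n₀ ∧ ∃ s ∈ S, x = t ^ i * s * (t ^ i)⁻¹}, rfl, ?_⟩
  have h1 : {x | ∃ i : ℤ, |i| ≤ n₀ ∧ ∃ s ∈ S, x = t ^ i * s * (t ^ i)⁻¹} ⊆
      (fun p : ℤ × G => t ^ p.1 * p.2 * (t ^ p.1)⁻¹) '' (Set.Icc (-(n₀ : ℤ)) n₀ ×ˢ S) := by
    rintro x ⟨i, hi, s, hs, rfl⟩
    exact ⟨(i, s), ⟨abs_le.mp hi, hs⟩, rfl⟩
  exact (((Set.finite_Icc _ _).prod hSf).image _).subset h1

end Pool.Agent.H26.TG
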