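import Pool.Agent.H26.TG.Seg

/-!
# The growth of the segments stops

Part of `MP_c61994_al`. The main combinatorial step. `hB`: every translate of `B` lies in a segment;
`hE`: two elements of `Γ` with the same image in `Q` act in the same way up to a segment; in `Q` the
images of `T, U, C` form a Heisenberg triple: `T` commutes with `U` and `C`, and `[C, U] = T^q`, `q ≠ 0`.

PROOF. Write `S(a,b)` for the segments. `bdd`: for `A` with `π A` commuting with `π T` take the maximum `m`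
of the numbers from `hB A`, `hE (A T) (T A)`, `hE (A T⁻¹) (T⁻¹ A)` and use `bounded` (enlarge with `seg_mono`).
Let `m` work for `U` and for `U⁻¹`; put `k = 2 m + 1`; let `m'` work for `C^k` and `C^(-k)`; put
`r = 2 m' + 1`. By induction `U^r` and `U^(-r)` map `S(-L, L)` into `S(-(L + r m), L + r m)`. So
`W₁ = C^k U^r C^(-k) U^(-r)` and `W₂ = U^r C^k U^(-r) C^(-k)` map `S(-L, L)` into `S(-(L+c), L+c)`,
`c = 2 r m + 2 m'`. In `Q`: `π W₁ = π T ^ (q k r)` and `π W₂ = π T ^ (-(q k r))` (bilinearity of the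
commutator in a Heisenberg triple: `heis_zpow`). With `hE` there is `h` with
`T^(± q k r) Z ≤ W_j Z ⊔ S(-h, h)` for all `Z`. Let `l = |q| k r`; then `l ≥ (2 m + 1) r = c + 1`. For
`N ≥ h`: `T^(±l) S(-N, N) ≤ S(-(N+c), N+c) ≤ S(-(N+l-1), N+l-1)` (both signs: `q` positive or negative), and
`T^(±(l+N)) B = T^(±l) T^(±N) B` with `T^(±N) B ≤ S(-N, N)`; so
`S(-(N+l), N+l) ≤ S(-(N+l-1), N+l-1)` for all `N ≥ h`. Hence `n₀ = h + l` works (induction).
-/

set_option autoImplicit false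

namespace Pool.Agent.H26.TG

private lemma conj_step {Q : Type*} [Group Q] {t c a : Q} {s : ℤ} (h : t * c = c * t)
    (h' : a⁻¹ * c * a = t ^ s * c) (k : ℤ) : a⁻¹ * c ^ k * a = t ^ (s * k) * c ^ k := by
  have hc : Commute (t ^ s) c := (show Commute t c from h).zpow_left s
  have e1 : (a⁻¹ * c * a) ^ k = a⁻¹ * c ^ k * a := by
    have := conj_zpow (i := k) (a := a⁻¹) (b := c)
    rw [inv_inv] at this
    exact this
  rw [← e1, h', hc.mul_zpow, zpow_mul]

/-- powers in a Heisenberg triple -/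
lemma heis_zpow {Q : Type*} [Group Q] {t u c : Q} {q : ℤ} (h1 : t * u = u * t) (h2 : t * c = c * t)
    (h3 : c * u * c⁻¹ * u⁻¹ = t ^ q) (k r : ℤ) :
    c ^ k * u ^ r * (c ^ k)⁻¹ * (u ^ r)⁻¹ = t ^ (q * k * r) := by
  have hu : Commute t u := h1
  have s1 : (c⁻¹)⁻¹ * u * c⁻¹ = t ^ q * u := by
    rw [inv_inv, ← h3]
    group
  have s2 : (c⁻¹)⁻¹ * u ^ r * c⁻¹ = t ^ (q * r) * u ^ r := conj_step h1 s1 r
  rw [inv_inv] at s2
  have hur : Commute (t ^ (q * r)) (u ^ r) := (hu.zpow_left _).zpow_right _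
  have s3 : (u ^ r)⁻¹ * c * u ^ r = t ^ (q * r) * c := by
    have e : c * u ^ r = t ^ (q * r) * u ^ r * c := by
      rw [← s2]
      group
    rw [mul_assoc, e, hur.eq]
    group
  have s4 := conj_step h2 s3 k
  have hur2 : Commute (t ^ (q * r * k)) (u ^ r) := (hu.zpow_left _).zpow_right _
  have e2 : c ^ k * u ^ r = t ^ (q * r * k) * u ^ r * c ^ k := by
    rw [hur2.eq, mul_assoc, ← s4]
    group
  have e3 : q * k * r = q * r * k := by ring
  rw [e2, e3]
  group

variable {Γ Q L : Type*} [Group Γ] [Group Q] [SemilatticeSup L] [OrderBot L] {act : Γ → L → L}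
  {T : Γ} {B : L}

lemma bdd (h : Act act) (π : Γ →* Q) (hB : ∀ g : Γ, ∃ n : ℕ, act g B ≤ seg act T B (-n) n)
    (hE : ∀ g g' : Γ, π g = π g' → ∃ n : ℕ, ∀ Z : L, act g Z ≤ act g' Z ⊔ seg act T B (-n) n)
    {A : Γ} (hA : π T * π A = π A * π T) :
    ∃ m : ℕ, ∀ a b : ℤ, a ≤ 0 → 0 ≤ b → act A (seg act T B a b) ≤ seg act T B (a - m) (b + m) := by
  obtain ⟨m1, h1⟩ := hB A
  obtain ⟨m2, h2⟩ := hE (A * T) (T * A) (by rw [map_mul, map_mul, hA])
  obtain ⟨m3, h3⟩ := hE (A * T⁻¹) (T⁻¹ * A) (by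
    rw [map_mul, map_mul, map_inv]
    have hc : Commute (π T) (π A) := hA
    exact (hc.inv_left).eq.symm)
  have hm : ∀ n : ℕ, n ≤ max m1 (max m2 m3) →
      seg act T B (-n) n ≤ seg act T B (-((max m1 (max m2 m3) : ℕ) : ℤ)) (max m1 (max m2 m3) : ℕ) := by
    intro n hn
    have hn' : (n : ℤ) ≤ ((max m1 (max m2 m3) : ℕ) : ℤ) := by exact_mod_cast hn
    exact seg_mono (by omega) (by omega)
  refine ⟨max m1 (max m2 m3), fun a b ha hb => bounded h ?_ ?_ ?_ ha hb⟩
  · exact h1.trans (hm m1 (le_max_left _ _))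
  · intro Z
    exact (h2 Z).trans (sup_le_sup_left (hm m2 ((le_max_left _ _).trans (le_max_right _ _))) _)
  · intro Z
    exact (h3 Z).trans (sup_le_sup_left (hm m3 ((le_max_right _ _).trans (le_max_right _ _))) _)

/-- `A` moves the segments by at most `m` -/
private def Bd (act : Γ → L → L) (T : Γ) (B : L) (A : Γ) (m : ℕ) : Prop :=
  ∀ a b : ℤ, a ≤ 0 → 0 ≤ b → act A (seg act T B a b) ≤ seg act T B (a - m) (b + m)

omit [Group Q] in
private lemma Bd.mono {A : Γ} {m m' : ℕ} (hA : Bd act T B A m) (hm : m ≤ m') :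
    Bd act T B A m' := by
  intro a b ha hb
  have hm' : (m : ℤ) ≤ m' := by exact_mod_cast hm
  exact (hA a b ha hb).trans (seg_mono (by omega) (by omega))

private lemma Bd.mul (h : Act act) {A A' : Γ} {m m' : ℕ} (hA : Bd act T B A m)
    (hA' : Bd act T B A' m') : Bd act T B (A * A') (m + m') := by
  intro a b ha hb
  rw [h.mul]
  refine (h.mono _ _ _ (hA' a b ha hb)).trans ((hA (a - m') (b + m') (by omega) (by omega)).trans
    (seg_mono ?_ ?_))
  · push_cast
    omega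
  · push_cast
    omega

private lemma Bd.pow (h : Act act) {A : Γ} {m : ℕ} (hA : Bd act T B A m) (r : ℕ) :
    Bd act T B (A ^ r) (r * m) := by
  induction r with
  | zero =>
    intro a b ha hb
    rw [pow_zero, h.one]
    exact seg_mono (by push_cast; omega) (by push_cast; omega)
  | succ r ih =>
    rw [pow_succ, Nat.succ_mul]
    exact ih.mul h hA

theorem filt (h : Act act) (π : Γ →* Q) {U C : Γ} {q : ℤ} (hq : q ≠ 0)
    (hB : ∀ g : Γ, ∃ n : ℕ, act g B ≤ seg act T B (-n) n)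
    (hE : ∀ g g' : Γ, π g = π g' → ∃ n : ℕ, ∀ Z : L, act g Z ≤ act g' Z ⊔ seg act T B (-n) n)
    (hTU : π T * π U = π U * π T) (hTC : π T * π C = π C * π T)
    (hCU : π C * π U * (π C)⁻¹ * (π U)⁻¹ = π T ^ q) :
    ∃ n₀ : ℕ, ∀ n : ℕ, seg act T B (-n) n ≤ seg act T B (-n₀) n₀ := by
  have cU : Commute (π T) (π U) := hTU
  have cC : Commute (π T) (π C) := hTC
  obtain ⟨m1, h1⟩ := bdd h π hB hE (A := U) hTU
  obtain ⟨m2, h2⟩ := bdd h π hB hE (A := U⁻¹) (by rw [map_inv]; exact cU.inv_right.eq)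
  obtain ⟨m, hm⟩ : ∃ m : ℕ, m = max m1 m2 := ⟨_, rfl⟩
  have bU : Bd act T B U m := Bd.mono (m := m1) h1 (hm ▸ le_max_left _ _)
  have bU' : Bd act T B U⁻¹ m := Bd.mono (m := m2) h2 (hm ▸ le_max_right _ _)
  obtain ⟨k, hk⟩ : ∃ k : ℕ, k = 2 * m + 1 := ⟨_, rfl⟩
  obtain ⟨m3, h3⟩ := bdd h π hB hE (A := C ^ k) (by rw [map_pow]; exact (cC.pow_right k).eq)
  obtain ⟨m4, h4⟩ := bdd h π hB hE (A := (C ^ k)⁻¹)
    (by rw [map_inv, map_pow]; exact (cC.pow_right k).inv_right.eq)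
  obtain ⟨m', hm'⟩ : ∃ m' : ℕ, m' = max m3 m4 := ⟨_, rfl⟩
  have bC : Bd act T B (C ^ k) m' := Bd.mono (m := m3) h3 (hm' ▸ le_max_left _ _)
  have bC' : Bd act T B (C ^ k)⁻¹ m' := Bd.mono (m := m4) h4 (hm' ▸ le_max_right _ _)
  obtain ⟨r, hr⟩ : ∃ r : ℕ, r = 2 * m' + 1 := ⟨_, rfl⟩
  have bUr : Bd act T B (U ^ r) (r * m) := bU.pow h r
  have bUr' : Bd act T B (U ^ r)⁻¹ (r * m) := by
    have := bU'.pow h r
    rw [inv_pow] at this
    exact this
  -- the two commutators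
  have bW1 : Bd act T B (C ^ k * U ^ r * (C ^ k)⁻¹ * (U ^ r)⁻¹) (m' + r * m + m' + r * m) :=
    ((bC.mul h bUr).mul h bC').mul h bUr'
  have bW2 : Bd act T B (U ^ r * C ^ k * (U ^ r)⁻¹ * (C ^ k)⁻¹) (r * m + m' + r * m + m') :=
    ((bUr.mul h bC).mul h bUr').mul h bC'
  have pW1 : π (T ^ (q * k * r)) = π (C ^ k * U ^ r * (C ^ k)⁻¹ * (U ^ r)⁻¹) := by
    have e := heis_zpow hTU hTC hCU (k : ℤ) (r : ℤ)
    rw [zpow_natCast, zpow_natCast] at e
    simp only [map_mul, map_inv, map_pow, map_zpow]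
    exact e.symm
  have pW2 : π (T ^ (-(q * k * r))) = π (U ^ r * C ^ k * (U ^ r)⁻¹ * (C ^ k)⁻¹) := by
    have e : U ^ r * C ^ k * (U ^ r)⁻¹ * (C ^ k)⁻¹ = (C ^ k * U ^ r * (C ^ k)⁻¹ * (U ^ r)⁻¹)⁻¹ := by
      group
    rw [e, map_inv, ← pW1, zpow_neg, map_inv]
  obtain ⟨n1, e1⟩ := hE _ _ pW1
  obtain ⟨n2, e2⟩ := hE _ _ pW2
  obtain ⟨h0, hh0⟩ : ∃ h0 : ℕ, h0 = max n1 n2 := ⟨_, rfl⟩
  obtain ⟨c, hc⟩ : ∃ c : ℕ, c = 2 * (r * m) + 2 * m' := ⟨_, rfl⟩
  obtain ⟨l, hl⟩ : ∃ l : ℕ, l = q.natAbs * k * r := ⟨_, rfl⟩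
  have hcl : c + 1 ≤ l := by
    have hq1 : 1 ≤ q.natAbs := Int.natAbs_pos.2 hq
    have a1 : k * r ≤ l := by
      rw [hl, mul_assoc]
      exact Nat.le_mul_of_pos_left _ hq1
    have a2 : k * r = 2 * (r * m) + r := by
      rw [hk]
      ring
    omega
  have f1 : ∀ N : ℕ, h0 ≤ N → act (T ^ (q * k * r)) (seg act T B (-N) N) ≤
      seg act T B (-(N + c : ℕ)) (N + c : ℕ) := by
    intro N hN
    have hn : n1 ≤ N := (hh0 ▸ le_max_left n1 n2 : n1 ≤ h0).trans hN
    refine (e1 _).trans (sup_le ?_ ?_)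
    · refine (bW1 (-N) N (by omega) (by omega)).trans (seg_mono ?_ ?_)
      · rw [hc]
        push_cast
        linarith
      · rw [hc]
        push_cast
        linarith
    · exact seg_mono (by push_cast; omega) (by push_cast; omega)
  have f2 : ∀ N : ℕ, h0 ≤ N → act (T ^ (-(q * k * r))) (seg act T B (-N) N) ≤
      seg act T B (-(N + c : ℕ)) (N + c : ℕ) := by
    intro N hN
    have hn : n2 ≤ N := (hh0 ▸ le_max_right n1 n2 : n2 ≤ h0).trans hN
    refine (e2 _).trans (sup_le ?_ ?_)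
    · refine (bW2 (-N) N (by omega) (by omega)).trans (seg_mono ?_ ?_)
      · rw [hc]
        push_cast
        linarith
      · rw [hc]
        push_cast
        linarith
    · exact seg_mono (by push_cast; omega) (by push_cast; omega)
  have hlz : (l : ℤ) = q * k * r ∨ (l : ℤ) = -(q * k * r) := by
    rcases Int.natAbs_eq q with h5 | h5
    · left
      rw [hl]
      push_cast
      rw [← Int.natCast_natAbs, ← h5]
    · right
      rw [hl]
      push_cast
      rw [← Int.natCast_natAbs]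
      have h6 : (q.natAbs : ℤ) = -q := by omega
      rw [h6]
      ring
  have g1 : ∀ N : ℕ, h0 ≤ N → act (T ^ (l : ℤ)) (seg act T B (-N) N) ≤
      seg act T B (-(N + c : ℕ)) (N + c : ℕ) := by
    intro N hN
    rcases hlz with h5 | h5
    · rw [h5]
      exact f1 N hN
    · rw [h5]
      exact f2 N hN
  have g2 : ∀ N : ℕ, h0 ≤ N → act (T ^ (-(l : ℤ))) (seg act T B (-N) N) ≤
      seg act T B (-(N + c : ℕ)) (N + c : ℕ) := by
    intro N hN
    rcases hlz with h5 | h5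
    · rw [h5]
      exact f2 N hN
    · rw [h5, neg_neg]
      exact f1 N hN
  -- one step
  have step : ∀ N : ℕ, h0 ≤ N → seg act T B (-(N + l : ℕ)) (N + l : ℕ) ≤
      seg act T B (-(N + l : ℕ) + 1) ((N + l : ℕ) - 1) := by
    intro N hN
    refine seg_le fun i hi1 hi2 => ?_
    by_cases hi3 : i = (N + l : ℕ)
    · have e : act (T ^ i) B = act (T ^ (l : ℤ)) (act (T ^ (N : ℤ)) B) := by
        rw [← h.mul, ← zpow_add, hi3]
        congr 2
        push_cast
        ring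
      rw [e]
      refine (h.mono _ _ _ (le_seg (a := -N) (b := N) (by omega) le_rfl)).trans
        ((g1 N hN).trans (seg_mono ?_ ?_))
      · push_cast
        omega
      · push_cast
        omega
    · by_cases hi4 : i = -(N + l : ℕ)
      · have e : act (T ^ i) B = act (T ^ (-(l : ℤ))) (act (T ^ (-(N : ℤ))) B) := by
          rw [← h.mul, ← zpow_add, hi4]
          congr 2
          push_cast
          ring
        rw [e]
        refine (h.mono _ _ _ (le_seg (a := -N) (b := N) le_rfl (by omega))).trans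
          ((g2 N hN).trans (seg_mono ?_ ?_))
        · push_cast
          omega
        · push_cast
          omega
      · exact le_seg (by omega) (by omega)
  refine ⟨h0 + l, fun n => ?_⟩
  rcases le_total n (h0 + l) with hn | hn
  · have hn' : (n : ℤ) ≤ ((h0 + l : ℕ) : ℤ) := by exact_mod_cast hn
    exact seg_mono (by omega) (by omega)
  · obtain ⟨j, rfl⟩ := Nat.exists_eq_add_of_le hn
    clear hn
    induction j with
    | zero => exact le_rfl
    | succ j ih =>
      have e : h0 + l + (j + 1) = (h0 + (j + 1)) + l := by omega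
      rw [e]
      refine (step (h0 + (j + 1)) (by omega)).trans (le_trans (seg_mono ?_ ?_) ih)
      · push_cast
        omega
      · push_cast
        omega

end Pool.Agent.H26.TG
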