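import Pool.Agent.H26.TG.Chain
import Pool.Agent.H26.TG.Abel

/-!
# The filtration theorem

Part of `MP_c61994_al`. `N 1 ≥ N 2 ≥ ⋯ ≥ N n` with `[N 1, N h] ≤ N (h + 1)`, and for `2 ≤ h < n` the group `N h` is generated by
`N (h + 1)` and finitely many elements `t` which have a power `t ^ q ≡ [v, u]`, `q ≠ 0`, `u, v ∈ N 1`, modulo `N (h + 1)`. Then every
group `D` between `N n` and `N 2` is finitely presented if and only if `N n` is.

PROOF. (`←`) For `h = n, n - 1, …, 2` the group `D ⊓ N h` is finitely presented: `D ⊓ N n = N n`, and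
`D ⊓ N h = (D ⊓ N (h+1)) ⊔ closure ds` (`exists_gens`, the commutators of `N h ≤ N 1` are in `N (h+1)`); `add_list` with
`K = D ⊓ N h`, `N' = E = D ⊓ N (h+1)`. For `h = 2`: `D ⊓ N 2 = D`.
(`→`) For `h = n, …, 2` the group `D ⊔ N h` is finitely presented: `D ⊔ N n = D`, and
`D ⊔ N h = (D ⊔ N (h+1)) ⊔ closure ts`; `add_list` with `K = N 1`, `N' = N (h+1)`, `E = D ⊔ N (h+1)`. For `h = 2`:
`N 2` is finitely presented. Then for `h = 2, …, n` the group `N h` is finitely presented: `remove_list` with `K = N 1`,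
`N' = N (h+1)`, `N h = N' ⊔ closure ts`. (`N (h+1)` is normalised by `N 1`: `x y x⁻¹ = (x y x⁻¹ y⁻¹) y`.)
-/

set_option autoImplicit false

namespace Pool.Agent.H26.TG

variable {M : Type*} [Group M]

theorem filtration (N : ℕ → Subgroup M) {n : ℕ} (hn : 2 ≤ n) (hanti : ∀ h, N (h + 1) ≤ N h)
    (hcomm : ∀ h, 1 ≤ h → ∀ x ∈ N 1, ∀ y ∈ N h, x * y * x⁻¹ * y⁻¹ ∈ N (h + 1))
    (hlay : ∀ h, 2 ≤ h → h < n → ∃ ts : List M, (∀ t ∈ ts, t ∈ N h ∧
      ∃ u ∈ N 1, ∃ v ∈ N 1, ∃ q : ℤ, q ≠ 0 ∧ v * u * v⁻¹ * u⁻¹ * (t ^ q)⁻¹ ∈ N (h + 1)) ∧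
      N h = N (h + 1) ⊔ Subgroup.closure {t | t ∈ ts})
    (D : Subgroup M) (hD1 : N n ≤ D) (hD2 : D ≤ N 2) :
    Group.IsFinitelyPresented ↥D ↔ Group.IsFinitelyPresented ↥(N n) := by
  have hmono : ∀ a b : ℕ, a ≤ b → N b ≤ N a := fun a b hab => antitone_nat_of_succ_le hanti hab
  have hnorm : ∀ h, 1 ≤ h → ∀ x ∈ N 1, ∀ y ∈ N h, x * y * x⁻¹ ∈ N h := by
    intro h hh x hx y hy
    have h1 := (N h).mul_mem (hanti h (hcomm h hh x hx y hy)) hy
    rwa [inv_mul_cancel_right] at h1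
  have hcomm' : ∀ h, 1 ≤ h → ∀ t ∈ N h, ∀ x ∈ N 1, t * x * t⁻¹ * x⁻¹ ∈ N (h + 1) := by
    intro h hh t ht x hx
    have h1 := (N (h + 1)).inv_mem (hcomm h hh x hx t ht)
    have h2 : (x * t * x⁻¹ * t⁻¹)⁻¹ = t * x * t⁻¹ * x⁻¹ := by group
    rwa [h2] at h1
  constructor
  · intro hD
    -- the groups `D ⊔ N h`
    have hQ : ∀ j, j + 2 ≤ n → Group.IsFinitelyPresented ↥(D ⊔ N (n - j)) := by
      intro j
      induction j with
      | zero =>
        intro _
        rw [Nat.sub_zero, sup_eq_left.2 hD1]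
        exact hD
      | succ j ih =>
        intro hj
        have ih' := ih (by omega)
        obtain ⟨h, hh⟩ : ∃ h, h = n - (j + 1) := ⟨_, rfl⟩
        have e1 : n - j = h + 1 := by omega
        rw [e1] at ih'
        rw [← hh]
        obtain ⟨ts, hts, hgen⟩ := hlay h (by omega) (by omega)
        have e2 : D ⊔ N h = (D ⊔ N (h + 1)) ⊔ Subgroup.closure {t | t ∈ ts} := by
          rw [sup_assoc, ← hgen]
        rw [e2]
        refine add_list (K := N 1) (N' := N (h + 1)) (hnorm (h + 1) (by omega)) le_sup_right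
          (sup_le (hD2.trans (hmono 1 2 (by omega))) (hmono 1 (h + 1) (by omega))) ts ?_ ih'
        intro t ht
        exact ⟨hmono 1 h (by omega) (hts t ht).1, hcomm' h (by omega) t (hts t ht).1⟩
    have hN2 : Group.IsFinitelyPresented ↥(N 2) := by
      have h1 := hQ (n - 2) (by omega)
      rwa [show n - (n - 2) = 2 by omega, sup_eq_right.2 hD2] at h1
    have hR : ∀ h, 2 ≤ h → h ≤ n → Group.IsFinitelyPresented ↥(N h) := by
      intro h hh
      induction h, hh using Nat.le_induction with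
      | base => exact fun _ => hN2
      | succ h hh ih =>
        intro hle
        obtain ⟨ts, hts, hgen⟩ := hlay h hh (by omega)
        have ih' := ih (by omega)
        rw [hgen] at ih'
        refine remove_list (K := N 1) (hmono 1 (h + 1) (by omega)) (hnorm (h + 1) (by omega)) ts
          ?_ ih'
        intro t ht
        exact ⟨hmono 1 h (by omega) (hts t ht).1, hcomm' h (by omega) t (hts t ht).1, (hts t ht).2⟩
    exact hR n hn le_rfl
  · intro hNn
    have hP : ∀ j, j + 2 ≤ n → Group.IsFinitelyPresented ↥(D ⊓ N (n - j)) := by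
      intro j
      induction j with
      | zero =>
        intro _
        rw [Nat.sub_zero, inf_eq_right.2 hD1]
        exact hNn
      | succ j ih =>
        intro hj
        have ih' := ih (by omega)
        obtain ⟨h, hh⟩ : ∃ h, h = n - (j + 1) := ⟨_, rfl⟩
        have e1 : n - j = h + 1 := by omega
        rw [e1] at ih'
        rw [← hh]
        obtain ⟨ts, hts, hgen⟩ := hlay h (by omega) (by omega)
        have hab : ∀ x ∈ N h, ∀ y ∈ N h, x * y * x⁻¹ * y⁻¹ ∈ N (h + 1) := fun x hx y hy =>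
          hcomm h (by omega) x (hmono 1 h (by omega) hx) y hy
        obtain ⟨ds, hds, hgen'⟩ := exists_gens (hanti h) ts hgen hab D
        rw [hgen']
        refine add_list (K := D ⊓ N h) (N' := D ⊓ N (h + 1)) ?_ le_rfl
          (inf_le_inf le_rfl (hanti h)) ds ?_ ih'
        · rintro x ⟨hx1, hx2⟩ y ⟨hy1, hy2⟩
          exact ⟨D.mul_mem (D.mul_mem hx1 hy1) (D.inv_mem hx1),
            hnorm (h + 1) (by omega) x (hmono 1 h (by omega) hx2) y hy2⟩
        · intro t ht
          refine ⟨hds t ht, ?_⟩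
          obtain ⟨ht1, ht2⟩ := hds t ht
          rintro x ⟨hx1, hx2⟩
          exact ⟨D.mul_mem (D.mul_mem (D.mul_mem ht1 hx1) (D.inv_mem ht1)) (D.inv_mem hx1),
            hab t ht2 x hx2⟩
    have h1 := hP (n - 2) (by omega)
    rwa [show n - (n - 2) = 2 by omega, inf_eq_left.2 hD2] at h1

end Pool.Agent.H26.TG
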