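import Pool.Agent.H26.TG.Mat

/-!
# Automorphisms which lower the flag by two steps

Part of `MP_c61994_al`. PROOF. Let `i, j` be positions with `j < i + 2`. The class of the generator `gi j` is in `flag g (j + 1)`, so
`of (φ x) * (of x)⁻¹ ∈ flag g (j - 1)` for `x` the generator; this is the class of `φ x * x⁻¹`, and `j - 1 ≤ i`
(`j < i + 2`), so by `co_flag` `co (gi i) (φ x * x⁻¹) = 0`, that is `Amat φ i j - 1 i j = 0`
(`co_mul`, `co_inv`, `co_of`; `gi i = gi j ↔ i = j` by `pos_gi`). So `Low 2 (Aout g (cls φ) - 1)`; `mem_lev_of_low`.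
-/

set_option autoImplicit false

namespace Pool.Agent.H26.TG

variable {g : ℕ}

theorem flag_lev {φ : MulAut (SG g)}
    (h : ∀ (k : ℕ) (x : SG g), Abelianization.of x ∈ flag g k →
      Abelianization.of (φ x) * (Abelianization.of x)⁻¹ ∈ flag g (k - 2)) :
    cls φ ∈ lev (Aout g) 2 := by
  apply mem_lev_of_low (by norm_num)
  rw [Aout_cls]
  intro i j hij
  unfold ent
  split_ifs with hb
  · rw [Matrix.sub_apply, Matrix.one_apply, Amat_apply]
    have hx : Abelianization.of (PresentedGroup.of (gi ⟨j, hb.2⟩) : SG g) ∈ flag g (j + 1) :=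
      Subgroup.subset_closure ⟨⟨j, hb.2⟩, Nat.lt_succ_self j, rfl⟩
    have h1 := h (j + 1) _ hx
    rw [← map_inv, ← map_mul] at h1
    have h2 := co_flag h1 (j := ⟨i, hb.1⟩) (by
      change j + 1 - 2 ≤ i
      omega)
    rw [co_mul, co_inv, co_of] at h2
    have h3 : (gi (⟨j, hb.2⟩ : Fin (2 * g)) = gi ⟨i, hb.1⟩) ↔
        ((⟨i, hb.1⟩ : Fin (2 * g)) = ⟨j, hb.2⟩) := by
      constructor
      · intro h4
        rw [← pos_gi (⟨i, hb.1⟩ : Fin (2 * g)), ← h4, pos_gi]
      · intro h4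
        rw [h4]
    simp only [h3] at h2
    rw [sub_eq_add_neg]
    exact h2
  · rfl

end Pool.Agent.H26.TG
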