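import Pool.Agent.H26.TG.Chi

/-!
# The matrix of an automorphism on homology

Part of `MP_c61994_al`. `Amat φ i j` is the coordinate at the position `i` of `φ` of the generator at the position `j`.

* `co_map`: `fun_co` for `x ↦ co p (φ x)`.
* `Amat`: `map_one'` from `co_of` (`gi` injective, by `pos_gi`), `map_mul'` from `co_map` for `φ` at `x = ψ (gen)`, and the sum over `Gen g`
  reindexed to a sum over `Fin (2 g)` by the bijection `gi` / `pos` (`sum_gi`).
* `Amat_inner`: `co p (x y x⁻¹) = co p y`; the normal closure of the inner automorphisms is in the kernel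
  (`Subgroup.normalClosure_le_normal`).
* `Aout_cls`: `rfl` or `QuotientGroup.lift_mk`.
* `Amat_one_iff`: (`→`) for all `p` and `x`: `co p (φ x) = co p x` by `co_map`, then `of_eq`; (`←`) `co_eq_of`.
* `torelli_eq`: every outer class is `cls φ` (`QuotientGroup.mk'_surjective`); `lev_top`; the set of the `φ` acting trivially is
  a subgroup, the kernel of `Amat`.
-/

set_option autoImplicit false

namespace Pool.Agent.H26.TG

variable {g : ℕ}

lemma sum_gi (f : Gen g → ℤ) : ∑ j : Fin (2 * g), f (gi j) = ∑ q : Gen g, f q :=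
  Fintype.sum_bijective gi (Function.bijective_iff_has_inverse.2 ⟨pos, pos_gi, gi_pos⟩) _ _
    (fun _ => rfl)

lemma co_map (φ : MulAut (SG g)) (p : Gen g) (x : SG g) :
    co p (φ x) = ∑ q : Gen g, co p (φ (PresentedGroup.of q)) * co q x :=
  fun_co (fun x => co p (φ x)) (fun x y => by rw [map_mul, co_mul]) x

private lemma mat_gi_inj {i j : Fin (2 * g)} (h : gi i = gi j) : i = j := by
  rw [← pos_gi i, h, pos_gi]

/-- the matrix on homology -/
def Amat (g : ℕ) : MulAut (SG g) →* Matrix (Fin (2 * g)) (Fin (2 * g)) ℤ where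
  toFun φ := fun i j => co (gi i) (φ (PresentedGroup.of (gi j)))
  map_one' := by
    ext i j
    rw [MulAut.one_apply, co_of, Matrix.one_apply]
    by_cases h : i = j
    · rw [if_pos h, if_pos (by rw [h])]
    · rw [if_neg h, if_neg (fun h' => h (mat_gi_inj h').symm)]
  map_mul' := by
    intro φ ψ
    ext i j
    change co (gi i) (φ (ψ (PresentedGroup.of (gi j)))) =
      ∑ k : Fin (2 * g), co (gi i) (φ (PresentedGroup.of (gi k))) *
        co (gi k) (ψ (PresentedGroup.of (gi j)))
    rw [co_map, ← sum_gi (fun q => co (gi i) (φ (PresentedGroup.of q)) *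
        co q (ψ (PresentedGroup.of (gi j))))]

lemma Amat_apply (φ : MulAut (SG g)) (i j : Fin (2 * g)) :
    Amat g φ i j = co (gi i) (φ (PresentedGroup.of (gi j))) := rfl

lemma Amat_inner : Subgroup.normalClosure (Set.range (MulAut.conj : SG g →* MulAut (SG g))) ≤
    (Amat g).ker := by
  apply Subgroup.normalClosure_le_normal
  rintro _ ⟨x, rfl⟩
  rw [SetLike.mem_coe, MonoidHom.mem_ker, ← (Amat g).map_one]
  ext i j
  rw [Amat_apply, Amat_apply, MulAut.conj_apply, MulAut.one_apply, co_mul, co_mul, co_inv]
  ring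

/-- the matrix of an outer automorphism -/
def Aout (g : ℕ) : OutG (SG g) →* Matrix (Fin (2 * g)) (Fin (2 * g)) ℤ :=
  QuotientGroup.lift _ (Amat g) Amat_inner

lemma Aout_cls (φ : MulAut (SG g)) : Aout g (cls φ) = Amat g φ := rfl

lemma Amat_one_iff (φ : MulAut (SG g)) :
    Amat g φ = 1 ↔ ∀ x : SG g, Abelianization.of (φ x) = Abelianization.of x := by
  constructor
  · intro h x
    apply of_eq
    intro p
    have h1 : ∀ q : Gen g, co p (φ (PresentedGroup.of q)) =
        co p ((1 : MulAut (SG g)) (PresentedGroup.of q)) := by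
      intro q
      have h2 : Amat g φ (pos p) (pos q) = Amat g 1 (pos p) (pos q) := by
        rw [h, (Amat g).map_one]
      rw [Amat_apply, Amat_apply, gi_pos, gi_pos] at h2
      exact h2
    have h3 := co_map φ p x
    have h4 := co_map 1 p x
    rw [MulAut.one_apply] at h4
    rw [h3, h4]
    exact Finset.sum_congr rfl fun q _ => by rw [h1 q]
  · intro h
    rw [← (Amat g).map_one]
    ext i j
    rw [Amat_apply, Amat_apply, MulAut.one_apply]
    exact co_eq_of (h _) _

theorem torelli_eq (g : ℕ) : torelli (SG g) = lev (Aout g) (2 * g) := by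
  have hS : Subgroup.closure
      {φ : MulAut (SG g) | ∀ x : SG g, Abelianization.of (φ x) = Abelianization.of x} =
      (Amat g).ker := by
    apply le_antisymm
    · rw [Subgroup.closure_le]
      intro φ hφ
      exact (Amat_one_iff φ).2 hφ
    · intro φ hφ
      exact Subgroup.subset_closure ((Amat_one_iff φ).1 hφ)
  unfold torelli
  rw [hS]
  ext c
  rw [lev_top le_rfl, Subgroup.mem_map]
  constructor
  · rintro ⟨φ, hφ, rfl⟩
    rw [Aout_cls]
    exact hφ
  · intro h
    obtain ⟨φ, hφ⟩ := QuotientGroup.mk'_surjective _ c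
    refine ⟨φ, ?_, hφ⟩
    have h1 : Aout g (cls φ) = 1 := by
      have : cls φ = c := hφ
      rw [this, h]
    rw [Aout_cls] at h1
    exact h1

end Pool.Agent.H26.TG
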