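import Pool.Agent.H26.TG.HBil
import Pool.Agent.H26.TG.Mat

/-!
# The matrices on homology are symplectic up to a factor

Part of `MP_c61994_al`. PROOF. Let `W p q = ∑ i, (co p (φ a_i) * co q (φ b_i) - co p (φ b_i) * co q (φ a_i))`; it is
antisymmetric. `form_rel` for the matrix `B` with the only entry `1` at `(p, q)` gives `W p q = 0` unless `{p, q} = {a_i, b_i}` for
some `i`; for `B` with `1` at `(a_i, b_i)` and `-1` at `(a_j, b_j)` it gives `W a_i b_i = W a_j b_j` (all equal to some `c'`; if `g = 0`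
there is nothing to prove). The entry `(k, l)` of `Amat φ * Jm * (Amat φ)ᵀ` is
`∑ m, A k m * sgn m * A l m'`, `m' = 2 g - 1 - m`; splitting `m < g` (generator `b_m`, `m'` is the position of `a_m`) and `m ≥ g`
(generator `a_i`, `i = 2 g - 1 - m`, `m'` the position of `b_i`) it is `∑ i, (A k (b_i) A l (a_i) - A k (a_i) A l (b_i))
= -W (gi k) (gi l)`. And `Jm g k l = 1` if `gi k = b_i`, `gi l = a_i`, `-1` if `gi k = a_i`, `gi l = b_i`, else `0`.
So the matrix is `c' • Jm g`.
-/

set_option autoImplicit false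

namespace Pool.Agent.H26.TG

variable {g : ℕ}

/-- the form on the images -/
def Wf (φ : MulAut (SG g)) (p q : Gen g) : ℤ :=
  ∑ i : Fin g, (co p (φ (PresentedGroup.of (Sum.inl i))) * co q (φ (PresentedGroup.of (Sum.inr i))) -
    co p (φ (PresentedGroup.of (Sum.inr i))) * co q (φ (PresentedGroup.of (Sum.inl i))))

private lemma fm_bl (B : Matrix (Gen g) (Gen g) ℤ) (v w : Gen g → ℤ) :
    bl B v w = ∑ p, ∑ q, B p q * (v p * w q) := by
  unfold bl
  refine Finset.sum_congr rfl fun p _ => Finset.sum_congr rfl fun q _ => ?_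
  ring

private lemma fm_sum (φ : MulAut (SG g)) (B : Matrix (Gen g) (Gen g) ℤ) :
    ∑ i : Fin g, (bl B (fun p => co p (φ (PresentedGroup.of (Sum.inl i))))
        (fun p => co p (φ (PresentedGroup.of (Sum.inr i)))) -
      bl B (fun p => co p (φ (PresentedGroup.of (Sum.inr i))))
        (fun p => co p (φ (PresentedGroup.of (Sum.inl i))))) =
      ∑ p, ∑ q, B p q * Wf φ p q := by
  have h1 : ∀ p q : Gen g, B p q * Wf φ p q = ∑ i : Fin g,
      (B p q * (co p (φ (PresentedGroup.of (Sum.inl i))) * co q (φ (PresentedGroup.of (Sum.inr i)))) -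
      B p q * (co p (φ (PresentedGroup.of (Sum.inr i))) * co q (φ (PresentedGroup.of (Sum.inl i))))) := by
    intro p q
    unfold Wf
    rw [Finset.mul_sum]
    refine Finset.sum_congr rfl fun i _ => ?_
    ring
  simp only [h1]
  rw [Finset.sum_congr rfl (fun p _ => Finset.sum_comm), Finset.sum_comm]
  refine Finset.sum_congr rfl fun i _ => ?_
  rw [fm_bl, fm_bl, ← Finset.sum_sub_distrib]
  refine Finset.sum_congr rfl fun p _ => ?_
  rw [← Finset.sum_sub_distrib]

private lemma fm_rel (φ : MulAut (SG g)) (B : Matrix (Gen g) (Gen g) ℤ)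
    (hB : ∑ i : Fin g, (B (Sum.inl i) (Sum.inr i) - B (Sum.inr i) (Sum.inl i)) = 0) :
    ∑ p, ∑ q, B p q * Wf φ p q = 0 := by
  rw [← fm_sum]
  exact form_rel hB φ

private lemma fm_single (φ : MulAut (SG g)) (p q : Gen g) :
    ∑ p', ∑ q', (if p' = p ∧ q' = q then (1 : ℤ) else 0) * Wf φ p' q' = Wf φ p q := by
  rw [Finset.sum_eq_single_of_mem p (Finset.mem_univ _),
    Finset.sum_eq_single_of_mem q (Finset.mem_univ _)]
  · rw [if_pos ⟨rfl, rfl⟩, one_mul]
  · intro q' _ h
    rw [if_neg (fun h1 => h h1.2), zero_mul]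
  · intro p' _ h
    refine Finset.sum_eq_zero fun q' _ => ?_
    rw [if_neg (fun h1 => h h1.1), zero_mul]

lemma Wf_zero (φ : MulAut (SG g)) {p q : Gen g}
    (h : ∀ i : Fin g, ¬ (p = Sum.inl i ∧ q = Sum.inr i) ∧ ¬ (p = Sum.inr i ∧ q = Sum.inl i)) :
    Wf φ p q = 0 := by
  rw [← fm_single φ p q]
  refine fm_rel φ (fun p' q' => if p' = p ∧ q' = q then (1 : ℤ) else 0) ?_
  refine Finset.sum_eq_zero fun i _ => ?_
  have h1 : ¬ ((Sum.inl i : Gen g) = p ∧ (Sum.inr i : Gen g) = q) :=
    fun h2 => (h i).1 ⟨h2.1.symm, h2.2.symm⟩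
  have h2 : ¬ ((Sum.inr i : Gen g) = p ∧ (Sum.inl i : Gen g) = q) :=
    fun h2 => (h i).2 ⟨h2.1.symm, h2.2.symm⟩
  rw [if_neg h1, if_neg h2, sub_zero]

lemma Wf_eq (φ : MulAut (SG g)) (i j : Fin g) :
    Wf φ (Sum.inl i) (Sum.inr i) = Wf φ (Sum.inl j) (Sum.inr j) := by
  have h := fm_rel φ (fun p' q' =>
    (if p' = Sum.inl i ∧ q' = Sum.inr i then (1 : ℤ) else 0) -
    (if p' = Sum.inl j ∧ q' = Sum.inr j then (1 : ℤ) else 0)) ?_
  · have h1 : ∀ p' q' : Gen g, ((if p' = Sum.inl i ∧ q' = Sum.inr i then (1 : ℤ) else 0) -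
        (if p' = Sum.inl j ∧ q' = Sum.inr j then (1 : ℤ) else 0)) * Wf φ p' q' =
        (if p' = Sum.inl i ∧ q' = Sum.inr i then (1 : ℤ) else 0) * Wf φ p' q' -
        (if p' = Sum.inl j ∧ q' = Sum.inr j then (1 : ℤ) else 0) * Wf φ p' q' :=
      fun p' q' => sub_mul _ _ _
    simp only [h1, Finset.sum_sub_distrib] at h
    rw [fm_single φ (Sum.inl i) (Sum.inr i), fm_single φ (Sum.inl j) (Sum.inr j)] at h
    exact sub_eq_zero.1 h
  · have h2 : ∀ k : Fin g, (((if (Sum.inl k : Gen g) = Sum.inl i ∧ (Sum.inr k : Gen g) = Sum.inr i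
        then (1 : ℤ) else 0) -
        (if (Sum.inl k : Gen g) = Sum.inl j ∧ (Sum.inr k : Gen g) = Sum.inr j then (1 : ℤ) else 0)) -
        ((if (Sum.inr k : Gen g) = Sum.inl i ∧ (Sum.inl k : Gen g) = Sum.inr i
        then (1 : ℤ) else 0) -
        (if (Sum.inr k : Gen g) = Sum.inl j ∧ (Sum.inl k : Gen g) = Sum.inr j
        then (1 : ℤ) else 0))) =
        (if k = i then (1 : ℤ) else 0) - (if k = j then (1 : ℤ) else 0) := by
      intro k
      simp
    rw [Finset.sum_congr rfl (fun k _ => h2 k), Finset.sum_sub_distrib]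
    simp

private lemma fm_anti (φ : MulAut (SG g)) (p q : Gen g) : Wf φ p q = -Wf φ q p := by
  unfold Wf
  rw [← Finset.sum_neg_distrib]
  refine Finset.sum_congr rfl fun i _ => ?_
  ring

private lemma fm_J1 (i j : Fin g) : Jm g (pos (Sum.inl i)) (pos (Sum.inr j)) =
    if i = j then -1 else 0 := by
  unfold Jm sgn pos
  simp only [Fin.ext_iff]
  have hi := i.2
  have hj := j.2
  have h2 : ¬ (2 * g - 1 - (i : ℕ) < g) := by omega
  rw [if_neg h2]
  by_cases h : (i : ℕ) = j
  · rw [if_pos h, if_pos (by omega)]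
  · rw [if_neg h, if_neg (by omega)]

private lemma fm_J2 (i j : Fin g) : Jm g (pos (Sum.inr i)) (pos (Sum.inl j)) =
    if i = j then 1 else 0 := by
  unfold Jm sgn pos
  simp only [Fin.ext_iff]
  have hi := i.2
  have hj := j.2
  rw [if_pos hi]
  by_cases h : (i : ℕ) = j
  · rw [if_pos h, if_pos (by omega)]
  · rw [if_neg h, if_neg (by omega)]

private lemma fm_J3 (i j : Fin g) : Jm g (pos (Sum.inl i)) (pos (Sum.inl j)) = 0 := by
  unfold Jm pos
  have hi := i.2
  have hj := j.2
  rw [if_neg]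
  simp only
  omega

private lemma fm_J4 (i j : Fin g) : Jm g (pos (Sum.inr i)) (pos (Sum.inr j)) = 0 := by
  unfold Jm pos
  have hi := i.2
  have hj := j.2
  rw [if_neg]
  simp only
  omega

lemma Amat_form (φ : MulAut (SG g)) (k l : Fin (2 * g)) :
    (Amat g φ * Jm g * (Amat g φ).transpose) k l = -Wf φ (gi k) (gi l) := by
  have h1 : (Amat g φ * Jm g * (Amat g φ).transpose) k l =
      ∑ m, ∑ m', co (gi k) (φ (PresentedGroup.of (gi m))) * Jm g (pos (gi m)) (pos (gi m')) *
        co (gi l) (φ (PresentedGroup.of (gi m'))) := by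
    rw [Matrix.mul_apply, Finset.sum_comm]
    refine Finset.sum_congr rfl fun m' _ => ?_
    rw [Matrix.mul_apply, Finset.sum_mul]
    refine Finset.sum_congr rfl fun m _ => ?_
    rw [Matrix.transpose_apply, Amat_apply, Amat_apply, pos_gi, pos_gi]
  rw [h1]
  have h2 : ∀ m : Fin (2 * g), (∑ m', co (gi k) (φ (PresentedGroup.of (gi m))) *
      Jm g (pos (gi m)) (pos (gi m')) * co (gi l) (φ (PresentedGroup.of (gi m')))) =
      ∑ q : Gen g, co (gi k) (φ (PresentedGroup.of (gi m))) * Jm g (pos (gi m)) (pos q) *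
        co (gi l) (φ (PresentedGroup.of q)) := fun m =>
    sum_gi (fun q => co (gi k) (φ (PresentedGroup.of (gi m))) * Jm g (pos (gi m)) (pos q) *
        co (gi l) (φ (PresentedGroup.of q)))
  rw [Finset.sum_congr rfl (fun m _ => h2 m),
    sum_gi (fun p => ∑ q : Gen g, co (gi k) (φ (PresentedGroup.of p)) * Jm g (pos p) (pos q) *
        co (gi l) (φ (PresentedGroup.of q)))]
  rw [Fintype.sum_sum_type]
  have h3 : ∀ i : Fin g, ∑ q : Gen g, co (gi k) (φ (PresentedGroup.of (Sum.inl i))) *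
      Jm g (pos (Sum.inl i)) (pos q) * co (gi l) (φ (PresentedGroup.of q)) =
      -(co (gi k) (φ (PresentedGroup.of (Sum.inl i))) *
        co (gi l) (φ (PresentedGroup.of (Sum.inr i)))) := by
    intro i
    rw [Fintype.sum_sum_type]
    simp only [fm_J1, fm_J3]
    simp
  have h4 : ∀ i : Fin g, ∑ q : Gen g, co (gi k) (φ (PresentedGroup.of (Sum.inr i))) *
      Jm g (pos (Sum.inr i)) (pos q) * co (gi l) (φ (PresentedGroup.of q)) =
      co (gi k) (φ (PresentedGroup.of (Sum.inr i))) *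
        co (gi l) (φ (PresentedGroup.of (Sum.inl i))) := by
    intro i
    rw [Fintype.sum_sum_type]
    simp only [fm_J2, fm_J4]
    simp
  rw [Finset.sum_congr rfl (fun i _ => h3 i), Finset.sum_congr rfl (fun i _ => h4 i)]
  unfold Wf
  rw [Finset.sum_sub_distrib, Finset.sum_neg_distrib]
  ring

theorem Aout_symp (f : OutG (SG g)) :
    ∃ c : ℤ, Aout g f * Jm g * (Aout g f).transpose = c • Jm g := by
  obtain ⟨φ, rfl⟩ : ∃ φ : MulAut (SG g), cls φ = f := QuotientGroup.mk'_surjective _ f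
  rw [Aout_cls]
  rcases Nat.eq_zero_or_pos g with hg | hg
  · subst hg
    exact ⟨0, by ext k l; exact k.elim0⟩
  · refine ⟨Wf φ (Sum.inl ⟨0, hg⟩) (Sum.inr ⟨0, hg⟩), ?_⟩
    ext k l
    rw [Amat_form, Matrix.smul_apply, smul_eq_mul]
    have hk := pos_gi k
    have hl := pos_gi l
    generalize gi k = p at hk ⊢
    generalize gi l = q at hl ⊢
    subst hk
    subst hl
    rcases p with i | i <;> rcases q with j | j
    · rw [fm_J3, mul_zero, Wf_zero φ (fun i => ⟨fun h => by simp at h, fun h => by simp at h⟩),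
        neg_zero]
    · rw [fm_J1]
      by_cases h : i = j
      · subst h
        rw [if_pos rfl, Wf_eq φ i ⟨0, hg⟩]
        ring
      · rw [if_neg h, mul_zero, Wf_zero φ, neg_zero]
        intro i'
        constructor
        · rintro ⟨h1, h2⟩
          apply h
          rw [Sum.inl.inj h1, Sum.inr.inj h2]
        · rintro ⟨h1, h2⟩
          simp at h1
    · rw [fm_J2]
      by_cases h : i = j
      · subst h
        rw [if_pos rfl, fm_anti, Wf_eq φ i ⟨0, hg⟩]
        ring
      · rw [if_neg h, mul_zero, Wf_zero φ, neg_zero]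
        intro i'
        constructor
        · rintro ⟨h1, h2⟩
          simp at h1
        · rintro ⟨h1, h2⟩
          apply h
          rw [Sum.inr.inj h1, Sum.inl.inj h2]
    · rw [fm_J4, mul_zero, Wf_zero φ (fun i => ⟨fun h => by simp at h, fun h => by simp at h⟩),
        neg_zero]

end Pool.Agent.H26.TG
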