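import Pool.Agent.H26.TG.Chi

/-!
# A Heisenberg type group and the relation it gives

Part of `MP_c61994_al`. `HB B` is the set of pairs `(v, s)`, `v : ι → ℤ`, `s : ℤ`, with
`(v, s) (w, t) = (v + w, s + t + v · B w)`.

* group axioms: bilinearity (`Matrix.mulVec_add`, `Matrix.add_dotProduct`, ...); the inverse is `(-v, -s + v · B v)`.
* `HB.comm`: `x y x⁻¹ y⁻¹ = (0, x.v · B y.v - y.v · B x.v)`.
* `HB.prod_central`: induction on the list.
* `hom_rel`: apply `ψ` to `sg_rel`.
* `exists_hom`: `PresentedGroup.toGroup` with `p ↦ (Pi.single p 1, 0)`; the relator goes to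
  `(0, ∑ i, (B (a_i) (b_i) - B (b_i) (a_i))) = 1` (`relator_lift`).
* `form_rel`: let `ψ` be as in `exists_hom`; `(ψ x).v p = co p x` for all `x` (`fun_co` for `x ↦ (ψ x).v p`, `co_of`); apply
  `hom_rel` to `ψ.comp φ`.
-/

set_option autoImplicit false

namespace Pool.Agent.H26.TG

/-- Heisenberg type group of a bilinear form -/
@[ext]
structure HB {ι : Type} [Fintype ι] (B : Matrix ι ι ℤ) where
  v : ι → ℤ
  s : ℤ

section
variable {ι : Type} [Fintype ι] {B : Matrix ι ι ℤ}

/-- the bilinear form -/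
def bl (B : Matrix ι ι ℤ) (v w : ι → ℤ) : ℤ := ∑ p, ∑ q, v p * B p q * w q

lemma bl_add_left (v v' w : ι → ℤ) : bl B (v + v') w = bl B v w + bl B v' w := by
  simp only [bl, Pi.add_apply, add_mul, Finset.sum_add_distrib]

lemma bl_add_right (v w w' : ι → ℤ) : bl B v (w + w') = bl B v w + bl B v w' := by
  simp only [bl, Pi.add_apply, mul_add, Finset.sum_add_distrib]

lemma bl_zero_left (w : ι → ℤ) : bl B 0 w = 0 := by
  simp only [bl, Pi.zero_apply, zero_mul, Finset.sum_const_zero]

lemma bl_zero_right (v : ι → ℤ) : bl B v 0 = 0 := by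
  simp only [bl, Pi.zero_apply, mul_zero, Finset.sum_const_zero]

lemma bl_neg_left (v w : ι → ℤ) : bl B (-v) w = -bl B v w := by
  simp only [bl, Pi.neg_apply, neg_mul, Finset.sum_neg_distrib]

private lemma bl_neg_right (v w : ι → ℤ) : bl B v (-w) = -bl B v w := by
  simp only [bl, Pi.neg_apply, mul_neg, Finset.sum_neg_distrib]

instance : Group (HB B) where
  mul x y := ⟨x.v + y.v, x.s + y.s + bl B x.v y.v⟩
  one := ⟨0, 0⟩
  inv x := ⟨-x.v, -x.s + bl B x.v x.v⟩
  mul_assoc := by
    intro x y z
    apply HB.ext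
    · change x.v + y.v + z.v = x.v + (y.v + z.v)
      exact add_assoc _ _ _
    · change x.s + y.s + bl B x.v y.v + z.s + bl B (x.v + y.v) z.v =
        x.s + (y.s + z.s + bl B y.v z.v) + bl B x.v (y.v + z.v)
      rw [bl_add_left, bl_add_right]
      ring
  one_mul := by
    intro x
    apply HB.ext
    · change 0 + x.v = x.v
      exact zero_add _
    · change 0 + x.s + bl B 0 x.v = x.s
      rw [bl_zero_left]
      ring
  mul_one := by
    intro x
    apply HB.ext
    · change x.v + 0 = x.v
      exact add_zero _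
    · change x.s + 0 + bl B x.v 0 = x.s
      rw [bl_zero_right]
      ring
  inv_mul_cancel := by
    intro x
    apply HB.ext
    · change -x.v + x.v = 0
      exact neg_add_cancel _
    · change -x.s + bl B x.v x.v + x.s + bl B (-x.v) x.v = 0
      rw [bl_neg_left]
      ring

lemma HB.mul_v (x y : HB B) : (x * y).v = x.v + y.v := rfl

lemma HB.mul_s (x y : HB B) : (x * y).s = x.s + y.s + bl B x.v y.v := rfl

lemma HB.comm (x y : HB B) : x * y * x⁻¹ * y⁻¹ = ⟨0, bl B x.v y.v - bl B y.v x.v⟩ := by
  apply HB.ext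
  · change x.v + y.v + -x.v + -y.v = 0
    abel
  · change x.s + y.s + bl B x.v y.v + (-x.s + bl B x.v x.v) + bl B (x.v + y.v) (-x.v) +
      (-y.s + bl B y.v y.v) + bl B (x.v + y.v + -x.v) (-y.v) = bl B x.v y.v - bl B y.v x.v
    simp only [bl_add_left, bl_neg_left, bl_neg_right]
    ring

lemma HB.prod_central (l : List ℤ) :
    (l.map fun s => (⟨0, s⟩ : HB B)).prod = ⟨0, l.sum⟩ := by
  induction l with
  | nil => rfl
  | cons a l ih =>
    rw [List.map_cons, List.prod_cons, ih, List.sum_cons]
    apply HB.ext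
    · change (0 : ι → ℤ) + 0 = 0
      exact add_zero _
    · change a + l.sum + bl B 0 0 = a + l.sum
      rw [bl_zero_left]
      ring

end

variable {g : ℕ} {B : Matrix (Gen g) (Gen g) ℤ}

private lemma hb_sum (c : Fin g → HB B) (d : Fin g → HB B) :
    ((List.finRange g).map fun i => c i * d i * (c i)⁻¹ * (d i)⁻¹).prod =
      ⟨0, ∑ i : Fin g, (bl B (c i).v (d i).v - bl B (d i).v (c i).v)⟩ := by
  have h : ((List.finRange g).map fun i => c i * d i * (c i)⁻¹ * (d i)⁻¹) =
      (((List.finRange g).map fun i => bl B (c i).v (d i).v - bl B (d i).v (c i).v).map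
        fun s => (⟨0, s⟩ : HB B)) := by
    rw [List.map_map]
    apply List.map_congr_left
    intro i _
    exact HB.comm (c i) (d i)
  rw [h, HB.prod_central, ← Fin.sum_univ_def]

lemma hom_rel (ψ : SG g →* HB B) :
    ∑ i : Fin g, (bl B (ψ (PresentedGroup.of (Sum.inl i))).v (ψ (PresentedGroup.of (Sum.inr i))).v -
      bl B (ψ (PresentedGroup.of (Sum.inr i))).v (ψ (PresentedGroup.of (Sum.inl i))).v) = 0 := by
  have h := congrArg ψ (sg_rel g)
  rw [map_one, map_list_prod, List.map_map] at h
  have h2 : ((List.finRange g).map (ψ ∘ fun i : Fin g =>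
      (PresentedGroup.of (Sum.inl i) : SG g) * PresentedGroup.of (Sum.inr i) *
        (PresentedGroup.of (Sum.inl i))⁻¹ * (PresentedGroup.of (Sum.inr i))⁻¹)) =
      ((List.finRange g).map fun i => ψ (PresentedGroup.of (Sum.inl i)) *
        ψ (PresentedGroup.of (Sum.inr i)) * (ψ (PresentedGroup.of (Sum.inl i)))⁻¹ *
        (ψ (PresentedGroup.of (Sum.inr i)))⁻¹) := by
    apply List.map_congr_left
    intro i _
    simp only [Function.comp, map_mul, map_inv]
  rw [h2, hb_sum] at h
  exact congrArg HB.s h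

lemma exists_hom (hB : ∑ i : Fin g, (B (Sum.inl i) (Sum.inr i) - B (Sum.inr i) (Sum.inl i)) = 0) :
    ∃ ψ : SG g →* HB B, ∀ p, (ψ (PresentedGroup.of p)).v = fun q => if p = q then 1 else 0 := by
  have hbl : ∀ p q : Gen g, bl B (fun r => if p = r then 1 else 0)
      (fun r => if q = r then 1 else 0) = B p q := by
    intro p q
    unfold bl
    rw [Finset.sum_eq_single p, Finset.sum_eq_single q]
    · simp
    · intro r _ hr
      have h0 : (if q = r then (1 : ℤ) else 0) = 0 := if_neg (Ne.symm hr)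
      simp only [h0, mul_zero]
    · intro h
      exact absurd (Finset.mem_univ _) h
    · intro r _ hr
      apply Finset.sum_eq_zero
      intro r' _
      have h0 : (if p = r then (1 : ℤ) else 0) = 0 := if_neg (Ne.symm hr)
      simp only [h0, zero_mul]
    · intro h
      exact absurd (Finset.mem_univ _) h
  have hrel : ∀ r ∈ ({relator g} : Set (FreeGroup (Fin g ⊕ Fin g))),
      FreeGroup.lift (fun p : Gen g => (⟨fun q => if p = q then 1 else 0, 0⟩ : HB B)) r = 1 := by
    intro r hr
    rw [Set.mem_singleton_iff.1 hr, relator_lift, hb_sum]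
    have : ∑ i : Fin g, (bl B (fun q => if (Sum.inl i : Gen g) = q then 1 else 0)
        (fun q => if (Sum.inr i : Gen g) = q then 1 else 0) -
        bl B (fun q => if (Sum.inr i : Gen g) = q then 1 else 0)
        (fun q => if (Sum.inl i : Gen g) = q then 1 else 0)) = 0 := by
      refine Eq.trans ?_ hB
      apply Finset.sum_congr rfl
      intro i _
      rw [hbl, hbl]
    rw [this]
    rfl
  refine ⟨PresentedGroup.toGroup hrel, ?_⟩
  intro p
  rw [PresentedGroup.toGroup.of]

theorem form_rel (hB : ∑ i : Fin g, (B (Sum.inl i) (Sum.inr i) - B (Sum.inr i) (Sum.inl i)) = 0)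
    (φ : MulAut (SG g)) :
    ∑ i : Fin g, (bl B (fun p => co p (φ (PresentedGroup.of (Sum.inl i))))
        (fun p => co p (φ (PresentedGroup.of (Sum.inr i)))) -
      bl B (fun p => co p (φ (PresentedGroup.of (Sum.inr i))))
        (fun p => co p (φ (PresentedGroup.of (Sum.inl i))))) = 0 := by
  obtain ⟨ψ, hψ⟩ := exists_hom hB
  have hv : ∀ x : SG g, (ψ x).v = fun p => co p x := by
    intro x
    funext p
    rw [fun_co (fun x => (ψ x).v p) (fun x y => by rw [map_mul, HB.mul_v, Pi.add_apply]) x]
    rw [Finset.sum_eq_single p]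
    · simp only [hψ]
      simp
    · intro q _ hq
      simp only [hψ]
      rw [if_neg hq, zero_mul]
    · intro h
      exact absurd (Finset.mem_univ _) h
  have h := hom_rel (ψ.comp φ.toMonoidHom)
  have h2 : ∀ x : SG g, (ψ.comp φ.toMonoidHom) x = ψ (φ x) := fun x => rfl
  simp only [h2, hv] at h
  exact h

end Pool.Agent.H26.TG
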