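import Mathlib

/-!
# Kernels of maps from finitely generated onto finitely presented groups

Part of `MP_c61994_al`. Classical. PROOF: let `φ : FreeGroup (Fin n) →* P` be surjective with kernel the
normal closure of a finite set `R` (`Group.IsFinitelyPresented.out`), `Y` a finite generating set of `G`
(`Group.fg_iff`). `θ : FreeGroup (Fin n) →* G` with `f ∘ θ = φ` (`FreeGroup.lift` of chosen preimages); for `y ∈ Y`
choose `w y` with `φ (w y) = f y`. Let `K₀` be the normal closure in `G` of the finite set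
`θ '' R ∪ (fun y => y⁻¹ * θ (w y)) '' Y`; clearly `K₀ ≤ ker f`. Let `x ∈ ker f`. In `G ⧸ K₀` every element is the
class of some `θ z`: the subgroup `θ.range ⊔ K₀` contains `Y`, so it is everything; so `x = θ z * k` with `k ∈ K₀`
(`Subgroup.mem_sup_of_normal_right` or similar; `K₀` normal). Then `φ z = f (θ z) = f x * f k⁻¹ = 1`, so `z` is
in the normal closure of `R`, which is contained in the normal subgroup `K₀.comap θ`; so `θ z ∈ K₀`, `x ∈ K₀`.
-/

set_option autoImplicit false

namespace Pool.Agent.H26.TG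

theorem ker_fng {G P : Type*} [Group G] [Group P] [Group.FG G] [Group.IsFinitelyPresented P]
    (f : G →* P) (hf : Function.Surjective f) : f.ker.IsFinitelyNormallyGenerated := by
  classical
  obtain ⟨n, φ, hφ, R, hR, hRk⟩ := Group.IsFinitelyPresented.out (G := P)
  obtain ⟨Y, hY, hYf⟩ := Group.fg_iff.mp (inferInstance : Group.FG G)
  choose g hg using hf
  let θ : FreeGroup (Fin n) →* G := FreeGroup.lift fun i => g (φ (FreeGroup.of i))
  have hθ : ∀ z, f (θ z) = φ z := by
    have : f.comp θ = φ := by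
      apply FreeGroup.ext_hom
      intro i
      simp [θ, hg]
    intro z
    exact DFunLike.congr_fun this z
  choose w hw using hφ
  set S : Set G := θ '' R ∪ (fun y => y⁻¹ * θ (w (f y))) '' Y with hS
  have hSfin : S.Finite := (hR.image _).union (hYf.image _)
  set K₀ : Subgroup G := Subgroup.normalClosure S with hK₀
  have hle : K₀ ≤ f.ker := by
    refine Subgroup.normalClosure_le_normal ?_
    rintro x (⟨r, hr, rfl⟩ | ⟨y, hy, rfl⟩)
    · show f (θ r) = 1
      rw [hθ]
      have : r ∈ φ.ker := by
        rw [← hRk]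
        exact Subgroup.subset_normalClosure hr
      exact this
    · show f (y⁻¹ * θ (w (f y))) = 1
      rw [map_mul, hθ, hw, map_inv, inv_mul_cancel]
  have htop : θ.range ⊔ K₀ = ⊤ := by
    rw [eq_top_iff, ← hY, Subgroup.closure_le]
    intro y hy
    have h1 : y⁻¹ * θ (w (f y)) ∈ K₀ := Subgroup.subset_normalClosure (Or.inr ⟨y, hy, rfl⟩)
    have h2 : θ (w (f y)) ∈ θ.range := ⟨_, rfl⟩
    have h3 : y = θ (w (f y)) * (y⁻¹ * θ (w (f y)))⁻¹ := by group
    rw [h3]
    exact mul_mem (Subgroup.mem_sup_left h2) (Subgroup.mem_sup_right (inv_mem h1))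
  refine ⟨S, hSfin, le_antisymm hle ?_⟩
  intro x hx
  have hx1 : x ∈ θ.range ⊔ K₀ := by rw [htop]; trivial
  rw [Subgroup.mem_sup_of_normal_right] at hx1
  obtain ⟨y, ⟨z, rfl⟩, k, hk, rfl⟩ := hx1
  have hkf : f k = 1 := hle hk
  have hz : φ z = 1 := by
    rw [← hθ]
    have : f (θ z * k) = 1 := hx
    rwa [map_mul, hkf, mul_one] at this
  have hz2 : z ∈ Subgroup.normalClosure R := by
    rw [hRk]
    exact hz
  have hcomap : Subgroup.normalClosure R ≤ K₀.comap θ := by
    refine Subgroup.normalClosure_le_normal ?_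
    intro r hr
    exact Subgroup.subset_normalClosure (Or.inl ⟨r, hr, rfl⟩)
  exact mul_mem (hcomap hz2) hk

end Pool.Agent.H26.TG
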