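import Pool.Agent.H26.TG.Low

/-!
# The levels of a representation and the symbol

Part of `MP_c61994_al`. `A : M → Mat_n(ℤ)` a homomorphism from a group. `lev A h` is the subgroup of all `f` with
`A f - 1` and `A f⁻¹ - 1` in `Low h`; `sy A h f k` is the entry `(k, k + h)` of `A f - 1`.

* `A (f g) - 1 = (A f - 1) (A g - 1) + (A f - 1) + (A g - 1)`.
* `mem_lev_of_low`: `Low.inv` with `X = A f - 1`, `Y = A f⁻¹ - 1` (`A f * A f⁻¹ = A 1 = 1`).
* `sy_mul`: the product `(A f - 1) (A g - 1)` is in `Low (h + h)`, so its entry `(k, k + h)` vanishes (`1 ≤ h`).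
  `sy_inv`, `sy_pow`, `sy_zpow` follow (`sy A h 1 k = 0`).
* `mem_succ`: `Low.succ` and `mem_lev_of_low`.
* `comm_sub`: `A (x y x⁻¹ y⁻¹) - 1 = (X Y - Y X) * A x⁻¹ * A y⁻¹` with `X = A x - 1`, `Y = A y - 1` (both sides are
  `(A x A y - A y A x) A x⁻¹ A y⁻¹`). With `A x⁻¹ = 1 + X'`, `A y⁻¹ = 1 + Y'`: it is
  `(X Y - Y X) + (X Y - Y X) (X' + Y' + X' Y')`.
* `lev_comm`: so it is in `Low (h + 1)` (`Low 0` for `X'`, `Y'`).
* `sy_comm`: the second summand is in `Low (h' + 2)`, and `ent_mul_diag` for `X Y` and `Y X`.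
-/

set_option autoImplicit false

namespace Pool.Agent.H26.TG

variable {M : Type*} [Group M] {n : ℕ} (A : M →* Matrix (Fin n) (Fin n) ℤ)

/-- the level subgroups -/
def lev (h : ℕ) : Subgroup M where
  carrier := {f | Low h (A f - 1) ∧ Low h (A f⁻¹ - 1)}
  one_mem' := by
    simp only [inv_one, map_one, sub_self, Set.mem_setOf_eq, and_self]
    exact Low.zero
  mul_mem' := by
    rintro f g ⟨h1, h2⟩ ⟨h3, h4⟩
    refine ⟨?_, ?_⟩
    · have : A (f * g) - 1 = (A f - 1) * (A g - 1) + (A f - 1) + (A g - 1) := by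
        rw [map_mul]
        noncomm_ring
      rw [this]
      exact (((h1.mul h3).mono (Nat.le_add_left _ _)).add h1).add h3
    · have : A (f * g)⁻¹ - 1 = (A g⁻¹ - 1) * (A f⁻¹ - 1) + (A g⁻¹ - 1) + (A f⁻¹ - 1) := by
        rw [mul_inv_rev, map_mul]
        noncomm_ring
      rw [this]
      exact (((h4.mul h2).mono (Nat.le_add_left _ _)).add h4).add h2
  inv_mem' := by
    rintro f ⟨h1, h2⟩
    exact ⟨h2, by rwa [inv_inv]⟩

/-- the symbol -/
def sy (h : ℕ) (f : M) (k : ℕ) : ℤ := ent (A f - 1) k (k + h)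

variable {A} {h : ℕ} {f g x y : M}

lemma mem_lev_iff : f ∈ lev A h ↔ Low h (A f - 1) ∧ Low h (A f⁻¹ - 1) := Iff.rfl

lemma mem_lev_of_low (hh : 1 ≤ h) (hf : Low h (A f - 1)) : f ∈ lev A h := by
  refine ⟨hf, Low.inv hh hf ?_⟩
  rw [add_sub_cancel, add_sub_cancel, ← map_mul, mul_inv_cancel, map_one]

lemma lev_anti {h' : ℕ} (hh : h ≤ h') : lev A h' ≤ lev A h := by
  intro f hf
  exact ⟨hf.1.mono hh, hf.2.mono hh⟩

lemma lev_top (hn : n ≤ h) : f ∈ lev A h ↔ A f = 1 := by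
  constructor
  · intro hf
    exact sub_eq_zero.1 (hf.1.top hn)
  · intro hf
    have h1 : A f⁻¹ = 1 := by
      calc A f⁻¹ = A f⁻¹ * A f := by rw [hf, mul_one]
        _ = 1 := by rw [← map_mul, inv_mul_cancel, map_one]
    rw [mem_lev_iff, hf, h1, sub_self]
    exact ⟨Low.zero, Low.zero⟩

lemma mem_succ (hh : 1 ≤ h) (hf : f ∈ lev A h) (h0 : ∀ k, sy A h f k = 0) : f ∈ lev A (h + 1) :=
  mem_lev_of_low (by omega) (hf.1.succ h0)

lemma sy_of_mem_succ (hf : f ∈ lev A (h + 1)) (k : ℕ) : sy A h f k = 0 :=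
  hf.1 k (k + h) (by omega)

lemma sy_out (k : ℕ) (hk : n ≤ k + h) : sy A h f k = 0 := by
  unfold sy ent
  rw [dif_neg (by omega)]

lemma sy_mul (hh : 1 ≤ h) (hf : f ∈ lev A h) (hg : g ∈ lev A h) (k : ℕ) :
    sy A h (f * g) k = sy A h f k + sy A h g k := by
  have h1 : A (f * g) - 1 = (A f - 1) * (A g - 1) + (A f - 1) + (A g - 1) := by
    rw [map_mul]
    noncomm_ring
  have h2 : ent ((A f - 1) * (A g - 1)) k (k + h) = 0 := (hf.1.mul hg.1) k (k + h) (by omega)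
  unfold sy
  rw [h1, ent_add, ent_add, h2, zero_add]

private lemma lev_sy_one (k : ℕ) : sy A h 1 k = 0 := by
  unfold sy
  rw [map_one, sub_self, ent_zero]

lemma sy_inv (hh : 1 ≤ h) (hf : f ∈ lev A h) (k : ℕ) : sy A h f⁻¹ k = -sy A h f k := by
  have h1 := sy_mul hh hf ((lev A h).inv_mem hf) k
  rw [mul_inv_cancel, lev_sy_one] at h1
  linarith

lemma sy_zpow (hh : 1 ≤ h) (hf : f ∈ lev A h) (i : ℤ) (k : ℕ) :
    sy A h (f ^ i) k = i * sy A h f k := by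
  induction i using Int.induction_on with
  | zero => rw [zpow_zero, lev_sy_one, zero_mul]
  | succ i ih =>
    rw [zpow_add_one, sy_mul hh ((lev A h).zpow_mem hf _) hf, ih]
    ring
  | pred i ih =>
    rw [zpow_sub_one, sy_mul hh ((lev A h).zpow_mem hf _) ((lev A h).inv_mem hf), ih,
      sy_inv hh hf]
    ring

private lemma lev_comm_sub : A (x * y * x⁻¹ * y⁻¹) - 1 =
    ((A x - 1) * (A y - 1) - (A y - 1) * (A x - 1)) +
      ((A x - 1) * (A y - 1) - (A y - 1) * (A x - 1)) *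
        ((A x⁻¹ - 1) + (A y⁻¹ - 1) + (A x⁻¹ - 1) * (A y⁻¹ - 1)) := by
  have h1 : A y * A x * A x⁻¹ * A y⁻¹ = 1 := by
    rw [← map_mul, ← map_mul, ← map_mul, mul_inv_cancel_right, mul_inv_cancel, map_one]
  have h2 : A (x * y * x⁻¹ * y⁻¹) = A x * A y * A x⁻¹ * A y⁻¹ := by
    rw [map_mul, map_mul, map_mul]
  calc A (x * y * x⁻¹ * y⁻¹) - 1 = A x * A y * A x⁻¹ * A y⁻¹ - A y * A x * A x⁻¹ * A y⁻¹ := by
        rw [h2, h1]
    _ = _ := by noncomm_ring

private lemma lev_low_zero {m : ℕ} {X : Matrix (Fin n) (Fin n) ℤ} {Y : Matrix (Fin n) (Fin n) ℤ}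
    (hX : Low m X) (hY : Low m Y) : Low m (X + Y + X * Y) :=
  (hX.add hY).add ((hX.mul hY).mono (Nat.le_add_left _ _))

private lemma lev_low_comm (hx : x ∈ lev A 1) (hy : y ∈ lev A h) :
    Low (h + 1) ((A x - 1) * (A y - 1) - (A y - 1) * (A x - 1)) := by
  have h1 := hx.1.mul hy.1
  rw [Nat.add_comm 1 h] at h1
  exact h1.sub (hy.1.mul hx.1)

lemma lev_comm (hx : x ∈ lev A 1) (hy : y ∈ lev A h) : x * y * x⁻¹ * y⁻¹ ∈ lev A (h + 1) := by
  refine mem_lev_of_low (by omega) ?_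
  rw [lev_comm_sub]
  have h1 := lev_low_comm hx hy
  exact h1.add (h1.mul (lev_low_zero (hx.2.mono (Nat.zero_le _)) (hy.2.mono (Nat.zero_le _))))

lemma sy_comm (hh : 1 ≤ h) (hx : x ∈ lev A 1) (hy : y ∈ lev A h) (k : ℕ) :
    sy A (h + 1) (x * y * x⁻¹ * y⁻¹) k =
      sy A 1 x k * sy A h y (k + 1) - sy A h y k * sy A 1 x (k + h) := by
  have h1 := lev_low_comm hx hy
  have h2 := (h1.mul (lev_low_zero hx.2 (hy.2.mono hh))) k (k + (h + 1)) (by omega)
  have h3 := ent_mul_diag hx.1 hy.1 k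
  have h4 := ent_mul_diag hy.1 hx.1 k
  have e1 : k + 1 + h = k + (h + 1) := by omega
  have e2 : k + h + 1 = k + (h + 1) := by omega
  unfold sy
  rw [lev_comm_sub, ent_add, h2, add_zero, ent_sub]
  rw [e1] at h3
  rw [e2] at h4
  rw [h3, h4, e1, e2]

end Pool.Agent.H26.TG
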