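import Pool.Agent.H26.TG.Root

/-!
# The root elements generate each level modulo the next

Part of `MP_c61994_al`.

PROOF. For each `a` with `2 a + h + 1 ≤ 2 g` choose a root element `r a` for `(a, b)`, `b = 2 g - 1 - h - a ≥ a`
(`hroot`); `ts` the list of these `r a` (filter of `List.range g`). `≥` is clear (`lev_anti`).
`≤`: let `f ∈ lev h`. By induction on `m` there is `w ∈ closure ts` with `w ∈ lev h` and `sy h (f * w) a = 0` for all `a < m` with
`2 a + h + 1 ≤ 2 g`: multiply by `(r m) ^ (-s)`, `s = sy h (f * w) m`; the symbol of `r m` vanishes at `a < m`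
(`a ≠ m`, and `a ≠ 2 g - 1 - h - m` as that is `≥ m`). With `m = g`: `f * w` has symbol `0` at all `a` with `2 a + h + 1 ≤ 2 g`;
for `k` with `2 k + h + 1 > 2 g` and `k + h < 2 g` use `sy_rel` with `a = 2 g - 1 - h - k`, `b = k`; for `k + h ≥ 2 g` use
`sy_out`. So `f * w ∈ lev (h + 1)` (`mem_succ`), `f = (f w) w⁻¹`.
-/

set_option autoImplicit false

namespace Pool.Agent.H26.TG

variable {M : Type*} [Group M] {g : ℕ} {A : M →* Matrix (Fin (2 * g)) (Fin (2 * g)) ℤ}

theorem span_lev (hS : ∀ f : M, ∃ c : ℤ, A f * Jm g * (A f).transpose = c • Jm g) {h : ℕ}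
    (hh : 1 ≤ h) (P : M → Prop)
    (hroot : ∀ a b, a ≤ b → a + b + h + 1 = 2 * g → ∃ r, IsRoot A h a b r ∧ P r) :
    ∃ ts : List M, (∀ t ∈ ts, t ∈ lev A h ∧ P t) ∧
      lev A h = lev A (h + 1) ⊔ Subgroup.closure {t | t ∈ ts} := by
  classical
  have hr0 : ∀ a, 2 * a + h + 1 ≤ 2 * g → ∃ r, IsRoot A h a (2 * g - 1 - h - a) r ∧ P r :=
    fun a ha => hroot a _ (by omega) (by omega)
  choose! r hr using hr0
  set ts : List M := ((List.range g).filter (fun a => decide (2 * a + h + 1 ≤ 2 * g))).map r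
    with hts
  have hmem : ∀ a, 2 * a + h + 1 ≤ 2 * g → r a ∈ ts := by
    intro a ha
    rw [hts, List.mem_map]
    refine ⟨a, ?_, rfl⟩
    rw [List.mem_filter]
    exact ⟨List.mem_range.2 (by omega), by simpa using ha⟩
  have hts2 : ∀ t ∈ ts, t ∈ lev A h ∧ P t := by
    intro t ht
    rw [hts, List.mem_map] at ht
    obtain ⟨a, ha, rfl⟩ := ht
    rw [List.mem_filter] at ha
    have ha2 : 2 * a + h + 1 ≤ 2 * g := by simpa using ha.2
    exact ⟨(hr a ha2).1.1, (hr a ha2).2⟩
  have key : ∀ f ∈ lev A h, ∀ m : ℕ, ∃ w ∈ Subgroup.closure {t : M | t ∈ ts}, w ∈ lev A h ∧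
      ∀ a, a < m → 2 * a + h + 1 ≤ 2 * g → sy A h (f * w) a = 0 := by
    intro f hf m
    induction m with
    | zero => exact ⟨1, one_mem _, one_mem _, fun a ha => absurd ha (Nat.not_lt_zero a)⟩
    | succ m ih =>
      obtain ⟨w, hw1, hw2, hw3⟩ := ih
      by_cases hm : 2 * m + h + 1 ≤ 2 * g
      · have hrm := (hr m hm).1
        have hrm1 : r m ^ (-(sy A h (f * w) m)) ∈ lev A h := zpow_mem hrm.1 _
        refine ⟨w * r m ^ (-(sy A h (f * w) m)),
          mul_mem hw1 (zpow_mem (Subgroup.subset_closure (show r m ∈ {t : M | t ∈ ts} from hmem m hm)) _),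
          mul_mem hw2 hrm1, ?_⟩
        intro a ha ha2
        rw [← mul_assoc, sy_mul hh (mul_mem hf hw2) hrm1, sy_zpow hh hrm.1]
        rcases Nat.lt_succ_iff_lt_or_eq.1 ha with hlt | rfl
        · rw [hw3 a hlt ha2, hrm.2.2 a (by omega) (by omega)]
          simp
        · rw [hrm.2.1]
          ring
      · refine ⟨w, hw1, hw2, ?_⟩
        intro a ha ha2
        rcases Nat.lt_succ_iff_lt_or_eq.1 ha with hlt | rfl
        · exact hw3 a hlt ha2
        · exact absurd ha2 hm
  refine ⟨ts, hts2, le_antisymm ?_ ?_⟩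
  · intro f hf
    obtain ⟨w, hw1, hw2, hw3⟩ := key f hf g
    have hfw : f * w ∈ lev A h := mul_mem hf hw2
    have h0 : ∀ k, sy A h (f * w) k = 0 := by
      intro k
      by_cases hk : 2 * g ≤ k + h
      · exact sy_out k hk
      · by_cases hk2 : 2 * k + h + 1 ≤ 2 * g
        · exact hw3 k (by omega) hk2
        · obtain ⟨c, hc⟩ := hS (f * w)
          rw [sy_rel hc hh hfw (a := 2 * g - 1 - h - k) (b := k) (by omega),
            hw3 (2 * g - 1 - h - k) (by omega) (by omega), mul_zero]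
    have h1 : f * w ∈ lev A (h + 1) := mem_succ hh hfw h0
    have h2 : f = (f * w) * w⁻¹ := by group
    rw [h2]
    exact mul_mem (Subgroup.mem_sup_left h1) (Subgroup.mem_sup_right (inv_mem hw1))
  · exact sup_le (lev_anti (Nat.le_succ h))
      ((Subgroup.closure_le _).2 fun t ht => (hts2 t ht).1)

end Pool.Agent.H26.TG
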