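import Pool.Agent.H26.TG.Filtr
import Pool.Agent.H26.TG.Span

/-!
# Groups between the kernel and the second level

Part of `MP_c61994_al`.
-/

set_option autoImplicit false

namespace Pool.Agent.H26.TG

variable {M : Type*} [Group M] {g : ℕ} {A : M →* Matrix (Fin (2 * g)) (Fin (2 * g)) ℤ}

theorem lin_main (hg : 1 ≤ g)
    (hS : ∀ f : M, ∃ c : ℤ, A f * Jm g * (A f).transpose = c • Jm g)
    (hsim : ∀ j, j + 1 < g → ∃ r, IsRoot A 1 j (2 * g - 2 - j) r)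
    (hlong : ∀ a, a < g → ∃ r, IsRoot A (2 * g - 1 - 2 * a) a a r)
    (D : Subgroup M) (hD1 : lev A (2 * g) ≤ D) (hD2 : D ≤ lev A 2) :
    Group.IsFinitelyPresented ↥D ↔ Group.IsFinitelyPresented ↥(lev A (2 * g)) := by
  refine filtration (lev A) (by omega) (fun h => lev_anti (Nat.le_succ h))
    (fun h _ x hx y hy => lev_comm hx hy) (fun h h2 _ => ?_) D hD1 hD2
  obtain ⟨ts, h3, h4⟩ := span_lev hS (h := h) (by omega)
    (fun r => 2 ≤ h → ∃ u ∈ lev A 1, ∃ v ∈ lev A 1, ∃ q : ℤ, q ≠ 0 ∧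
        v * u * v⁻¹ * u⁻¹ * (r ^ q)⁻¹ ∈ lev A (h + 1))
    (exists_root hS hsim hlong h (by omega))
  exact ⟨ts, fun t ht => ⟨(h3 t ht).1, (h3 t ht).2 h2⟩, h4⟩

end Pool.Agent.H26.TG
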