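import Mathlib

/-!
# Strictly upper triangular integer matrices

Part of `MP_c61994_al`. `ent X i j` is the entry with natural number indices (zero outside of the range), `Low h X` means
that the entries `(i, j)` with `j < i + h` vanish.

* `ent_mul`: `Finset.sum_range` / `Fin.sum_univ_eq_sum_range`; for `i < n`, `j < n` unfold, otherwise both sides vanish.
* `Low.mul`: in `∑ k, ent X i k * ent Y k j` a nonzero term has `i + a ≤ k`, `k + b ≤ j`.
* `Low.top`: `i + h ≤ j < n ≤ h` is impossible.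
* `Low.succ`: `j < i + h + 1` means `j < i + h` or `j = i + h`.
* `ent_mul_diag`: only the term `k + a` can be nonzero (if `k + a ≥ n` it is `0` on both sides, as `ent X k (k + a) = 0`).
* `Low.inv`: `Y = -X - X * Y`. Prove `∀ i j, j < i + h → ent Y i j = 0` by downward induction on `i` (strong induction on `n - i`;
  for `i ≥ n` it is `0`): `ent (X * Y) i j = ∑ k, ent X i k * ent Y k j`, a nonzero first factor gives `i + h ≤ k`, `k > i`
  (`1 ≤ h`), and `j < i + h ≤ k < k + h`, so `ent Y k j = 0` by induction.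
-/

set_option autoImplicit false

namespace Pool.Agent.H26.TG

variable {n : ℕ}

/-- entry with natural number indices -/
def ent (X : Matrix (Fin n) (Fin n) ℤ) (i j : ℕ) : ℤ :=
  if h : i < n ∧ j < n then X ⟨i, h.1⟩ ⟨j, h.2⟩ else 0

/-- the entries `(i, j)` with `j < i + h` vanish -/
def Low (h : ℕ) (X : Matrix (Fin n) (Fin n) ℤ) : Prop := ∀ i j : ℕ, j < i + h → ent X i j = 0

private lemma ent_pos (X : Matrix (Fin n) (Fin n) ℤ) {i j : ℕ} (h : i < n ∧ j < n) :
    ent X i j = X ⟨i, h.1⟩ ⟨j, h.2⟩ := dif_pos h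

private lemma ent_neg' (X : Matrix (Fin n) (Fin n) ℤ) {i j : ℕ} (h : ¬ (i < n ∧ j < n)) :
    ent X i j = 0 := dif_neg h

lemma ent_fin (X : Matrix (Fin n) (Fin n) ℤ) (i j : Fin n) : ent X i j = X i j :=
  ent_pos X ⟨i.2, j.2⟩

lemma ent_ext {X Y : Matrix (Fin n) (Fin n) ℤ} (h : ∀ i j, ent X i j = ent Y i j) : X = Y := by
  ext i j
  rw [← ent_fin X i j, ← ent_fin Y i j]
  exact h i j

lemma ent_add (X Y : Matrix (Fin n) (Fin n) ℤ) (i j : ℕ) : ent (X + Y) i j = ent X i j + ent Y i j := by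
  by_cases h : i < n ∧ j < n
  · rw [ent_pos _ h, ent_pos _ h, ent_pos _ h]
    rfl
  · rw [ent_neg' _ h, ent_neg' _ h, ent_neg' _ h, add_zero]

lemma ent_sub (X Y : Matrix (Fin n) (Fin n) ℤ) (i j : ℕ) : ent (X - Y) i j = ent X i j - ent Y i j := by
  by_cases h : i < n ∧ j < n
  · rw [ent_pos _ h, ent_pos _ h, ent_pos _ h]
    rfl
  · rw [ent_neg' _ h, ent_neg' _ h, ent_neg' _ h, sub_zero]

lemma ent_neg (X : Matrix (Fin n) (Fin n) ℤ) (i j : ℕ) : ent (-X) i j = -ent X i j := by
  by_cases h : i < n ∧ j < n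
  · rw [ent_pos _ h, ent_pos _ h]
    rfl
  · rw [ent_neg' _ h, ent_neg' _ h, neg_zero]

lemma ent_zero (i j : ℕ) : ent (0 : Matrix (Fin n) (Fin n) ℤ) i j = 0 := by
  by_cases h : i < n ∧ j < n
  · rw [ent_pos _ h]
    rfl
  · rw [ent_neg' _ h]

lemma ent_one (i j : ℕ) : ent (1 : Matrix (Fin n) (Fin n) ℤ) i j = if i = j ∧ i < n then 1 else 0 := by
  by_cases h : i < n ∧ j < n
  · rw [ent_pos _ h, Matrix.one_apply]
    by_cases hij : i = j
    · subst hij
      rw [if_pos rfl, if_pos ⟨rfl, h.1⟩]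
    · rw [if_neg (fun h1 => hij (Fin.mk.inj_iff.mp h1)), if_neg (fun h1 => hij h1.1)]
  · rw [ent_neg' _ h, if_neg]
    rintro ⟨rfl, h1⟩
    exact h ⟨h1, h1⟩

lemma ent_mul (X Y : Matrix (Fin n) (Fin n) ℤ) (i j : ℕ) :
    ent (X * Y) i j = ∑ k ∈ Finset.range n, ent X i k * ent Y k j := by
  rw [Finset.sum_range]
  by_cases h : i < n ∧ j < n
  · rw [ent_pos _ h, Matrix.mul_apply]
    refine Finset.sum_congr rfl fun k _ => ?_
    rw [ent_pos X ⟨h.1, k.2⟩, ent_pos Y ⟨k.2, h.2⟩]
  · rw [ent_neg' _ h]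
    symm
    refine Finset.sum_eq_zero fun k _ => ?_
    by_cases hi : i < n
    · rw [ent_neg' Y (fun h1 => h ⟨hi, h1.2⟩), mul_zero]
    · rw [ent_neg' X (fun h1 => hi h1.1), zero_mul]

variable {a b h : ℕ} {X Y : Matrix (Fin n) (Fin n) ℤ}

lemma Low.zero : Low h (0 : Matrix (Fin n) (Fin n) ℤ) := by
  intro i j _
  exact ent_zero i j

lemma Low.add (hX : Low h X) (hY : Low h Y) : Low h (X + Y) := by
  intro i j hij
  rw [ent_add, hX i j hij, hY i j hij, add_zero]

lemma Low.neg (hX : Low h X) : Low h (-X) := by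
  intro i j hij
  rw [ent_neg, hX i j hij, neg_zero]

lemma Low.sub (hX : Low h X) (hY : Low h Y) : Low h (X - Y) := by
  intro i j hij
  rw [ent_sub, hX i j hij, hY i j hij, sub_zero]

lemma Low.mono (hX : Low b X) (hab : a ≤ b) : Low a X := by
  intro i j hij
  exact hX i j (by omega)

lemma Low.mul (hX : Low a X) (hY : Low b Y) : Low (a + b) (X * Y) := by
  intro i j hij
  rw [ent_mul]
  refine Finset.sum_eq_zero fun k _ => ?_
  by_cases hk : k < i + a
  · rw [hX i k hk, zero_mul]
  · rw [hY k j (by omega), mul_zero]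

lemma Low.top (hX : Low h X) (hn : n ≤ h) : X = 0 := by
  refine ent_ext fun i j => ?_
  rw [ent_zero]
  by_cases hij : i < n ∧ j < n
  · exact hX i j (by omega)
  · exact ent_neg' _ hij

lemma Low.succ (hX : Low h X) (h0 : ∀ k, ent X k (k + h) = 0) : Low (h + 1) X := by
  intro i j hij
  rcases Nat.lt_or_ge j (i + h) with h1 | h1
  · exact hX i j h1
  · have h2 : j = i + h := by omega
    rw [h2]
    exact h0 i

lemma ent_mul_diag (hX : Low a X) (hY : Low b Y) (k : ℕ) :
    ent (X * Y) k (k + a + b) = ent X k (k + a) * ent Y (k + a) (k + a + b) := by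
  rw [ent_mul]
  by_cases hka : k + a < n
  · refine Finset.sum_eq_single_of_mem (k + a) (Finset.mem_range.mpr hka) fun l _ hl => ?_
    by_cases h1 : l < k + a
    · rw [hX k l h1, zero_mul]
    · rw [hY l (k + a + b) (by omega), mul_zero]
  · rw [ent_neg' X (fun h1 => hka h1.2), zero_mul]
    refine Finset.sum_eq_zero fun l hl => ?_
    rw [hX k l (by
      have := Finset.mem_range.mp hl
      omega), zero_mul]

lemma Low.inv (hh : 1 ≤ h) (hX : Low h X) (hXY : (1 + X) * (1 + Y) = 1) : Low h Y := by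
  have hY : Y = -X - X * Y := by
    have h1 : (1 + X) * (1 + Y) = 1 + (X + Y + X * Y) := by noncomm_ring
    rw [h1] at hXY
    have h2 : X + Y + X * Y = 0 := by
      have h3 : (1 : Matrix (Fin n) (Fin n) ℤ) + (X + Y + X * Y) = 1 + 0 := by rw [hXY, add_zero]
      exact add_left_cancel h3
    calc Y = (X + Y + X * Y) - X - X * Y := by abel
      _ = 0 - X - X * Y := by rw [h2]
      _ = -X - X * Y := by rw [zero_sub]
  have key : ∀ m i j : ℕ, n ≤ i + m → j < i + h → ent Y i j = 0 := by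
    intro m
    induction m with
    | zero =>
      intro i j h1 _
      exact ent_neg' _ (fun h2 => by omega)
    | succ m ih =>
      intro i j h1 h2
      rw [hY, ent_sub, ent_neg, hX i j h2, neg_zero, zero_sub, neg_eq_zero, ent_mul]
      refine Finset.sum_eq_zero fun k _ => ?_
      by_cases hk : k < i + h
      · rw [hX i k hk, zero_mul]
      · rw [ih k j (by omega) (by omega), mul_zero]
  intro i j hij
  exact key n i j (by omega) hij

end Pool.Agent.H26.TG
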