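import Pool.Agent.H26.TG.Simple
import Pool.Agent.H26.TG.Form
import Pool.Agent.H26.TG.Flag

/-!
# Unipotent enlargements of the Torelli group

Part of `MP_c61994_al`. The main theorem for all groups between the Torelli group and the second level of the standard
symplectic flag; the case of one Dehn twist.
-/

set_option autoImplicit false

namespace Pool.Agent.H26.TG

variable {g : ℕ}

theorem main_lev (hg : 1 ≤ g) (D : Subgroup (OutG (SG g))) (h1 : torelli (SG g) ≤ D)
    (h2 : D ≤ lev (Aout g) 2) :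
    Group.IsFinitelyPresented ↥D ↔ Group.IsFinitelyPresented ↥(torelli (SG g)) := by
  rw [torelli_eq] at h1 ⊢
  exact lin_main hg Aout_symp simple_root long_root D h1 h2

theorem main (hg : 1 ≤ g) (D : Subgroup (OutG (SG g))) (h1 : torelli (SG g) ≤ D)
    (h2 : ∀ φ : MulAut (SG g), cls φ ∈ D → ∀ (k : ℕ) (x : SG g), Abelianization.of x ∈ flag g k →
      Abelianization.of (φ x) * (Abelianization.of x)⁻¹ ∈ flag g (k - 2)) :
    Group.IsFinitelyPresented ↥D ↔ Group.IsFinitelyPresented ↥(torelli (SG g)) := by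
  refine main_lev hg D h1 fun f hf => ?_
  obtain ⟨φ, rfl⟩ := QuotientGroup.mk'_surjective _ f
  exact flag_lev (h2 φ hf)

/-- one Dehn twist about a nonseparating curve -/
theorem twist (hg : 2 ≤ g) (i : Fin g) (hi : (i : ℕ) + 1 < g) : ∃ τ : MulAut (SG g),
    τ (PresentedGroup.of (Sum.inl i)) =
      PresentedGroup.of (Sum.inl i) * PresentedGroup.of (Sum.inr i) ∧
    (∀ p : Gen g, p ≠ Sum.inl i → τ (PresentedGroup.of p) = PresentedGroup.of p) ∧
    (∀ m : ℤ, cls τ ^ m ∈ torelli (SG g) → m = 0) ∧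
    (Group.IsFinitelyPresented ↥(torelli (SG g) ⊔ Subgroup.zpowers (cls τ)) ↔
      Group.IsFinitelyPresented ↥(torelli (SG g))) := by
  obtain ⟨τ, h1, h2⟩ := exists_twistB i
  have hr := root_twistB h1 h2
  obtain ⟨h3, h4, -⟩ := hr
  refine ⟨τ, h1, h2, fun m hm => ?_, ?_⟩
  · rw [torelli_eq] at hm
    have h5 : cls τ ^ m ∈ lev (Aout g) (2 * g - 1 - 2 * (i : ℕ) + 1) := lev_anti (by omega) hm
    have h6 := sy_of_mem_succ h5 (i : ℕ)
    rw [sy_zpow (by omega) h3, h4, mul_one] at h6
    exact h6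
  · refine main_lev (by omega) _ le_sup_left ?_
    rw [sup_le_iff]
    constructor
    · rw [torelli_eq]
      exact lev_anti (by omega)
    · rw [Subgroup.zpowers_le]
      exact lev_anti (by omega) h3

end Pool.Agent.H26.TG
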