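import Pool.Agent.H26.TG.SDefs

/-!
# The relator under homomorphisms

Part of `MP_c61994_al`.

* `relator_lift`: `map_list_prod`, `List.map_map`, `FreeGroup.lift_apply_of` (or `FreeGroup.lift.of`).
* `relator_comm`: every factor is `1` in a commutative group.
* `prod_two`: two families which agree outside of two consecutive positions, where the products agree, have the same
  ordered product. Induction on `g` with `List.finRange_succ` (`(finRange (g+1)) = 0 :: (finRange g).map Fin.succ`), the position `j`
  generalised: for `j = 0` unfold two steps (`g = g' + 2`), for `j + 1` the heads agree and use the induction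
  hypothesis for `c ∘ Fin.succ`.
* `sg_rel`: the image of the relator in `SG g` is `1` (`PresentedGroup.one_of_mem`), with `relator_lift`.
* `exists_aut`: `F = PresentedGroup.toGroup` for `f` (the relator goes to `1`), `F'` for `f'`; both compositions are the identity on
  generators (`PresentedGroup.ext`); `MonoidHom.toMulEquiv`.
-/

set_option autoImplicit false

namespace Pool.Agent.H26.TG

variable {g : ℕ} {H : Type*} [Group H]

lemma relator_lift (f : Gen g → H) : FreeGroup.lift f (relator g) =
    ((List.finRange g).map fun i => f (Sum.inl i) * f (Sum.inr i) * (f (Sum.inl i))⁻¹ *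
      (f (Sum.inr i))⁻¹).prod := by
  unfold relator
  rw [map_list_prod, List.map_map]
  refine congrArg (fun c => (List.map c (List.finRange g)).prod) ?_
  funext i
  simp only [Function.comp_apply, map_mul, map_inv, FreeGroup.lift_apply_of]

lemma relator_comm {H' : Type*} [CommGroup H'] (f : Gen g → H') :
    FreeGroup.lift f (relator g) = 1 := by
  rw [relator_lift]
  have h : (fun i => f (Sum.inl i) * f (Sum.inr i) * (f (Sum.inl i))⁻¹ *
      (f (Sum.inr i))⁻¹) = fun _ : Fin g => (1 : H') := by
    funext i
    rw [mul_comm (f (Sum.inl i)) (f (Sum.inr i)), mul_inv_cancel_right, mul_inv_cancel]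
  rw [h]
  simp

lemma prod_two (c c' : Fin g → H) (j : ℕ) (hj : j + 1 < g)
    (hne : ∀ k : Fin g, (k : ℕ) ≠ j → (k : ℕ) ≠ j + 1 → c' k = c k)
    (h : c' ⟨j, by omega⟩ * c' ⟨j + 1, hj⟩ = c ⟨j, by omega⟩ * c ⟨j + 1, hj⟩) :
    ((List.finRange g).map c').prod = ((List.finRange g).map c).prod := by
  induction g generalizing j with
  | zero => omega
  | succ g ih =>
    rcases j with _ | j
    · obtain ⟨g', rfl⟩ : ∃ g', g = g' + 1 := ⟨g - 1, by omega⟩
      have ht : (fun k : Fin g' => c' (Fin.succ (Fin.succ k))) =
          fun k : Fin g' => c (Fin.succ (Fin.succ k)) := by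
        funext k
        apply hne
        · simp
        · simp
      simp only [List.finRange_succ, List.map_cons, List.map_map, List.prod_cons]
      have e : (c' ∘ Fin.succ ∘ Fin.succ) = (c ∘ Fin.succ ∘ Fin.succ) := ht
      rw [e, ← mul_assoc, ← mul_assoc]
      exact congrArg (fun z => z * (List.map (c ∘ Fin.succ ∘ Fin.succ) (List.finRange g')).prod) h
    · have h0 : c' 0 = c 0 := by
        apply hne
        · simp
        · simp
      have h1 := ih (c ∘ Fin.succ) (c' ∘ Fin.succ) j (by omega) (fun k hk1 hk2 => by
        apply hne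
        · simp only [Fin.val_succ]
          omega
        · simp only [Fin.val_succ]
          omega) h
      simp only [List.finRange_succ, List.map_cons, List.map_map, List.prod_cons]
      rw [h0, h1]

lemma sg_rel (g : ℕ) : ((List.finRange g).map fun i : Fin g =>
    (PresentedGroup.of (Sum.inl i) : SG g) * PresentedGroup.of (Sum.inr i) *
      (PresentedGroup.of (Sum.inl i))⁻¹ * (PresentedGroup.of (Sum.inr i))⁻¹).prod = 1 := by
  rw [← relator_lift (fun p => (PresentedGroup.of p : SG g))]
  have h1 : FreeGroup.lift (fun p => (PresentedGroup.of p : SG g)) =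
      PresentedGroup.mk ({relator g} : Set (FreeGroup (Fin g ⊕ Fin g))) := by
    apply FreeGroup.ext_hom
    intro p
    rw [FreeGroup.lift_apply_of]
    rfl
  rw [h1]
  exact PresentedGroup.one_of_mem rfl

theorem exists_aut (f f' : Gen g → SG g) (hf : FreeGroup.lift f (relator g) = 1)
    (hf' : FreeGroup.lift f' (relator g) = 1)
    (h1 : ∀ F : SG g →* SG g, (∀ p, F (PresentedGroup.of p) = f p) →
      ∀ p, F (f' p) = PresentedGroup.of p)
    (h2 : ∀ F : SG g →* SG g, (∀ p, F (PresentedGroup.of p) = f' p) →
      ∀ p, F (f p) = PresentedGroup.of p) :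
    ∃ φ : MulAut (SG g), ∀ p, φ (PresentedGroup.of p) = f p := by
  have r1 : ∀ r ∈ ({relator g} : Set (FreeGroup (Fin g ⊕ Fin g))), FreeGroup.lift f r = 1 := by
    intro r hr
    rw [Set.mem_singleton_iff.1 hr]
    exact hf
  have r2 : ∀ r ∈ ({relator g} : Set (FreeGroup (Fin g ⊕ Fin g))), FreeGroup.lift f' r = 1 := by
    intro r hr
    rw [Set.mem_singleton_iff.1 hr]
    exact hf'
  let F : SG g →* SG g := PresentedGroup.toGroup r1
  let F' : SG g →* SG g := PresentedGroup.toGroup r2
  have hF : ∀ p, F (PresentedGroup.of p) = f p := fun p => PresentedGroup.toGroup.of r1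
  have hF' : ∀ p, F' (PresentedGroup.of p) = f' p := fun p => PresentedGroup.toGroup.of r2
  have c1 : F'.comp F = MonoidHom.id _ := by
    apply PresentedGroup.ext
    intro p
    rw [MonoidHom.comp_apply, hF, MonoidHom.id_apply]
    exact h2 F' hF' p
  have c2 : F.comp F' = MonoidHom.id _ := by
    apply PresentedGroup.ext
    intro p
    rw [MonoidHom.comp_apply, hF', MonoidHom.id_apply]
    exact h1 F hF p
  exact ⟨MonoidHom.toMulEquiv F F' c1 c2, fun p => hF p⟩

end Pool.Agent.H26.TG
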