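import Pool.Agent.H26.TG.SymRel

/-!
# Root elements

Part of `MP_c61994_al`. For `a ≤ b`, `a + b + h + 1 = 2 g` there is an element of level `h` whose symbol is `1` at `a`, and zero
outside of `a, b`; for `h ≥ 2` a nonzero power of it is a commutator of two elements of level `1`, modulo level `h + 1`.
Given are the simple roots (`hsim`, `h = 1`, `a < g - 1`) and the long roots (`hlong`, `a = b`).

PROOF (induction on `h`; `n = 2 g`). `h = 1`: `a = b = g - 1` from `hlong` (`2 g - 1 - 2 (g - 1) = 1`), otherwise `hsim a`.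
Step to `h ≥ 2` (height `h = h' + 1`, `h' ≥ 1`): `u` = the root element of height `h'` for `(a, b + 1)`, `y k = sy h' u k`: `y a = 1`,
`y (b + 1) = -(sgn (a + h') sgn a)` (`sy_rel`), zero else. `v` = the root element of height `1` for the pair `{b, n - 2 - b}` (ordered),
`x k = sy 1 v k`: zero outside of `b`, `n - 2 - b = a + h'`, and both values are `±1` (`sy_rel`). The symbol of
`w = v u v⁻¹ u⁻¹` is `x k * y (k + 1) - y k * x (k + h')` (`sy_comm`).
For `k ≠ a, b` it is `0`: `x k * y (k + 1) ≠ 0` needs `k = a + h'` and `k + 1 ∈ {a, b + 1}`: `k + 1 = a` is impossible, `k = b` is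
excluded; `y k * x (k + h') ≠ 0` needs `k = b + 1` and `b + 1 + h' ∈ {b, n - 2 - b}`; the second means `b + 1 = a`, impossible.
For `k = a`: if `a < b`: `y (a + 1) = 0`, so the value is `-x (a + h') = ±1`; take `r = w` or `r = w⁻¹`, `q = ±1`
(then `w * (r ^ q)⁻¹ = 1`).
If `a = b`: then `a ≤ g - 2`, `x a = 1`, `x (a + h') = -(sgn (a + 1) sgn a) = -1`, `y (a + 1) = -(sgn (a + h') sgn a) = 1`
(`a + h' = n - 2 - a ≥ g`), the value is `1 * 1 - 1 * (-1) = 2`; take `r` from `hlong a` (`2 g - 1 - 2 a = h`), `q = 2`: the symbol of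
`w * (r ^ 2)⁻¹` vanishes, use `mem_succ` (`w ∈ lev h` by `lev_comm`).
-/

set_option autoImplicit false

namespace Pool.Agent.H26.TG

variable {M : Type*} [Group M] {g : ℕ} {A : M →* Matrix (Fin (2 * g)) (Fin (2 * g)) ℤ}

/-- `r` is a root element of height `h` for the pair `(a, b)` -/
def IsRoot (A : M →* Matrix (Fin (2 * g)) (Fin (2 * g)) ℤ) (h a b : ℕ) (r : M) : Prop :=
  r ∈ lev A h ∧ sy A h r a = 1 ∧ ∀ k, k ≠ a → k ≠ b → sy A h r k = 0

private lemma sgn_sq (g i : ℕ) : sgn g i * sgn g i = 1 := by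
  unfold sgn; split_ifs <;> norm_num

private lemma sgn_pm (g i : ℕ) : sgn g i = 1 ∨ sgn g i = -1 := by
  unfold sgn; split_ifs
  · exact Or.inl rfl
  · exact Or.inr rfl

private lemma neg_sgn_pm (g i j : ℕ) : -(sgn g i * sgn g j) = 1 ∨ -(sgn g i * sgn g j) = -1 := by
  rcases sgn_pm g i with h1 | h1 <;> rcases sgn_pm g j with h2 | h2 <;> rw [h1, h2] <;> norm_num

private lemma root_one
    (hsim : ∀ j, j + 1 < g → ∃ r, IsRoot A 1 j (2 * g - 2 - j) r)
    (hlong : ∀ a, a < g → ∃ r, IsRoot A (2 * g - 1 - 2 * a) a a r) :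
    ∀ a b, a ≤ b → a + b + 2 = 2 * g → ∃ r, IsRoot A 1 a b r := by
  intro a b hab h
  rcases Nat.lt_or_ge a b with h1 | h1
  · obtain ⟨r, hr⟩ := hsim a (by omega)
    rw [show 2 * g - 2 - a = b by omega] at hr
    exact ⟨r, hr⟩
  · obtain rfl : a = b := by omega
    obtain ⟨r, hr⟩ := hlong a (by omega)
    rw [show 2 * g - 1 - 2 * a = 1 by omega] at hr
    exact ⟨r, hr⟩

private lemma root_pair (hS : ∀ f : M, ∃ c : ℤ, A f * Jm g * (A f).transpose = c • Jm g)
    (hsim : ∀ j, j + 1 < g → ∃ r, IsRoot A 1 j (2 * g - 2 - j) r)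
    (hlong : ∀ a, a < g → ∃ r, IsRoot A (2 * g - 1 - 2 * a) a a r) (b c : ℕ)
    (h : b + c + 2 = 2 * g) :
    ∃ v : M, v ∈ lev A 1 ∧ (∀ k, k ≠ b → k ≠ c → sy A 1 v k = 0) ∧
      (sy A 1 v c = 1 ∨ sy A 1 v c = -1) ∧
      (b < g - 1 → sy A 1 v b = 1 ∧ sy A 1 v c = -1) := by
  rcases Nat.le_or_le b c with hbc | hbc
  · obtain ⟨v, h1, h2, h3⟩ := root_one hsim hlong b c hbc h
    obtain ⟨e, he⟩ := hS v
    have h4 := sy_rel he le_rfl h1 (a := b) (b := c) (by omega)
    rw [h2, mul_one] at h4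
    refine ⟨v, h1, h3, ?_, ?_⟩
    · rw [h4]; exact neg_sgn_pm _ _ _
    · intro hb
      refine ⟨h2, ?_⟩
      rw [h4]
      unfold sgn
      rw [if_pos (by omega), if_pos (by omega)]
      norm_num
  · obtain ⟨v, h1, h2, h3⟩ := root_one hsim hlong c b hbc (by omega)
    refine ⟨v, h1, fun k h4 h5 => h3 k h5 h4, Or.inl h2, ?_⟩
    intro hb
    exfalso; omega

theorem exists_root (hS : ∀ f : M, ∃ c : ℤ, A f * Jm g * (A f).transpose = c • Jm g)
    (hsim : ∀ j, j + 1 < g → ∃ r, IsRoot A 1 j (2 * g - 2 - j) r)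
    (hlong : ∀ a, a < g → ∃ r, IsRoot A (2 * g - 1 - 2 * a) a a r) (h : ℕ) (hh : 1 ≤ h) :
    ∀ a b, a ≤ b → a + b + h + 1 = 2 * g → ∃ r, IsRoot A h a b r ∧
      (2 ≤ h → ∃ u ∈ lev A 1, ∃ v ∈ lev A 1, ∃ q : ℤ, q ≠ 0 ∧
        v * u * v⁻¹ * u⁻¹ * (r ^ q)⁻¹ ∈ lev A (h + 1)) := by
  induction h, hh using Nat.le_induction with
  | base =>
    intro a b hab h
    obtain ⟨r, hr⟩ := root_one hsim hlong a b hab (by omega)
    exact ⟨r, hr, fun h => absurd h (by norm_num)⟩
  | succ h hh ih =>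
    intro a b hab he
    obtain ⟨u, ⟨u1, u2, u3⟩, _⟩ := ih a (b + 1) (by omega) (by omega)
    obtain ⟨v, v1, v2, v3, v4⟩ := root_pair hS hsim hlong b (a + h) (by omega)
    have hw : v * u * v⁻¹ * u⁻¹ ∈ lev A (h + 1) := lev_comm v1 u1
    have hs := fun k => sy_comm hh v1 u1 k
    have hu1 : u ∈ lev A 1 := lev_anti hh u1
    -- zero outside
    have hz : ∀ k, k ≠ a → k ≠ b → sy A (h + 1) (v * u * v⁻¹ * u⁻¹) k = 0 := by
      intro k ka kb
      rw [hs k]
      have e1 : sy A 1 v k * sy A h u (k + 1) = 0 := by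
        by_cases hk : k = a + h
        · rw [u3 (k + 1) (by omega) (by omega), mul_zero]
        · rw [v2 k kb hk, zero_mul]
      have e2 : sy A h u k * sy A 1 v (k + h) = 0 := by
        by_cases hk : k = b + 1
        · rw [v2 (k + h) (by omega) (by omega), mul_zero]
        · rw [u3 k ka hk, zero_mul]
      rw [e1, e2, sub_zero]
    have ha := hs a
    rw [u2, one_mul] at ha
    rcases Nat.lt_or_ge a b with hlt | hge
    · rw [u3 (a + 1) (by omega) (by omega), mul_zero, zero_sub] at ha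
      rcases v3 with hv | hv
      · rw [hv] at ha
        refine ⟨(v * u * v⁻¹ * u⁻¹)⁻¹, ⟨inv_mem hw, ?_, ?_⟩, fun _ => ⟨u, hu1, v, v1, -1, by norm_num, ?_⟩⟩
        · rw [sy_inv (by omega) hw, ha]; norm_num
        · intro k ka kb
          rw [sy_inv (by omega) hw, hz k ka kb, neg_zero]
        · rw [zpow_neg_one, inv_inv, mul_inv_cancel]
          exact one_mem _
      · rw [hv] at ha
        refine ⟨v * u * v⁻¹ * u⁻¹, ⟨hw, ?_, ?_⟩, fun _ => ⟨u, hu1, v, v1, 1, by norm_num, ?_⟩⟩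
        · rw [ha]; norm_num
        · exact hz
        · rw [zpow_one, mul_inv_cancel]
          exact one_mem _
    · obtain rfl : a = b := by omega
      obtain ⟨w1, w2⟩ := v4 (by omega)
      obtain ⟨e, he'⟩ := hS u
      have h5 := sy_rel he' hh u1 (a := a) (b := a + 1) (by omega)
      have h6 : -(sgn g (a + h) * sgn g a) = 1 := by
        unfold sgn
        rw [if_neg (by omega), if_pos (by omega)]
        norm_num
      rw [h6, u2, one_mul] at h5
      rw [w1, h5, w2] at ha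
      obtain ⟨r, r1, r2, r3⟩ := hlong a (by omega)
      rw [show 2 * g - 1 - 2 * a = h + 1 by omega] at r1 r2 r3
      refine ⟨r, ⟨r1, r2, r3⟩, fun _ => ⟨u, hu1, v, v1, 2, by norm_num, ?_⟩⟩
      have hr2 : (r ^ (2 : ℤ))⁻¹ ∈ lev A (h + 1) := inv_mem (zpow_mem r1 2)
      refine mem_succ (by omega) (mul_mem hw hr2) ?_
      intro k
      rw [sy_mul (by omega) hw hr2, sy_inv (by omega) (zpow_mem r1 2), sy_zpow (by omega) r1]
      by_cases hk : k = a
      · rw [hk, ha, r2]; norm_num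
      · rw [hz k hk hk, r3 k hk hk]; norm_num

end Pool.Agent.H26.TG
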