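import Pool.Agent.H26.TG.Auts
import Pool.Agent.H26.TG.Mat

/-!
# Long root elements of the mapping class group

Part of `MP_c61994_al`.

* `root_of`: from the matrix. `IsRoot (Aout g) h a b (cls φ)` if `co (gi i) (φ (gen (gi j)))` is `1` for `i = j`, and for `i ≠ j`
  it is zero unless `i + h ≤ j`; and the entries `(k, k + h)` are `1` for `k = a` and `0` for `k ≠ a, b`. Use `mem_lev_of_low`
  (`1 ≤ h`), `Aout_cls`, `Amat_apply`, unfold `ent`, `Low`, `sy`.
* `long_root`: the twist `a_i ↦ a_i b_i` (`i = a`): `co p (φ (gen q)) = [p = q] + [q = a_i][p = b_i]`; the position of `b_i` is `a`, the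
  position of `a_i` is `2 g - 1 - a = a + h` with `h = 2 g - 1 - 2 a ≥ 1`.
-/

set_option autoImplicit false

namespace Pool.Agent.H26.TG

variable {g : ℕ}

private lemma ro_ent (φ : MulAut (SG g)) (i j : Fin (2 * g)) :
    ent (Amat g φ - 1) i j =
      co (gi i) (φ (PresentedGroup.of (gi j))) - if i = j then 1 else 0 := by
  rw [ent_fin, Matrix.sub_apply, Matrix.one_apply, Amat_apply]

private lemma ro_out (φ : MulAut (SG g)) {i j : ℕ} (h : ¬ (i < 2 * g ∧ j < 2 * g)) :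
    ent (Amat g φ - 1) i j = 0 := by
  unfold ent
  exact dif_neg h

private lemma ro_gi_inj {i j : Fin (2 * g)} (h : gi i = gi j) : i = j := by
  rw [← pos_gi i, h, pos_gi]

lemma root_of {h a b : ℕ} (hh : 1 ≤ h) (φ : MulAut (SG g))
    (h1 : ∀ j : Fin (2 * g), co (gi j) (φ (PresentedGroup.of (gi j))) = 1)
    (h2 : ∀ i j : Fin (2 * g), i ≠ j → (j : ℕ) < i + h → co (gi i) (φ (PresentedGroup.of (gi j))) = 0)
    (h3 : ∀ i j : Fin (2 * g), (i : ℕ) = a → (j : ℕ) = a + h →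
      co (gi i) (φ (PresentedGroup.of (gi j))) = 1) (hah : a + h < 2 * g)
    (h4 : ∀ i j : Fin (2 * g), (i : ℕ) ≠ a → (i : ℕ) ≠ b → (j : ℕ) = i + h →
      co (gi i) (φ (PresentedGroup.of (gi j))) = 0) :
    IsRoot (Aout g) h a b (cls φ) := by
  have hA : Aout g (cls φ) = Amat g φ := Aout_cls φ
  refine ⟨mem_lev_of_low hh ?_, ?_, ?_⟩
  · rw [hA]
    intro i j hij
    by_cases hr : i < 2 * g ∧ j < 2 * g
    · have h5 := ro_ent φ ⟨i, hr.1⟩ ⟨j, hr.2⟩
      refine h5.trans ?_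
      by_cases h6 : i = j
      · subst h6
        rw [if_pos rfl, h1 ⟨i, hr.1⟩, sub_self]
      · have h7 : (⟨i, hr.1⟩ : Fin (2 * g)) ≠ ⟨j, hr.2⟩ := fun h8 => h6 (Fin.mk.inj_iff.mp h8)
        rw [if_neg h7, sub_zero]
        exact h2 _ _ h7 hij
    · exact ro_out φ hr
  · unfold sy
    rw [hA]
    have h5 := ro_ent φ ⟨a, by omega⟩ ⟨a + h, hah⟩
    refine h5.trans ?_
    have h7 : (⟨a, by omega⟩ : Fin (2 * g)) ≠ ⟨a + h, hah⟩ := fun h8 => by
      have h9 := Fin.mk.inj_iff.mp h8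
      omega
    rw [if_neg h7, sub_zero]
    exact h3 _ _ rfl rfl
  · intro k hka hkb
    unfold sy
    rw [hA]
    by_cases hr : k < 2 * g ∧ k + h < 2 * g
    · have h5 := ro_ent φ ⟨k, hr.1⟩ ⟨k + h, hr.2⟩
      refine h5.trans ?_
      have h7 : (⟨k, hr.1⟩ : Fin (2 * g)) ≠ ⟨k + h, hr.2⟩ := fun h8 => by
        have h9 := Fin.mk.inj_iff.mp h8
        omega
      rw [if_neg h7, sub_zero]
      exact h4 _ _ hka hkb rfl
    · exact ro_out φ hr

/-- the coordinates of the twist `a_i ↦ a_i b_i` -/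
lemma co_twistB {i : Fin g} {φ : MulAut (SG g)}
    (h1 : φ (PresentedGroup.of (Sum.inl i)) =
      PresentedGroup.of (Sum.inl i) * PresentedGroup.of (Sum.inr i))
    (h2 : ∀ p : Gen g, p ≠ Sum.inl i → φ (PresentedGroup.of p) = PresentedGroup.of p) (p q : Gen g) :
    co p (φ (PresentedGroup.of q)) =
      (if q = p then 1 else 0) + if q = Sum.inl i ∧ p = Sum.inr i then 1 else 0 := by
  by_cases hq : q = Sum.inl i
  · subst hq
    rw [h1, co_mul, co_of, co_of]
    congr 1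
    by_cases hp : p = Sum.inr i
    · rw [if_pos hp.symm, if_pos ⟨rfl, hp⟩]
    · rw [if_neg (fun h => hp h.symm), if_neg (fun h => hp h.2)]
  · rw [h2 q hq, co_of, if_neg (fun h : q = Sum.inl i ∧ p = Sum.inr i => hq h.1), add_zero]

/-- the twist `a_i ↦ a_i b_i` is a long root element -/
lemma root_twistB {i : Fin g} {φ : MulAut (SG g)}
    (h1 : φ (PresentedGroup.of (Sum.inl i)) =
      PresentedGroup.of (Sum.inl i) * PresentedGroup.of (Sum.inr i))
    (h2 : ∀ p : Gen g, p ≠ Sum.inl i → φ (PresentedGroup.of p) = PresentedGroup.of p) :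
    IsRoot (Aout g) (2 * g - 1 - 2 * (i : ℕ)) i i (cls φ) := by
  have hi : (i : ℕ) < g := i.2
  have e1 : ∀ j : Fin (2 * g), gi j = Sum.inl i → (j : ℕ) = 2 * g - 1 - i := by
    intro j hj
    have h3 := pos_gi j
    rw [hj] at h3
    rw [← h3]
    rfl
  have e2 : ∀ j : Fin (2 * g), gi j = Sum.inr i → (j : ℕ) = i := by
    intro j hj
    have h3 := pos_gi j
    rw [hj] at h3
    rw [← h3]
    rfl
  have e1' : ∀ j : Fin (2 * g), (j : ℕ) = 2 * g - 1 - i → gi j = Sum.inl i := by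
    intro j hj
    have h3 : j = pos (Sum.inl i) := Fin.ext hj
    rw [h3, gi_pos]
  have e2' : ∀ j : Fin (2 * g), (j : ℕ) = i → gi j = Sum.inr i := by
    intro j hj
    have h3 : j = pos (Sum.inr i) := Fin.ext hj
    rw [h3, gi_pos]
  refine root_of (by omega) φ ?_ ?_ ?_ (by omega) ?_
  · intro j
    rw [co_twistB h1 h2, if_pos rfl, if_neg, add_zero]
    rintro ⟨h3, h4⟩
    rw [h3] at h4
    exact absurd h4 (by simp)
  · intro j k hjk hlt
    rw [co_twistB h1 h2, if_neg (fun h3 => hjk (ro_gi_inj h3).symm), if_neg, add_zero]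
    rintro ⟨h3, h4⟩
    have h5 := e1 _ h3
    have h6 := e2 _ h4
    omega
  · intro j k hj hk
    have h3 := e2' j hj
    have h4 := e1' k (by omega)
    rw [co_twistB h1 h2, if_neg, if_pos ⟨h4, h3⟩, zero_add]
    rw [h3, h4]
    simp
  · intro j k hj _ hk
    rw [co_twistB h1 h2, if_neg, if_neg, add_zero]
    · rintro ⟨-, h4⟩
      exact hj (e2 _ h4)
    · intro h3
      have h5 := ro_gi_inj h3
      rw [h5] at hk
      omega

theorem long_root (a : ℕ) (ha : a < g) : ∃ r, IsRoot (Aout g) (2 * g - 1 - 2 * a) a a r := by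
  obtain ⟨φ, h1, h2⟩ := exists_twistB (g := g) ⟨a, ha⟩
  exact ⟨cls φ, root_twistB h1 h2⟩

end Pool.Agent.H26.TG
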