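import Pool.Agent.H26.TG.LinMain

/-!
# Surface groups, outer automorphisms and the Torelli group: definitions

Part of `MP_c61994_al`. `SG g` is the surface group of genus `g` as in the frozen statement `S03007`; `OutG`, `torelli` too.
The generator `inl i` is `a_i`, `inr i` is `b_i`. The flag basis is `b_0, …, b_(g-1), a_(g-1), …, a_0`; `gi j` is
the generator at the position `j`, `pos` the position of a generator.
-/

set_option autoImplicit false

namespace Pool.Agent.H26.TG

/-- generators -/
abbrev Gen (g : ℕ) : Type := Fin g ⊕ Fin g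

/-- the relator: the product of the commutators of `a_i` and `b_i` -/
def relator (g : ℕ) : FreeGroup (Fin g ⊕ Fin g) :=
  ((List.finRange g).map (fun i : Fin g =>
    (FreeGroup.of (Sum.inl i) : FreeGroup (Fin g ⊕ Fin g)) *
    (FreeGroup.of (Sum.inr i) : FreeGroup (Fin g ⊕ Fin g)) *
    (FreeGroup.of (Sum.inl i) : FreeGroup (Fin g ⊕ Fin g))⁻¹ *
    (FreeGroup.of (Sum.inr i) : FreeGroup (Fin g ⊕ Fin g))⁻¹)).prod

/-- the fundamental group of the closed orientable surface of genus `g` -/
abbrev SG (g : ℕ) : Type := PresentedGroup ({relator g} : Set (FreeGroup (Fin g ⊕ Fin g)))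

/-- outer automorphisms -/
abbrev OutG (Γ : Type) [Group Γ] : Type :=
  MulAut Γ ⧸ Subgroup.normalClosure (Set.range (MulAut.conj : Γ →* MulAut Γ))

/-- the outer class of an automorphism -/
def cls {Γ : Type} [Group Γ] : MulAut Γ →* OutG Γ :=
  QuotientGroup.mk' (Subgroup.normalClosure (Set.range (MulAut.conj : Γ →* MulAut Γ)))

/-- the Torelli group: outer classes of automorphisms acting trivially on the abelianisation -/
def torelli (Γ : Type) [Group Γ] : Subgroup (OutG Γ) :=
  (Subgroup.closure
    {φ : MulAut Γ | ∀ x : Γ, Abelianization.of (φ x) = Abelianization.of x}).map cls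

/-- the flag basis: `b_0, …, b_(g-1), a_(g-1), …, a_0` -/
def gi {g : ℕ} (j : Fin (2 * g)) : Gen g :=
  if h : (j : ℕ) < g then Sum.inr ⟨j, h⟩ else Sum.inl ⟨2 * g - 1 - j, by omega⟩

/-- the position in the flag basis -/
def pos {g : ℕ} : Gen g → Fin (2 * g)
  | Sum.inl i => ⟨2 * g - 1 - i, by omega⟩
  | Sum.inr i => ⟨i, by omega⟩

lemma gi_pos {g : ℕ} (p : Gen g) : gi (pos p) = p := by
  rcases p with i | i
  · have h : ¬ (2 * g - 1 - (i : ℕ) < g) := by omega
    simp only [gi, pos, h, dite_false]
    congr 1
    apply Fin.ext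
    simp only
    omega
  · simp [gi, pos]

lemma pos_gi {g : ℕ} (j : Fin (2 * g)) : pos (gi j) = j := by
  unfold gi
  split_ifs with h
  · rfl
  · apply Fin.ext
    simp only [pos]
    omega

/-- the subgroup of the homology generated by the first `k` elements of the flag basis -/
def flag (g k : ℕ) : Subgroup (Abelianization (SG g)) :=
  Subgroup.closure {x | ∃ j : Fin (2 * g), (j : ℕ) < k ∧
    x = Abelianization.of (PresentedGroup.of (gi j))}

end Pool.Agent.H26.TG
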