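import Mathlib

/-!
# Segments of translates in a semilattice with a group action

Part of `MP_c61994_al` (Torelli groups and unipotent enlargements), helper26.

`L` is a join semilattice with bottom, `act` a monotone action of a group `Γ` on it, `T : Γ`, `B : L` and
`seg act T B a b = ⋁_{a ≤ i ≤ b} T^i B`.

* `Act.sup`: `act g` is monotone with monotone inverse `act g⁻¹` (`mul`, `one`), so it preserves joins;
  `Act.bot` the same (`⊥ ≤ act g⁻¹ ⊥`).
* `le_seg`, `seg_le`, `seg_mono`: `Finset.le_sup`, `Finset.sup_le`, `Finset.mem_Icc`.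
* `act_seg_le`: `act g` of a finite join is the finite join of the `act g` (induction over the finset, or
  `Finset.comp_sup_eq_sup_comp` with `Act.sup`, `Act.bot`).
* `act_zpow_seg`: `T^k T^i = T^(i+k)`; prove `≤` with `act_seg_le`, `le_seg`; then `≥` from `≤` for `-k`.
* `bounded`: for `i ≥ 0` (induction on `i : ℕ`) `act A (act (T^i) B) ≤ seg (-m) (i+m)`:
  `i = 0` is `h0`; `A T^(i+1) B = (A T) (T^i B) ≤ (T A) (T^i B) ⊔ seg (-m) m ≤ T seg (-m) (i+m) ⊔ seg (-m) m
  = seg (1-m) (i+1+m) ⊔ seg (-m) m ≤ seg (-m) (i+1+m)`. In the same way `act A (act (T^(-i)) B) ≤ seg (-i-m) m`.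
  Then `act_seg_le`, `seg_mono`.
-/

set_option autoImplicit false

namespace Pool.Agent.H26.TG

/-- monotone action of a group on a semilattice -/
structure Act {Γ L : Type*} [Group Γ] [SemilatticeSup L] (act : Γ → L → L) : Prop where
  one : ∀ x, act 1 x = x
  mul : ∀ g h x, act (g * h) x = act g (act h x)
  mono : ∀ g x y, x ≤ y → act g x ≤ act g y

/-- join of the translates `T ^ i B`, `a ≤ i ≤ b` -/
noncomputable def seg {Γ L : Type*} [Group Γ] [SemilatticeSup L] [OrderBot L] (act : Γ → L → L)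
    (T : Γ) (B : L) (a b : ℤ) : L :=
  (Finset.Icc a b).sup fun i => act (T ^ i) B

variable {Γ L : Type*} [Group Γ] [SemilatticeSup L] [OrderBot L] {act : Γ → L → L} {T : Γ} {B : L}

omit [OrderBot L] in
lemma Act.inv_act (h : Act act) (g : Γ) (x : L) : act g⁻¹ (act g x) = x := by
  rw [← h.mul, inv_mul_cancel, h.one]

omit [OrderBot L] in
lemma Act.act_inv (h : Act act) (g : Γ) (x : L) : act g (act g⁻¹ x) = x := by
  rw [← h.mul, mul_inv_cancel, h.one]

lemma Act.sup (h : Act act) (g : Γ) (x y : L) : act g (x ⊔ y) = act g x ⊔ act g y := by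
  apply le_antisymm
  · have h1 : x ⊔ y ≤ act g⁻¹ (act g x ⊔ act g y) := by
      apply sup_le
      · have h2 := h.mono g⁻¹ _ _ (le_sup_left : act g x ≤ act g x ⊔ act g y)
        rwa [h.inv_act] at h2
      · have h2 := h.mono g⁻¹ _ _ (le_sup_right : act g y ≤ act g x ⊔ act g y)
        rwa [h.inv_act] at h2
    have h3 := h.mono g _ _ h1
    rwa [h.act_inv] at h3
  · exact sup_le (h.mono g _ _ le_sup_left) (h.mono g _ _ le_sup_right)

lemma Act.bot (h : Act act) (g : Γ) : act g ⊥ = ⊥ := by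
  apply le_antisymm _ bot_le
  have h1 := h.mono g _ _ (bot_le : (⊥ : L) ≤ act g⁻¹ ⊥)
  rwa [h.act_inv] at h1

lemma le_seg {a b i : ℤ} (h1 : a ≤ i) (h2 : i ≤ b) : act (T ^ i) B ≤ seg act T B a b :=
  Finset.le_sup (f := fun i : ℤ => act (T ^ i) B) (Finset.mem_Icc.2 ⟨h1, h2⟩)

lemma seg_le {a b : ℤ} {z : L} (h : ∀ i, a ≤ i → i ≤ b → act (T ^ i) B ≤ z) :
    seg act T B a b ≤ z := by
  apply Finset.sup_le
  intro i hi
  rw [Finset.mem_Icc] at hi
  exact h i hi.1 hi.2

lemma seg_mono {a b a' b' : ℤ} (h1 : a' ≤ a) (h2 : b ≤ b') :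
    seg act T B a b ≤ seg act T B a' b' :=
  seg_le fun _ hi hi' => le_seg (h1.trans hi) (hi'.trans h2)

lemma act_seg_le (h : Act act) {g : Γ} {a b : ℤ} {z : L}
    (hz : ∀ i, a ≤ i → i ≤ b → act g (act (T ^ i) B) ≤ z) : act g (seg act T B a b) ≤ z := by
  have h1 : seg act T B a b ≤ act g⁻¹ z := by
    apply seg_le
    intro i hi hi'
    have h2 := h.mono g⁻¹ _ _ (hz i hi hi')
    rwa [h.inv_act] at h2
  have h3 := h.mono g _ _ h1
  rwa [h.act_inv] at h3

private lemma act_zpow_seg_le (h : Act act) (k a b : ℤ) :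
    act (T ^ k) (seg act T B a b) ≤ seg act T B (a + k) (b + k) := by
  apply act_seg_le h
  intro i hi hi'
  rw [← h.mul, ← zpow_add]
  exact le_seg (by omega) (by omega)

lemma act_zpow_seg (h : Act act) (k a b : ℤ) :
    act (T ^ k) (seg act T B a b) = seg act T B (a + k) (b + k) := by
  apply le_antisymm (act_zpow_seg_le h k a b)
  have h1 := act_zpow_seg_le (T := T) (B := B) h (-k) (a + k) (b + k)
  rw [add_neg_cancel_right, add_neg_cancel_right] at h1
  have h2 := h.mono (T ^ k) _ _ h1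
  rwa [← h.mul, ← zpow_add, add_neg_cancel, zpow_zero, h.one] at h2

lemma bounded (h : Act act) {A : Γ} {m : ℕ} (h0 : act A B ≤ seg act T B (-m) m)
    (h1 : ∀ Z, act (A * T) Z ≤ act (T * A) Z ⊔ seg act T B (-m) m)
    (h2 : ∀ Z, act (A * T⁻¹) Z ≤ act (T⁻¹ * A) Z ⊔ seg act T B (-m) m) {a b : ℤ} (ha : a ≤ 0)
    (hb : 0 ≤ b) : act A (seg act T B a b) ≤ seg act T B (a - m) (b + m) := by
  have hup : ∀ i : ℕ, act A (act (T ^ (i : ℤ)) B) ≤ seg act T B (-m) (i + m) := by
    intro i
    induction i with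
    | zero =>
      simp only [Nat.cast_zero, zpow_zero, zero_add]
      rw [h.one]
      exact h0
    | succ i ih =>
      have e1 : act A (act (T ^ ((i + 1 : ℕ) : ℤ)) B) = act (A * T) (act (T ^ (i : ℤ)) B) := by
        rw [← h.mul, ← h.mul, mul_assoc]
        congr 2
        rw [← zpow_one_add]
        congr 1
        push_cast
        ring
      rw [e1]
      refine (h1 _).trans (sup_le ?_ (seg_mono le_rfl (by push_cast; omega)))
      rw [h.mul]
      refine (h.mono T _ _ ih).trans ?_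
      have e2 := act_zpow_seg (T := T) (B := B) h 1 (-(m : ℤ)) ((i : ℤ) + m)
      rw [zpow_one] at e2
      rw [e2]
      exact seg_mono (by omega) (by push_cast; omega)
  have hdn : ∀ i : ℕ, act A (act (T ^ (-(i : ℤ))) B) ≤ seg act T B (-(i : ℤ) - m) m := by
    intro i
    induction i with
    | zero =>
      simp only [Nat.cast_zero, neg_zero, zpow_zero, zero_sub]
      rw [h.one]
      exact h0
    | succ i ih =>
      have e1 : act A (act (T ^ (-((i + 1 : ℕ) : ℤ))) B) =
          act (A * T⁻¹) (act (T ^ (-(i : ℤ))) B) := by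
        rw [← h.mul, ← h.mul, mul_assoc]
        congr 2
        rw [← zpow_neg_one, ← zpow_add]
        congr 1
        push_cast
        ring
      rw [e1]
      refine (h2 _).trans (sup_le ?_ (seg_mono (by push_cast; omega) le_rfl))
      rw [h.mul]
      refine (h.mono T⁻¹ _ _ ih).trans ?_
      have e2 := act_zpow_seg (T := T) (B := B) h (-1) (-(i : ℤ) - m) (m : ℤ)
      rw [zpow_neg_one] at e2
      rw [e2]
      exact seg_mono (by push_cast; omega) (by omega)
  apply act_seg_le h
  intro i hi hi'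
  rcases le_total 0 i with hi0 | hi0
  · obtain ⟨n, rfl⟩ := Int.eq_ofNat_of_zero_le hi0
    exact (hup n).trans (seg_mono (by omega) (by omega))
  · obtain ⟨n, hn⟩ := Int.eq_ofNat_of_zero_le (neg_nonneg.2 hi0)
    have hn' : i = -(n : ℤ) := by omega
    subst hn'
    exact (hdn n).trans (seg_mono (by omega) (by omega))

end Pool.Agent.H26.TG
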