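import Pool.Agent.H26.TG.RelP

/-!
# The twist about a curve through two handles

Part of `MP_c61994_al`. By `exists_aut`. With `d = b_j⁻¹ a_k`, `k = j + 1`:
`a_j ↦ a_j d⁻¹, b_j ↦ d b_j d⁻¹, a_k ↦ d a_k d⁻¹, b_k ↦ b_k d⁻¹`; this fixes `d`; inverse: the same with `d⁻¹`
instead of `d`: `a_j ↦ a_j d, b_j ↦ d⁻¹ b_j d, a_k ↦ d⁻¹ a_k d, b_k ↦ b_k d`, which also fixes `d`. The relator goes to `1`:
`relator_lift`, `sg_rel` and `prod_two`, with
`[a_j d⁻¹, d b_j d⁻¹] [d a_k d⁻¹, b_k d⁻¹] = a_j b_j a_j⁻¹ (d b_j⁻¹ a_k d⁻¹) b_k a_k⁻¹ b_k⁻¹ = a_j b_j a_j⁻¹ d b_k a_k⁻¹ b_k⁻¹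
= [a_j, b_j] [a_k, b_k]` (`group` after substituting `d`), and the same for the inverse. `h1`: for `F` with the images `f`,
`F d = d` (compute `F (b_j)⁻¹ F (a_k)`), so for example `F (a_j d) = a_j d⁻¹ d = a_j`.
-/

set_option autoImplicit false

namespace Pool.Agent.H26.TG

variable {g : ℕ}

/-- the images of the generators -/
noncomputable def slideF (j k : Fin g) (e : SG g) : Gen g → SG g := fun p =>
  if p = Sum.inl j then PresentedGroup.of p * e⁻¹
  else if p = Sum.inr j then e * PresentedGroup.of p * e⁻¹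
  else if p = Sum.inl k then e * PresentedGroup.of p * e⁻¹
  else if p = Sum.inr k then PresentedGroup.of p * e⁻¹
  else PresentedGroup.of p

lemma slideF_lj (j k : Fin g) (e : SG g) :
    slideF j k e (Sum.inl j) = PresentedGroup.of (Sum.inl j) * e⁻¹ := by
  unfold slideF
  rw [if_pos rfl]

lemma slideF_rj (j k : Fin g) (e : SG g) :
    slideF j k e (Sum.inr j) = e * PresentedGroup.of (Sum.inr j) * e⁻¹ := by
  unfold slideF
  rw [if_neg (by simp), if_pos rfl]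

lemma slideF_lk (j k : Fin g) (hjk : k ≠ j) (e : SG g) :
    slideF j k e (Sum.inl k) = e * PresentedGroup.of (Sum.inl k) * e⁻¹ := by
  unfold slideF
  rw [if_neg (by simpa using hjk), if_neg (by simp), if_pos rfl]

lemma slideF_rk (j k : Fin g) (hjk : k ≠ j) (e : SG g) :
    slideF j k e (Sum.inr k) = PresentedGroup.of (Sum.inr k) * e⁻¹ := by
  unfold slideF
  rw [if_neg (by simp), if_neg (by simpa using hjk), if_neg (by simp), if_pos rfl]

lemma slideF_ne (j k : Fin g) (e : SG g) (p : Gen g) (h1 : p ≠ Sum.inl j) (h2 : p ≠ Sum.inr j)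
    (h3 : p ≠ Sum.inl k) (h4 : p ≠ Sum.inr k) : slideF j k e p = PresentedGroup.of p := by
  unfold slideF
  rw [if_neg h1, if_neg h2, if_neg h3, if_neg h4]

lemma two_comm {G : Type*} [Group G] (a b a' b' e : G) (he : e * (b⁻¹ * a') * e⁻¹ = b⁻¹ * a') :
    a * e⁻¹ * (e * b * e⁻¹) * (a * e⁻¹)⁻¹ * (e * b * e⁻¹)⁻¹ *
      (e * a' * e⁻¹ * (b' * e⁻¹) * (e * a' * e⁻¹)⁻¹ * (b' * e⁻¹)⁻¹) =
    a * b * a⁻¹ * b⁻¹ * (a' * b' * a'⁻¹ * b'⁻¹) := by
  have h1 : a * e⁻¹ * (e * b * e⁻¹) * (a * e⁻¹)⁻¹ * (e * b * e⁻¹)⁻¹ *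
      (e * a' * e⁻¹ * (b' * e⁻¹) * (e * a' * e⁻¹)⁻¹ * (b' * e⁻¹)⁻¹) =
      a * b * a⁻¹ * (e * (b⁻¹ * a') * e⁻¹) * b' * a'⁻¹ * b'⁻¹ := by
    group
  rw [h1, he]
  group

lemma slideF_rel (j k : Fin g) (hk : (k : ℕ) = j + 1) (e : SG g)
    (he : e * ((PresentedGroup.of (Sum.inr j))⁻¹ * PresentedGroup.of (Sum.inl k)) * e⁻¹ =
      (PresentedGroup.of (Sum.inr j))⁻¹ * PresentedGroup.of (Sum.inl k)) :
    FreeGroup.lift (slideF j k e) (relator g) = 1 := by
  have hjk : k ≠ j := by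
    intro h
    rw [h] at hk
    omega
  have hj1 : (j : ℕ) + 1 < g := by
    rw [← hk]
    exact k.2
  rw [relator_lift, ← sg_rel g]
  refine prod_two _ _ j hj1 ?_ ?_
  · intro i hi1 hi2
    have h1 : i ≠ j := fun h => hi1 (by rw [h])
    have h2 : i ≠ k := fun h => hi2 (by rw [h, hk])
    rw [slideF_ne j k e (Sum.inl i) (by simpa using h1) (by simp) (by simpa using h2) (by simp),
      slideF_ne j k e (Sum.inr i) (by simp) (by simpa using h1) (by simp) (by simpa using h2)]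
  · have e1 : (⟨(j : ℕ), by omega⟩ : Fin g) = j := rfl
    have e2 : (⟨(j : ℕ) + 1, hj1⟩ : Fin g) = k := Fin.ext hk.symm
    rw [e1, e2]
    rw [slideF_lj, slideF_rj, slideF_lk j k hjk, slideF_rk j k hjk]
    exact two_comm _ _ _ _ _ he

lemma slideF_inv (j k : Fin g) (hjk : k ≠ j) (d e e' : SG g)
    (hd : d = (PresentedGroup.of (Sum.inr j))⁻¹ * PresentedGroup.of (Sum.inl k))
    (he : e * d * e⁻¹ = d) (hee : e' = e⁻¹)
    (hed : ∀ F : SG g →* SG g, F d = d → F e' = e')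
    (F : SG g →* SG g) (hF : ∀ p, F (PresentedGroup.of p) = slideF j k e p) (p : Gen g) :
    F (slideF j k e' p) = PresentedGroup.of p := by
  have hFd : F d = d := by
    rw [hd, map_mul, map_inv, hF, hF, slideF_rj, slideF_lk j k hjk]
    rw [hd] at he
    conv_rhs => rw [← he]
    group
  have hFe := hed F hFd
  by_cases h1 : p = Sum.inl j
  · subst h1
    rw [slideF_lj, map_mul, map_inv, hF, hFe, slideF_lj, hee]
    group
  by_cases h2 : p = Sum.inr j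
  · subst h2
    rw [slideF_rj, map_mul, map_mul, map_inv, hF, hFe, slideF_rj, hee]
    group
  by_cases h3 : p = Sum.inl k
  · subst h3
    rw [slideF_lk j k hjk, map_mul, map_mul, map_inv, hF, hFe, slideF_lk j k hjk, hee]
    group
  by_cases h4 : p = Sum.inr k
  · subst h4
    rw [slideF_rk j k hjk, map_mul, map_inv, hF, hFe, slideF_rk j k hjk, hee]
    group
  rw [slideF_ne j k e' p h1 h2 h3 h4, hF, slideF_ne j k e p h1 h2 h3 h4]

theorem exists_slide (j k : Fin g) (hk : (k : ℕ) = j + 1) {d : SG g}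
    (hd : d = (PresentedGroup.of (Sum.inr j))⁻¹ * PresentedGroup.of (Sum.inl k)) :
    ∃ φ : MulAut (SG g),
    φ (PresentedGroup.of (Sum.inl j)) = PresentedGroup.of (Sum.inl j) * d⁻¹ ∧
    φ (PresentedGroup.of (Sum.inr j)) = d * PresentedGroup.of (Sum.inr j) * d⁻¹ ∧
    φ (PresentedGroup.of (Sum.inl k)) = d * PresentedGroup.of (Sum.inl k) * d⁻¹ ∧
    φ (PresentedGroup.of (Sum.inr k)) = PresentedGroup.of (Sum.inr k) * d⁻¹ ∧
    ∀ p : Gen g, p ≠ Sum.inl j → p ≠ Sum.inr j → p ≠ Sum.inl k → p ≠ Sum.inr k →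
      φ (PresentedGroup.of p) = PresentedGroup.of p := by
  have hjk : k ≠ j := by
    intro h
    rw [h] at hk
    omega
  have c1 : d * d * d⁻¹ = d := by group
  have c2 : d⁻¹ * d * d⁻¹⁻¹ = d := by group
  obtain ⟨φ, hφ⟩ := exists_aut (slideF j k d) (slideF j k d⁻¹)
    (slideF_rel j k hk d (by rw [← hd]; exact c1))
    (slideF_rel j k hk d⁻¹ (by rw [← hd]; exact c2))
    (fun F hF p => slideF_inv j k hjk d d d⁻¹ hd c1 rfl
      (fun F' h => by rw [map_inv, h]) F hF p)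
    (fun F hF p => slideF_inv j k hjk d d⁻¹ d hd c2 (inv_inv d).symm
      (fun F' h => h) F hF p)
  refine ⟨φ, ?_, ?_, ?_, ?_, ?_⟩
  · rw [hφ, slideF_lj]
  · rw [hφ, slideF_rj]
  · rw [hφ, slideF_lk j k hjk]
  · rw [hφ, slideF_rk j k hjk]
  · intro p h1 h2 h3 h4
    rw [hφ, slideF_ne j k d p h1 h2 h3 h4]

end Pool.Agent.H26.TG
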