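import Pool.Agent.H26.TG.RootOf
import Pool.Agent.H26.TG.Slide

/-!
# Simple root elements of the mapping class group

Part of `MP_c61994_al`.

* `exists_simple`: `k = j + 1`; `φ = s * β⁻¹ * α`, `s` the slide (`exists_slide`), `β` the twist `a_j ↦ a_j b_j`, `α` the twist
  `b_k ↦ b_k a_k`. `β⁻¹ a_j = a_j b_j⁻¹`, and `β⁻¹` fixes the other generators. So `φ a_j = s (a_j b_j⁻¹) = a_j d⁻¹ d b_j⁻¹ d⁻¹`,
  `φ b_k = s (b_k a_k) = b_k d⁻¹ d a_k d⁻¹`, `φ b_j = d b_j d⁻¹`, `φ a_k = d a_k d⁻¹`, the others fixed, `d = b_j⁻¹ a_k`. On coordinates: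
  `φ a_j = a_j - a_k`, `φ b_k = b_k + b_j`, identity on the others (`co_mul`, `co_inv`, `co_of`).
* `simple_root`: `root_of` with `h = 1`, `a = j`, `b = 2 g - 2 - j`. Positions: `b_k` at `j + 1`, `b_j` at `j`, `a_j` at `2 g - 1 - j`,
  `a_k` at `2 g - 2 - j`.
-/

set_option autoImplicit false

namespace Pool.Agent.H26.TG

variable {g : ℕ}

/-- the coordinates of the simple root element -/
lemma exists_simple (j k : Fin g) (hk : (k : ℕ) = j + 1) : ∃ φ : MulAut (SG g), ∀ p q : Gen g,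
    co p (φ (PresentedGroup.of q)) = (if q = p then 1 else 0) +
      (if q = Sum.inr k ∧ p = Sum.inr j then 1 else 0) -
      (if q = Sum.inl j ∧ p = Sum.inl k then 1 else 0) := by
  have hjk : k ≠ j := by
    intro h
    rw [h] at hk
    omega
  obtain ⟨s, s1, s2, s3, s4, s5⟩ := exists_slide j k hk rfl
  obtain ⟨β, b1, b2⟩ := exists_twistB j
  obtain ⟨α, a1, a2⟩ := exists_twistA k
  set d : SG g := (PresentedGroup.of (Sum.inr j))⁻¹ * PresentedGroup.of (Sum.inl k) with hd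
  have hβ1 : β⁻¹ (PresentedGroup.of (Sum.inl j)) =
      PresentedGroup.of (Sum.inl j) * (PresentedGroup.of (Sum.inr j))⁻¹ := by
    rw [MulAut.inv_apply, MulEquiv.symm_apply_eq, map_mul, map_inv, b1, b2 _ (by simp)]
    exact (mul_inv_cancel_right _ _).symm
  have hβ2 : ∀ p : Gen g, p ≠ Sum.inl j →
      β⁻¹ (PresentedGroup.of p) = PresentedGroup.of p := by
    intro p hp
    rw [MulAut.inv_apply, MulEquiv.symm_apply_eq, b2 p hp]
  refine ⟨s * β⁻¹ * α, ?_⟩
  intro p q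
  rw [MulAut.mul_apply, MulAut.mul_apply]
  have hcd : co p d = (if (Sum.inl k : Gen g) = p then 1 else 0) -
      (if (Sum.inr j : Gen g) = p then 1 else 0) := by
    rw [hd, co_mul, co_inv, co_of, co_of]
    ring
  by_cases h1 : q = Sum.inl j
  · subst h1
    rw [a2 _ (by simp), hβ1, map_mul, map_inv, s1, s2]
    have e1 : (if (Sum.inl j : Gen g) = Sum.inr k ∧ p = Sum.inr j then (1 : ℤ) else 0) = 0 :=
      if_neg (by simp)
    have e2 : (if (Sum.inl j : Gen g) = Sum.inl j ∧ p = Sum.inl k then (1 : ℤ) else 0) =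
        if (Sum.inl k : Gen g) = p then 1 else 0 := by
      by_cases hp : p = Sum.inl k
      · rw [if_pos ⟨rfl, hp⟩, if_pos hp.symm]
      · rw [if_neg (fun h => hp h.2), if_neg (fun h => hp h.symm)]
    rw [e1, e2]
    simp only [co_mul, co_inv, co_of, hcd]
    ring
  by_cases h2 : q = Sum.inr k
  · subst h2
    rw [a1, map_mul, hβ2 _ (by simp), hβ2 _ (by simpa using hjk), map_mul, s4, s3]
    have e1 : (if (Sum.inr k : Gen g) = Sum.inr k ∧ p = Sum.inr j then (1 : ℤ) else 0) =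
        if (Sum.inr j : Gen g) = p then 1 else 0 := by
      by_cases hp : p = Sum.inr j
      · rw [if_pos ⟨rfl, hp⟩, if_pos hp.symm]
      · rw [if_neg (fun h => hp h.2), if_neg (fun h => hp h.symm)]
    have e2 : (if (Sum.inr k : Gen g) = Sum.inl j ∧ p = Sum.inl k then (1 : ℤ) else 0) = 0 :=
      if_neg (by simp)
    rw [e1, e2]
    simp only [co_mul, co_inv, co_of, hcd]
    ring
  have e1 : (if q = Sum.inr k ∧ p = Sum.inr j then (1 : ℤ) else 0) = 0 :=
    if_neg (fun h => h2 h.1)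
  have e2 : (if q = Sum.inl j ∧ p = Sum.inl k then (1 : ℤ) else 0) = 0 :=
    if_neg (fun h => h1 h.1)
  rw [e1, e2, add_zero, sub_zero, a2 q h2, hβ2 q h1]
  by_cases h3 : q = Sum.inr j
  · subst h3
    rw [s2]
    simp only [co_mul, co_inv, co_of]
    ring
  by_cases h4 : q = Sum.inl k
  · subst h4
    rw [s3]
    simp only [co_mul, co_inv, co_of]
    ring
  rw [s5 q h1 h3 h4 h2, co_of]

theorem simple_root (j : ℕ) (hj : j + 1 < g) : ∃ r, IsRoot (Aout g) 1 j (2 * g - 2 - j) r := by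
  obtain ⟨φ, hφ⟩ := exists_simple (g := g) ⟨j, by omega⟩ ⟨j + 1, hj⟩ rfl
  have hgi : ∀ (x : Fin (2 * g)) (p : Gen g), gi x = p ↔ (x : ℕ) = (pos p : ℕ) := by
    intro x p
    constructor
    · intro h
      rw [← h, pos_gi]
    · intro h
      have h' : x = pos p := Fin.ext h
      rw [h', gi_pos]
  have hE : ∀ x y : Fin (2 * g), co (gi x) (φ (PresentedGroup.of (gi y))) =
      (if (y : ℕ) = x then 1 else 0) + (if (y : ℕ) = j + 1 ∧ (x : ℕ) = j then 1 else 0) -
        (if (y : ℕ) = 2 * g - 1 - j ∧ (x : ℕ) = 2 * g - 1 - (j + 1) then 1 else 0) := by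
    intro x y
    rw [hφ (gi x) (gi y)]
    have c1 : (gi y = gi x) ↔ (y : ℕ) = x := by
      rw [hgi y (gi x), pos_gi]
    have c2 : (gi y = Sum.inr ⟨j + 1, hj⟩ ∧ gi x = Sum.inr ⟨j, by omega⟩) ↔
        ((y : ℕ) = j + 1 ∧ (x : ℕ) = j) := by
      rw [hgi y, hgi x]
      rfl
    have c3 : (gi y = Sum.inl ⟨j, by omega⟩ ∧ gi x = Sum.inl ⟨j + 1, hj⟩) ↔
        ((y : ℕ) = 2 * g - 1 - j ∧ (x : ℕ) = 2 * g - 1 - (j + 1)) := by
      rw [hgi y, hgi x]
      rfl
    simp only [c1, c2, c3]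
  refine ⟨cls φ, root_of (h := 1) (a := j) (b := 2 * g - 2 - j) le_rfl φ ?_ ?_ ?_ ?_ ?_⟩
  · intro y
    rw [hE, if_pos rfl, if_neg (by omega), if_neg (by omega)]
    norm_num
  · intro x y hxy hlt
    have hne : (y : ℕ) ≠ x := fun h => hxy (Fin.ext h.symm)
    rw [hE, if_neg hne, if_neg (by omega), if_neg (by omega)]
    norm_num
  · intro x y hx hy
    rw [hE, if_neg (by omega), if_pos ⟨by omega, hx⟩, if_neg (by omega)]
    norm_num
  · omega
  · intro x y hx1 hx2 hy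
    rw [hE, if_neg (by omega), if_neg (by omega), if_neg (by omega)]
    norm_num

end Pool.Agent.H26.TG
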