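import Pool.Agent.H26.TG.Form

/-!
# Pointwise stabilisers of coisotropic summands

Part of `MP_c61994_al`. `fixG X` is the group of the outer classes of automorphisms which fix the homology classes of the
generators in `X`. If `X` contains all `b_i` and `a_(g-1)`, then it acts at level `2` (even `3`).
-/

set_option autoImplicit false

namespace Pool.Agent.H26.TG

variable {g : ℕ}

/-- the outer classes which fix the homology classes of the generators in `X` -/
def fixG (g : ℕ) (X : Set (Gen g)) : Subgroup (OutG (SG g)) :=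
  (Subgroup.closure {φ : MulAut (SG g) | ∀ p ∈ X, Abelianization.of (φ (PresentedGroup.of p)) =
    Abelianization.of (PresentedGroup.of p)}).map cls

lemma torelli_le_fixG (X : Set (Gen g)) : torelli (SG g) ≤ fixG g X := by
  refine Subgroup.map_mono (Subgroup.closure_mono ?_)
  intro φ hφ p _
  exact hφ _

private lemma sgn_lt {i : ℕ} (h : i < g) : sgn g i = 1 := if_pos h

private lemma sgn_ge {i : ℕ} (h : g ≤ i) : sgn g i = -1 := if_neg (by omega)

/-- the form in the case that the first `g` columns are unit vectors -/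
private lemma form_cols {A : Matrix (Fin (2 * g)) (Fin (2 * g)) ℤ} {c : ℤ}
    (hA : A * Jm g * A.transpose = c • Jm g)
    (hcol : ∀ i j : Fin (2 * g), (j : ℕ) < g → A i j = if i = j then 1 else 0)
    (k l : Fin (2 * g)) :
    (if h : (k : ℕ) < g then A l ⟨2 * g - 1 - k, by omega⟩ else 0) -
      (if h : (l : ℕ) < g then A k ⟨2 * g - 1 - l, by omega⟩ else 0) =
      c * (if (k : ℕ) + l + 1 = 2 * g then sgn g k else 0) := by
  have h1 := congrFun (congrFun hA k) l
  rw [Matrix.smul_apply, smul_eq_mul] at h1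
  have h2 : (A * Jm g * A.transpose) k l =
      ∑ m : Fin (2 * g), A k m * (sgn g m * A l ⟨2 * g - 1 - m, by omega⟩) := by
    rw [Matrix.mul_assoc, Matrix.mul_apply]
    refine Finset.sum_congr rfl fun m _ => ?_
    congr 1
    rw [Matrix.mul_apply, Finset.sum_eq_single (⟨2 * g - 1 - m, by omega⟩ : Fin (2 * g))]
    · rw [Matrix.transpose_apply]
      congr 1
      unfold Jm
      rw [if_pos]
      simp only
      omega
    · intro b _ hb
      unfold Jm
      rw [if_neg, zero_mul]
      intro h3
      apply hb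
      apply Fin.ext
      simp only
      omega
    · intro h3
      exact absurd (Finset.mem_univ _) h3
  rw [h2] at h1
  have h3 : ∀ m : Fin (2 * g), A k m * (sgn g m * A l ⟨2 * g - 1 - m, by omega⟩) =
      (if (m : ℕ) < g ∧ k = m then A l ⟨2 * g - 1 - m, by omega⟩ else 0) -
      (if g ≤ (m : ℕ) ∧ l = (⟨2 * g - 1 - m, by omega⟩ : Fin (2 * g)) then A k m else 0) := by
    intro m
    by_cases hm : (m : ℕ) < g
    · have e1 : A k m = if k = m then 1 else 0 := hcol k m hm
      have e2 : ¬ (g ≤ (m : ℕ) ∧ l = (⟨2 * g - 1 - m, by omega⟩ : Fin (2 * g))) :=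
        fun h => absurd h.1 (by omega)
      rw [if_neg e2, sgn_lt hm, e1]
      by_cases hkm : k = m
      · rw [if_pos hkm, if_pos ⟨hm, hkm⟩]
        ring
      · rw [if_neg hkm, if_neg (fun h => hkm h.2)]
        ring
    · have e1 : A l ⟨2 * g - 1 - m, by omega⟩ =
          if l = (⟨2 * g - 1 - m, by omega⟩ : Fin (2 * g)) then 1 else 0 :=
        hcol l _ (show 2 * g - 1 - (m : ℕ) < g by omega)
      have e2 : ¬ ((m : ℕ) < g ∧ k = m) := fun h => hm h.1
      rw [if_neg e2, sgn_ge (by omega), e1]
      by_cases hlm : l = (⟨2 * g - 1 - m, by omega⟩ : Fin (2 * g))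
      · rw [if_pos hlm, if_pos ⟨by omega, hlm⟩]
        ring
      · rw [if_neg hlm, if_neg (fun h => hlm h.2)]
        ring
  rw [Finset.sum_congr rfl fun m _ => h3 m, Finset.sum_sub_distrib] at h1
  have h4 : ∑ m : Fin (2 * g), (if (m : ℕ) < g ∧ k = m then A l ⟨2 * g - 1 - m, by omega⟩ else 0) =
      (if h : (k : ℕ) < g then A l ⟨2 * g - 1 - k, by omega⟩ else 0) := by
    rw [Finset.sum_eq_single k]
    · by_cases hk : (k : ℕ) < g
      · rw [if_pos ⟨hk, rfl⟩, dif_pos hk]
      · rw [if_neg (fun h => hk h.1), dif_neg hk]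
    · intro b _ hb
      exact if_neg fun h => hb h.2.symm
    · intro h
      exact absurd (Finset.mem_univ _) h
  have h5 : ∑ m : Fin (2 * g), (if g ≤ (m : ℕ) ∧ l = (⟨2 * g - 1 - m, by omega⟩ : Fin (2 * g)) then
      A k m else 0) = (if h : (l : ℕ) < g then A k ⟨2 * g - 1 - l, by omega⟩ else 0) := by
    rw [Finset.sum_eq_single (⟨2 * g - 1 - l, by omega⟩ : Fin (2 * g))]
    · by_cases hl : (l : ℕ) < g
      · rw [if_pos ⟨by simp only; omega, by apply Fin.ext; simp only; omega⟩, dif_pos hl]
      · rw [if_neg (fun h => absurd h.1 (by simp only; omega)), dif_neg hl]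
    · intro b _ hb
      refine if_neg fun h => hb ?_
      apply Fin.ext
      have h6 := congrArg Fin.val h.2
      simp only at h6 ⊢
      omega
    · intro h
      exact absurd (Finset.mem_univ _) h
  rw [h4, h5] at h1
  exact h1

theorem fixG_le (hg : 1 ≤ g) {X : Set (Gen g)} (hb : ∀ i, Sum.inr i ∈ X)
    (ha : ∀ i : Fin g, (i : ℕ) + 1 = g → Sum.inl i ∈ X) : fixG g X ≤ lev (Aout g) 2 := by
  unfold fixG
  rw [Subgroup.map_le_iff_le_comap, Subgroup.closure_le]
  intro φ hφ
  change cls φ ∈ lev (Aout g) 2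
  obtain ⟨c, hc⟩ := Aout_symp (cls φ)
  rw [Aout_cls] at hc
  obtain ⟨A, hA⟩ : ∃ A, A = Amat g φ := ⟨_, rfl⟩
  rw [← hA] at hc
  -- the first `g + 1` columns
  have hcol : ∀ i j : Fin (2 * g), (j : ℕ) ≤ g → A i j = if i = j then 1 else 0 := by
    intro i j hj
    have h1 : gi j ∈ X := by
      unfold gi
      split_ifs with h
      · exact hb _
      · refine ha _ ?_
        simp only
        omega
    rw [hA, Amat_apply, co_eq_of (hφ _ h1), co_of]
    by_cases hij : i = j
    · rw [if_pos (by rw [hij]), if_pos hij]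
    · rw [if_neg, if_neg hij]
      intro h2
      apply hij
      rw [← pos_gi i, ← pos_gi j, h2]
  have hform := form_cols hc fun i j hj => hcol i j (by omega)
  -- the diagonal block
  have hD : ∀ l j : Fin (2 * g), g ≤ (l : ℕ) → g ≤ (j : ℕ) → A l j = if l = j then c else 0 := by
    intro l j hl hj
    have h1 := hform ⟨2 * g - 1 - j, by omega⟩ l
    rw [dif_pos (show 2 * g - 1 - (j : ℕ) < g by omega), dif_neg (by omega), sub_zero,
      sgn_lt (show 2 * g - 1 - (j : ℕ) < g by omega)] at h1
    have h2 : (⟨2 * g - 1 - (⟨2 * g - 1 - (j : ℕ), by omega⟩ : Fin (2 * g)), by omega⟩ :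
        Fin (2 * g)) = j := by
      apply Fin.ext
      simp only
      omega
    rw [h2] at h1
    rw [h1]
    by_cases hlj : l = j
    · rw [if_pos hlj, if_pos, mul_one]
      rw [hlj]
      simp only
      omega
    · rw [if_neg hlj, if_neg, mul_zero]
      intro h3
      apply hlj
      apply Fin.ext
      simp only at h3
      omega
  have hc1 : c = 1 := by
    have h1 := hD ⟨g, by omega⟩ ⟨g, by omega⟩ le_rfl le_rfl
    rw [if_pos rfl, hcol _ _ (le_refl g), if_pos rfl] at h1
    exact h1.symm
  -- the row `g - 1`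
  have hrow : ∀ l j : Fin (2 * g), (l : ℕ) + 1 = g → g ≤ (j : ℕ) → A l j = 0 := by
    intro l j hl hj
    have h1 := hform ⟨2 * g - 1 - j, by omega⟩ l
    rw [dif_pos (show 2 * g - 1 - (j : ℕ) < g by omega), dif_pos (show (l : ℕ) < g by omega),
      if_neg (by simp only; omega), mul_zero] at h1
    have h2 : (⟨2 * g - 1 - (⟨2 * g - 1 - (j : ℕ), by omega⟩ : Fin (2 * g)), by omega⟩ :
        Fin (2 * g)) = j := by
      apply Fin.ext
      simp only
      omega
    have e3 : A ⟨2 * g - 1 - j, by omega⟩ ⟨2 * g - 1 - l, by omega⟩ = 0 := by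
      rw [hcol _ _ (show 2 * g - 1 - (l : ℕ) ≤ g by omega), if_neg]
      intro h3
      have := congrArg Fin.val h3
      simp only at this
      omega
    rw [h2, e3, sub_zero] at h1
    exact h1
  refine mem_lev_of_low (by norm_num) ?_
  rw [Aout_cls, ← hA]
  intro i j hij
  unfold ent
  split_ifs with h
  · rw [Matrix.sub_apply, sub_eq_zero]
    have h1 : (1 : Matrix (Fin (2 * g)) (Fin (2 * g)) ℤ) ⟨i, h.1⟩ ⟨j, h.2⟩ =
        if (⟨i, h.1⟩ : Fin (2 * g)) = ⟨j, h.2⟩ then 1 else 0 := Matrix.one_apply
    rw [h1]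
    by_cases hj : j ≤ g
    · exact hcol _ _ hj
    · by_cases hi : g ≤ i
      · rw [hD _ _ hi (by simp only; omega), hc1]
      · rw [hrow _ _ (by simp only; omega) (by simp only; omega), if_neg]
        intro h3
        have := congrArg Fin.val h3
        simp only at this
        omega
  · rfl

end Pool.Agent.H26.TG
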