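import Pool.Agent.H26.TG.Main
import Pool.Agent.H26.TG.Stab

/-!
# Definitions for the statement

Part of `MP_c61994_al`. The same objects as in `SDefs`, with named instances, so that the statement prints briefly.
-/

set_option autoImplicit false

namespace Pool.Agent.H26.TG.St

/-- the fundamental group of the closed orientable surface of genus `g` -/
def Surf (g : ℕ) : Type := PresentedGroup ({relator g} : Set (FreeGroup (Fin g ⊕ Fin g)))

instance surfGroup (g : ℕ) : Group (Surf g) :=
  inferInstanceAs (Group (PresentedGroup ({relator g} : Set (FreeGroup (Fin g ⊕ Fin g)))))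

/-- the generators: `inl i` is `a_i`, `inr i` is `b_i` -/
def gen {g : ℕ} (p : Fin g ⊕ Fin g) : Surf g :=
  (PresentedGroup.of p : PresentedGroup ({relator g} : Set (FreeGroup (Fin g ⊕ Fin g))))

/-- the first homology group -/
def Hom1 (g : ℕ) : Type := Abelianization (Surf g)

instance homGroup (g : ℕ) : CommGroup (Hom1 g) := inferInstanceAs (CommGroup (Abelianization (Surf g)))

/-- the homology class -/
def hcl {g : ℕ} : Surf g →* Hom1 g := Abelianization.of

/-- automorphisms -/
def Auto (g : ℕ) : Type := MulAut (Surf g)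

instance autoGroup (g : ℕ) : Group (Auto g) := inferInstanceAs (Group (MulAut (Surf g)))

/-- an automorphism as a bijection -/
def toEquiv {g : ℕ} (φ : Auto g) : Surf g ≃* Surf g := φ

/-- the image of `x` under `φ` -/
def app {g : ℕ} (φ : Auto g) (x : Surf g) : Surf g := toEquiv φ x

/-- the inner automorphisms -/
def Inn (g : ℕ) : Subgroup (Auto g) :=
  Subgroup.normalClosure (Set.range (MulAut.conj : Surf g →* MulAut (Surf g)))

instance innNormal (g : ℕ) : (Inn g).Normal := Subgroup.normalClosure_normal

/-- outer automorphisms -/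
def Out (g : ℕ) : Type := Auto g ⧸ Inn g

instance outGroup (g : ℕ) : Group (Out g) := inferInstanceAs (Group (Auto g ⧸ Inn g))

/-- the outer class of an automorphism -/
def out {g : ℕ} : Auto g →* Out g := QuotientGroup.mk' (Inn g)

/-- the outer classes of the automorphisms which fix the homology classes of the elements of `Y` -/
def fixing (g : ℕ) (Y : Set (Surf g)) : Subgroup (Out g) :=
  (Subgroup.closure {φ : Auto g | ∀ x ∈ Y, hcl (app φ x) = hcl x}).map out

/-- the Torelli group -/
def Tor (g : ℕ) : Subgroup (Out g) := fixing g Set.univ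

/-- the order `b_0, …, b_(g-1), a_(g-1), …, a_0` of the generators -/
def order {g : ℕ} (j : Fin (2 * g)) : Fin g ⊕ Fin g :=
  if h : (j : ℕ) < g then Sum.inr ⟨j, h⟩ else Sum.inl ⟨2 * g - 1 - j, by omega⟩

/-- the subgroup of the homology generated by the first `k` of them -/
def Flag (g k : ℕ) : Subgroup (Hom1 g) :=
  Subgroup.closure {x | ∃ j : Fin (2 * g), (j : ℕ) < k ∧ x = hcl (gen (order j))}

/-- the elements of `D` lower the flag by two steps -/
def Lowers (g : ℕ) (D : Subgroup (Out g)) : Prop :=
  ∀ φ : Auto g, out φ ∈ D → ∀ (k : ℕ) (x : Surf g), hcl x ∈ Flag g k →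
    hcl (app φ x) * (hcl x)⁻¹ ∈ Flag g (k - 2)

/-- the Dehn twist `a_i ↦ a_i b_i` -/
def IsTwist {g : ℕ} (i : Fin g) (τ : Auto g) : Prop :=
  app τ (gen (Sum.inl i)) = gen (Sum.inl i) * gen (Sum.inr i) ∧
    ∀ p : Fin g ⊕ Fin g, p ≠ Sum.inl i → app τ (gen p) = gen p

/-- finite presentability of a subgroup -/
def FP {g : ℕ} (D : Subgroup (Out g)) : Prop := Group.IsFinitelyPresented ↥D

end Pool.Agent.H26.TG.St
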