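import Pool.Agent.H26.TG.Lev

/-!
# The symbol of a symplectic element

Part of `MP_c61994_al`. `Jm g` is the antidiagonal symplectic matrix: entry `(i, j)` is `sgn i` if `i + j + 1 = 2 g`, else `0`.

PROOF of `sy_rel`: compare the entries `(a, b)` of `A f * Jm g * (A f)ᵀ = c • Jm g`. Since `a + b + 1 ≠ 2 g`
(`h ≥ 1`) the right side is `0`. The left side is `∑_l A_{a,l} sgn(l) A_{b,l'}` with `l' = 2 g - 1 - l`. Write `A f = 1 + X`,
`X` in `Low h`. `A_{a,l} ≠ 0` only for `l = a` or `l ≥ a + h`; `A_{b,l'} ≠ 0` only for `l' = b` (that is `l = a + h`) or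
`l' ≥ b + h`, that is `l ≤ a`. So only `l = a` and `l = a + h` contribute: `sgn(a) X_{b,b+h} + sgn(a+h) X_{a,a+h} = 0`
(`a' = b + h`, `A_{a,a} = 1`, `A_{b,b} = 1`). Multiply by `sgn(a)`.
-/

set_option autoImplicit false

namespace Pool.Agent.H26.TG

/-- the sign -/
def sgn (g i : ℕ) : ℤ := if i < g then 1 else -1

/-- the symplectic matrix in the order of the flag -/
def Jm (g : ℕ) : Matrix (Fin (2 * g)) (Fin (2 * g)) ℤ :=
  fun i j => if (i : ℕ) + j + 1 = 2 * g then sgn g i else 0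

variable {M : Type*} [Group M] {g : ℕ} {A : M →* Matrix (Fin (2 * g)) (Fin (2 * g)) ℤ}

private lemma sr_sgn (g i : ℕ) : sgn g i * sgn g i = 1 := by
  unfold sgn
  split_ifs <;> norm_num

/-- the entries of `A * Jm g * Aᵀ` -/
private lemma sr_entry (B : Matrix (Fin (2 * g)) (Fin (2 * g)) ℤ) {a b : ℕ} (ha : a < 2 * g)
    (hb : b < 2 * g) : (B * Jm g * B.transpose) ⟨a, ha⟩ ⟨b, hb⟩ =
      ∑ l ∈ Finset.range (2 * g), ent B a l * sgn g l * ent B b (2 * g - 1 - l) := by
  rw [Matrix.mul_assoc, Matrix.mul_apply, Finset.sum_range]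
  refine Finset.sum_congr rfl fun l _ => ?_
  rw [Matrix.mul_apply]
  have hl : 2 * g - 1 - (l : ℕ) < 2 * g := by have := l.2; omega
  rw [Finset.sum_eq_single_of_mem (⟨2 * g - 1 - (l : ℕ), hl⟩ : Fin (2 * g)) (Finset.mem_univ _)]
  · have h1 : Jm g l ⟨2 * g - 1 - (l : ℕ), hl⟩ = sgn g l := by
      unfold Jm
      rw [if_pos]
      change (l : ℕ) + (2 * g - 1 - (l : ℕ)) + 1 = 2 * g
      have := l.2
      omega
    rw [h1, Matrix.transpose_apply]
    have h2 : ent B a l = B ⟨a, ha⟩ l := ent_fin B ⟨a, ha⟩ l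
    have h3 : ent B b (2 * g - 1 - (l : ℕ)) = B ⟨b, hb⟩ ⟨2 * g - 1 - (l : ℕ), hl⟩ :=
      ent_fin B ⟨b, hb⟩ ⟨2 * g - 1 - (l : ℕ), hl⟩
    rw [h2, h3]
    ring
  · intro j _ hj
    have h1 : Jm g l j = 0 := by
      unfold Jm
      rw [if_neg]
      intro h2
      apply hj
      apply Fin.ext
      change (j : ℕ) = 2 * g - 1 - (l : ℕ)
      omega
    rw [h1, zero_mul]

lemma sy_rel {f : M} {c : ℤ} (hf : A f * Jm g * (A f).transpose = c • Jm g) {h : ℕ} (hh : 1 ≤ h)
    (hfl : f ∈ lev A h) {a b : ℕ} (hab : a + b + h + 1 = 2 * g) :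
    sy A h f b = -(sgn g (a + h) * sgn g a) * sy A h f a := by
  have ha : a < 2 * g := by omega
  have hb : b < 2 * g := by omega
  have hlow : Low h (A f - 1) := (mem_lev_iff.mp hfl).1
  -- the entries of `A f`
  have hent : ∀ i j : ℕ, ent (A f) i j = ent (A f - 1) i j + (if i = j ∧ i < 2 * g then 1 else 0) := by
    intro i j
    rw [← ent_one, ← ent_add, sub_add_cancel]
  have hdiag : ∀ i : ℕ, i < 2 * g → ent (A f) i i = 1 := by
    intro i hi
    rw [hent, hlow i i (by omega), if_pos ⟨rfl, hi⟩, zero_add]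
  have hoff : ∀ i j : ℕ, i ≠ j → ent (A f) i j = ent (A f - 1) i j := by
    intro i j hij
    rw [hent, if_neg (fun h1 => hij h1.1), add_zero]
  have hzero : ∀ i j : ℕ, i ≠ j → j < i + h → ent (A f) i j = 0 := by
    intro i j hij hj
    rw [hoff i j hij, hlow i j hj]
  have h1 := congrFun (congrFun hf ⟨a, ha⟩) ⟨b, hb⟩
  rw [sr_entry] at h1
  have h2 : (c • Jm g) ⟨a, ha⟩ ⟨b, hb⟩ = 0 := by
    rw [Matrix.smul_apply]
    have h3 : Jm g ⟨a, ha⟩ ⟨b, hb⟩ = 0 := by
      unfold Jm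
      rw [if_neg]
      change ¬ (a + b + 1 = 2 * g)
      omega
    rw [h3, smul_zero]
  rw [h2] at h1
  have h3 : ∑ l ∈ Finset.range (2 * g), ent (A f) a l * sgn g l * ent (A f) b (2 * g - 1 - l) =
      ∑ l ∈ ({a, a + h} : Finset ℕ), ent (A f) a l * sgn g l * ent (A f) b (2 * g - 1 - l) := by
    symm
    refine Finset.sum_subset ?_ ?_
    · intro l hl
      rw [Finset.mem_insert, Finset.mem_singleton] at hl
      rw [Finset.mem_range]
      omega
    · intro l hl hl2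
      rw [Finset.mem_range] at hl
      rw [Finset.mem_insert, Finset.mem_singleton, not_or] at hl2
      by_cases h4 : l < a + h
      · rw [hzero a l (fun h5 => hl2.1 h5.symm) h4, zero_mul, zero_mul]
      · rw [hzero b (2 * g - 1 - l) (by omega) (by omega), mul_zero]
  rw [h3, Finset.sum_pair (by omega)] at h1
  have e1 : 2 * g - 1 - a = b + h := by omega
  have e2 : 2 * g - 1 - (a + h) = b := by omega
  rw [e1, e2, hdiag a ha, hdiag b hb, hoff a (a + h) (by omega), hoff b (b + h) (by omega)] at h1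
  unfold sy
  have h4 := sr_sgn g a
  linear_combination (sgn g a) * h1 - ent (A f - 1) b (b + h) * h4

end Pool.Agent.H26.TG
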